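import Mathlib

/-!
Support bounds for multiples and for contraction-kernels of a sum of variables.
-/

namespace Pool.Agent.MP_a773c0_ag

open Finset

variable {σ : Type*} [DecidableEq σ] {K : Type*} [Field K]

/-- Coefficient at `m` of `(∑ i ∈ S, x_i) * f`, where `f` is given by its coefficients. -/
noncomputable def down (S : Finset σ) (f : (σ →₀ ℕ) → K) (m : σ →₀ ℕ) : K :=
  ∑ i ∈ S, if m i = 0 then 0 else f (m - Finsupp.single i 1)

/-- Coefficient at `u` of the contraction of `F` by `∑ i ∈ S, x_i`. -/
noncomputable def up (S : Finset σ) (F : (σ →₀ ℕ) → K) (u : σ →₀ ℕ) : K :=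
  ∑ i ∈ S, F (u + Finsupp.single i 1)

theorem up_support (S : Finset σ) : ∀ (k : ℕ) (F : (σ →₀ ℕ) → K), (∃ m, F m ≠ 0) →
    (∀ m, F m ≠ 0 → ∑ i ∈ S, m i = k) → (∀ u, up S F u = 0) →
    ∃ W : Finset (σ →₀ ℕ), W.card = k + 1 ∧ ∀ m ∈ W, F m ≠ 0 := by
  induction S using Finset.induction_on with
  | empty =>
    intro k F ⟨m, hm⟩ hk _
    have := hk m hm
    simp at this
    exact ⟨{m}, by simp [← this], by simpa using hm⟩
  | insert i S hi ih =>
    intro k F ⟨m0, hm0⟩ hk hup
    have hk' : ∀ m, F m ≠ 0 → m i + ∑ j ∈ S, m j = k := by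
      intro m hm
      have := hk m hm
      rwa [Finset.sum_insert hi] at this
    -- the maximal exponent of `x_i`
    obtain ⟨a, ⟨v, hv, hva⟩, hmax⟩ : ∃ a, (∃ v, F v ≠ 0 ∧ v i = a) ∧ ∀ m, F m ≠ 0 → m i ≤ a := by
      classical
      let P : ℕ → Prop := fun a => ∃ v, F v ≠ 0 ∧ v i = a
      have hP : ∃ a, P a := ⟨m0 i, m0, hm0, rfl⟩
      have hb : ∀ a, P a → a ≤ k := by
        rintro a ⟨v, hv, rfl⟩
        have := hk' v hv
        omega
      refine ⟨Nat.findGreatest P k, Nat.findGreatest_spec (hb _ hP.choose_spec) hP.choose_spec, ?_⟩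
      intro m hm
      exact Nat.le_findGreatest (hb _ ⟨m, hm, rfl⟩) ⟨m, hm, rfl⟩
    have hak : a ≤ k := by
      have := hk' v hv
      omega
    -- top stratum
    let Fa : (σ →₀ ℕ) → K := fun m => if m i = a then F m else 0
    have hFa : ∀ m, Fa m ≠ 0 → F m ≠ 0 ∧ m i = a := by
      intro m hm
      by_cases h : m i = a
      · simp only [Fa, h, if_true] at hm
        exact ⟨hm, h⟩
      · simp [Fa, h] at hm
    obtain ⟨W', hW'c, hW'⟩ := ih (k - a) Fa ⟨v, by simpa [Fa, hva] using hv⟩ (by
        intro m hm
        obtain ⟨h1, h2⟩ := hFa m hm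
        have := hk' m h1
        omega) (by
        intro u
        by_cases hu : u i = a
        · have h1 := hup u
          unfold up at h1 ⊢
          rw [Finset.sum_insert hi] at h1
          have h2 : F (u + Finsupp.single i 1) = 0 := by
            by_contra h
            have := hmax _ h
            simp [hu] at this
          rw [h2, zero_add] at h1
          rw [← h1]
          refine Finset.sum_congr rfl fun j hj => ?_
          have hji : j ≠ i := fun h => hi (h ▸ hj)
          simp [Fa, hji, hu]
        · unfold up
          refine Finset.sum_eq_zero fun j hj => ?_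
          have hji : j ≠ i := fun h => hi (h ▸ hj)
          simp [Fa, hji, hu])
    -- lower strata are nonempty
    have hstr : ∀ c, ∀ j, j + c = a → ∃ w, F w ≠ 0 ∧ w i = j := by
      intro c
      induction c with
      | zero => intro j hj; exact ⟨v, hv, by omega⟩
      | succ c ihc =>
        intro j hj
        obtain ⟨w, hw, hwi⟩ := ihc (j + 1) (by omega)
        have h1 := hup (w - Finsupp.single i 1)
        have h2 : w - Finsupp.single i 1 + Finsupp.single i 1 = w := by
          apply tsub_add_cancel_of_le
          rw [Finsupp.single_le_iff]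
          omega
        unfold up at h1
        rw [Finset.sum_insert hi, h2] at h1
        have h3 : ∃ l ∈ S, F (w - Finsupp.single i 1 + Finsupp.single l 1) ≠ 0 := by
          by_contra hcon
          push Not at hcon
          rw [Finset.sum_eq_zero hcon, add_zero] at h1
          exact hw h1
        obtain ⟨l, hl, hl'⟩ := h3
        have hli : l ≠ i := fun h => hi (h ▸ hl)
        refine ⟨_, hl', ?_⟩
        simp [hli, hwi]
    choose! w hw using fun j (hj : j < a) => hstr (a - j) j (by omega)
    refine ⟨W' ∪ (Finset.range a).image w, ?_, ?_⟩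
    · rw [Finset.card_union_of_disjoint, hW'c, Finset.card_image_of_injOn, Finset.card_range]
      · omega
      · intro x hx y hy hxy
        simp only [Finset.coe_range, Set.mem_Iio] at hx hy
        have h1 := (hw x hx).2
        have h2 := (hw y hy).2
        rw [hxy] at h1
        omega
      · rw [Finset.disjoint_left]
        intro m hm hm'
        simp only [Finset.mem_image, Finset.mem_range] at hm'
        obtain ⟨x, hx, rfl⟩ := hm'
        have h1 := (hFa _ (hW' _ hm)).2
        have h2 := (hw x hx).2
        omega
    · intro m hm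
      rw [Finset.mem_union] at hm
      rcases hm with hm | hm
      · exact (hFa _ (hW' _ hm)).1
      · simp only [Finset.mem_image, Finset.mem_range] at hm
        obtain ⟨x, hx, rfl⟩ := hm
        exact (hw x hx).1

end Pool.Agent.MP_a773c0_ag
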