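import Pool.Agent.Lib.MP_a773c0_ag.Defs
import Pool.Agent.Lib.MP_a773c0_ag.Supp

/-!
Translation between monomial level algebras and finite sets of exponents (the inverse system).
-/

namespace Pool.Agent.MP_a773c0_ag

open MvPolynomial Finset

set_option linter.unusedSimpArgs false
set_option linter.unusedSectionVars false

variable {K : Type*} [Field K] {n : ℕ}

/-- total degree of an exponent -/
noncomputable def deg (m : Fin n →₀ ℕ) : ℕ := ∑ i, m i

theorem deg_add (a b : Fin n →₀ ℕ) : deg (a + b) = deg a + deg b := by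
  simp [deg, Finset.sum_add_distrib]

theorem deg_single (i : Fin n) (c : ℕ) : deg (Finsupp.single i c) = c := by
  simp [deg, Finsupp.single_apply]

theorem deg_le {a b : Fin n →₀ ℕ} (h : a ≤ b) : deg a ≤ deg b :=
  Finset.sum_le_sum fun i _ => h i

theorem eq_of_le_of_deg {a b : Fin n →₀ ℕ} (h : a ≤ b) (hd : deg b ≤ deg a) : a = b := by
  have h1 : ∀ i ∈ (univ : Finset (Fin n)), a i ≤ b i := fun i _ => h i
  have h2 := (Finset.sum_eq_sum_iff_of_le h1).mp (le_antisymm (deg_le h) hd)
  ext i
  exact h2 i (mem_univ i)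

theorem deg_sub_single {m : Fin n →₀ ℕ} {i : Fin n} (h : m i ≠ 0) :
    deg (m - Finsupp.single i 1) + 1 = deg m := by
  have h1 : m - Finsupp.single i 1 + Finsupp.single i 1 = m := by
    apply tsub_add_cancel_of_le
    rw [Finsupp.single_le_iff]
    omega
  conv_rhs => rw [← h1, deg_add, deg_single]

/-- if `a ≤ b` and `deg a < deg b`, some coordinate can be raised -/
theorem exists_raise {a b : Fin n →₀ ℕ} (h : a ≤ b) (hd : deg a < deg b) :
    ∃ i, a + Finsupp.single i 1 ≤ b := by
  obtain ⟨i, _, hi⟩ := Finset.exists_lt_of_sum_lt hd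
  refine ⟨i, fun l => ?_⟩
  have h1 := h l
  rcases eq_or_ne i l with rfl | hil
  · simp; omega
  · simp [Finsupp.single_apply, hil, h1]

theorem mem_homog {f : MvPolynomial (Fin n) K} {j : ℕ} :
    f ∈ homogeneousSubmodule (Fin n) K j ↔ ∀ m, coeff m f ≠ 0 → deg m = j := by
  rw [mem_homogeneousSubmodule]
  unfold IsHomogeneous IsWeightedHomogeneous
  refine forall_congr' fun m => ?_
  have : Finsupp.weight 1 m = deg m := by
    rw [Finsupp.weight_apply, Finsupp.sum_fintype _ _ (by simp)]
    simp [deg]
  rw [this]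

theorem monomial_mem_homog (m : Fin n →₀ ℕ) (c : K) :
    monomial m c ∈ homogeneousSubmodule (Fin n) K (deg m) := by
  rw [mem_homog]
  intro m' hm'
  rw [coeff_monomial] at hm'
  split_ifs at hm' with h
  · rw [h]
  · exact absurd rfl hm'

/-- `I` is the monomial ideal whose standard monomials are the divisors of the elements of `T`,
all of degree `e`. -/
structure LevelData (I : Ideal (MvPolynomial (Fin n) K)) (e : ℕ) (T : Finset (Fin n →₀ ℕ)) :
    Prop where
  mem_iff : ∀ f : MvPolynomial (Fin n) K, f ∈ I ↔ ∀ m, coeff m f ≠ 0 → ∀ τ ∈ T, ¬ m ≤ τ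
  degT : ∀ τ ∈ T, deg τ = e

/-- the standard monomials -/
def Std (T : Finset (Fin n →₀ ℕ)) (m : Fin n →₀ ℕ) : Prop := ∃ τ ∈ T, m ≤ τ

theorem Std.mono {T : Finset (Fin n →₀ ℕ)} {m m' : Fin n →₀ ℕ} (h : Std T m) (hm : m' ≤ m) :
    Std T m' := by
  obtain ⟨τ, hτ, h⟩ := h
  exact ⟨τ, hτ, hm.trans h⟩

theorem LevelData.mem_iff' {I : Ideal (MvPolynomial (Fin n) K)} {e : ℕ}
    {T : Finset (Fin n →₀ ℕ)} (h : LevelData I e T) (f : MvPolynomial (Fin n) K) :
    f ∈ I ↔ ∀ m, Std T m → coeff m f = 0 := by
  rw [h.mem_iff]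
  constructor
  · rintro h1 m ⟨τ, hτ, hm⟩
    by_contra hcon
    exact h1 m hcon τ hτ hm
  · intro h1 m hm τ hτ hle
    exact hm (h1 m ⟨τ, hτ, hle⟩)

theorem LevelData.mk_eq_iff {I : Ideal (MvPolynomial (Fin n) K)} {e : ℕ}
    {T : Finset (Fin n →₀ ℕ)} (h : LevelData I e T) (f g : MvPolynomial (Fin n) K) :
    Ideal.Quotient.mk I f = Ideal.Quotient.mk I g ↔ ∀ m, Std T m → coeff m f = coeff m g := by
  rw [Ideal.Quotient.eq, h.mem_iff']
  simp only [coeff_sub, sub_eq_zero]

theorem Std.deg_le {I : Ideal (MvPolynomial (Fin n) K)} {e : ℕ}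
    {T : Finset (Fin n →₀ ℕ)} (h : LevelData I e T) {m : Fin n →₀ ℕ} (hm : Std T m) :
    deg m ≤ e := by
  obtain ⟨τ, hτ, hle⟩ := hm
  rw [← h.degT τ hτ]
  exact Pool.Agent.MP_a773c0_ag.deg_le hle

/-- coefficient of a general linear form times `f` -/
noncomputable def downA {R : Type*} [CommRing R] (a : Fin n → R) (f : (Fin n →₀ ℕ) → R)
    (m : Fin n →₀ ℕ) : R :=
  ∑ i, if m i = 0 then 0 else a i * f (m - Finsupp.single i 1)

theorem linear_form_eq {L : MvPolynomial (Fin n) K} (hL : L ∈ homogeneousSubmodule (Fin n) K 1) :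
    L = ∑ i, C (coeff (Finsupp.single i 1) L) * X i := by
  rw [mem_homog] at hL
  ext m
  rw [coeff_sum]
  simp only [coeff_C_mul, coeff_X]
  by_cases hm : coeff m L = 0
  · rw [hm, Finset.sum_eq_zero]
    intro i _
    split_ifs with h
    · rw [h, hm]; simp
    · simp
  · have h1 := hL m hm
    obtain ⟨i, hi⟩ : ∃ i, m = Finsupp.single i 1 := by
      have : ∃ i, m i ≠ 0 := by
        by_contra hcon
        push Not at hcon
        simp [deg, hcon] at h1
      obtain ⟨i, hi⟩ := this
      refine ⟨i, ?_⟩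
      refine (eq_of_le_of_deg ?_ ?_).symm
      · rw [Finsupp.single_le_iff]; omega
      · rw [h1, deg_single]
    subst hi
    rw [Finset.sum_eq_single i]
    · simp
    · intro l _ hl
      have : Finsupp.single l 1 ≠ (Finsupp.single i 1 : Fin n →₀ ℕ) := by
        intro h
        exact hl (Finsupp.single_left_injective one_ne_zero h)
      simp [this]
    · simp

theorem coeff_linear_mul {L : MvPolynomial (Fin n) K} (hL : L ∈ homogeneousSubmodule (Fin n) K 1)
    (f : MvPolynomial (Fin n) K) (m : Fin n →₀ ℕ) :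
    coeff m (L * f) = downA (fun i => coeff (Finsupp.single i 1) L) (fun u => coeff u f) m := by
  conv_lhs => rw [linear_form_eq hL]
  rw [Finset.sum_mul, coeff_sum]
  unfold downA
  refine Finset.sum_congr rfl fun i _ => ?_
  rw [mul_assoc, coeff_C_mul, coeff_X_mul']
  by_cases h : m i = 0
  · simp [h]
  · simp [h]

theorem sumX_mem : (∑ i, X i : MvPolynomial (Fin n) K) ∈ homogeneousSubmodule (Fin n) K 1 := by
  refine Submodule.sum_mem _ fun i _ => ?_
  rw [mem_homogeneousSubmodule]
  exact isHomogeneous_X K i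

theorem coeff_sumX_mul (f : MvPolynomial (Fin n) K) (m : Fin n →₀ ℕ) :
    coeff m ((∑ i, X i) * f) = down univ (fun u => coeff u f) m := by
  rw [Finset.sum_mul, coeff_sum]
  unfold down
  refine Finset.sum_congr rfl fun i _ => ?_
  rw [coeff_X_mul']
  by_cases h : m i = 0
  · simp [h]
  · simp [h]

theorem mem_component {I : Ideal (MvPolynomial (Fin n) K)} {j : ℕ}
    {a : MvPolynomial (Fin n) K ⧸ I} :
    a ∈ component I j ↔ ∃ f ∈ homogeneousSubmodule (Fin n) K j, Ideal.Quotient.mk I f = a := by
  unfold component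
  rw [Submodule.mem_map]
  rfl

theorem injOn_of {I : Ideal (MvPolynomial (Fin n) K)} {e : ℕ}
    {T : Finset (Fin n →₀ ℕ)} (h : LevelData I e T) (j : ℕ)
    (hinj : ∀ f : (Fin n →₀ ℕ) → K, (∀ m, f m ≠ 0 → Std T m ∧ deg m = j) →
      (∀ m, Std T m → down univ f m = 0) → f = 0) :
    Set.InjOn (fun a => Ideal.Quotient.mk I (∑ i, X i) * a) (component I j) := by
  rintro _ ha _ hb hab
  obtain ⟨f, hf, rfl⟩ := mem_component.mp ha
  obtain ⟨g, hg, rfl⟩ := mem_component.mp hb
  simp only [← map_mul] at hab
  rw [h.mk_eq_iff] at hab ⊢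
  have h1 := hinj (fun m => by
      classical
      exact if Std T m then coeff m f - coeff m g else 0) (by
    intro m hm
    by_cases hs : Std T m
    · refine ⟨hs, ?_⟩
      simp only [hs, if_true] at hm
      have := Submodule.sub_mem _ hf hg
      rw [mem_homog] at this
      exact this m (by simpa using hm)
    · simp [hs] at hm) (by
    intro m hm
    have h2 := hab m hm
    rw [← sub_eq_zero, ← coeff_sub, ← mul_sub, coeff_sumX_mul] at h2
    rw [← h2]
    unfold down
    refine Finset.sum_congr rfl fun i _ => ?_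
    split_ifs with h3
    · rfl
    · have h4 : Std T (m - Finsupp.single i 1) := hm.mono tsub_le_self
      simp [h4])
  intro m hm
  have := congrFun h1 m
  simpa [hm, sub_eq_zero] using this

theorem surjOn_of {I : Ideal (MvPolynomial (Fin n) K)} {e : ℕ}
    {T : Finset (Fin n →₀ ℕ)} (h : LevelData I e T) (j : ℕ)
    (hsurj : ∀ F : (Fin n →₀ ℕ) → K, (∀ m, F m ≠ 0 → Std T m ∧ deg m = j + 1) →
      (∀ u, up univ F u = 0) → F = 0) :
    Set.SurjOn (fun a => Ideal.Quotient.mk I (∑ i, X i) * a) (component I j)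
      (component I (j + 1)) := by
  intro y hy
  by_contra hcon
  let W : Submodule K (MvPolynomial (Fin n) K ⧸ I) :=
    (component I j).map (LinearMap.mulLeft K (Ideal.Quotient.mk I (∑ i, X i)))
  have hyW : y ∉ W := by
    intro hyW
    rw [Submodule.mem_map] at hyW
    obtain ⟨a, ha, rfl⟩ := hyW
    exact hcon ⟨a, ha, rfl⟩
  obtain ⟨φ, hφy, hφW⟩ := Submodule.exists_le_ker_of_notMem hyW
  have hF := hsurj (fun m => if deg m = j + 1 then φ (Ideal.Quotient.mk I (monomial m 1)) else 0)
    (by
      intro m hm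
      by_cases hd : deg m = j + 1
      · refine ⟨?_, hd⟩
        simp only [hd, if_true] at hm
        by_contra hs
        apply hm
        have : Ideal.Quotient.mk I (monomial m (1 : K)) = 0 := by
          rw [Ideal.Quotient.eq_zero_iff_mem, h.mem_iff']
          intro m' hm'
          rw [coeff_monomial]
          split_ifs with heq
          · subst heq; exact absurd hm' hs
          · rfl
        rw [this, map_zero]
      · simp [hd] at hm) (by
      intro u
      by_cases hu : deg u = j
      · have h1 : φ (Ideal.Quotient.mk I ((∑ i, X i) * monomial u 1)) = 0 := by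
          have : Ideal.Quotient.mk I ((∑ i, X i) * monomial u (1 : K)) ∈ W := by
            rw [Submodule.mem_map]
            refine ⟨Ideal.Quotient.mk I (monomial u 1), ?_, ?_⟩
            · rw [mem_component]
              exact ⟨_, hu ▸ monomial_mem_homog u 1, rfl⟩
            · rw [map_mul]; rfl
          exact hφW this
        rw [← h1, Finset.sum_mul, map_sum, map_sum]
        unfold up
        refine Finset.sum_congr rfl fun i _ => ?_
        have h2 : deg (u + Finsupp.single i 1) = j + 1 := by rw [deg_add, deg_single, hu]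
        simp only [h2, if_true]
        rw [mul_comm, X, monomial_mul, one_mul]
      · unfold up
        refine Finset.sum_eq_zero fun i _ => ?_
        have h2 : ¬ deg (u + Finsupp.single i 1) = j + 1 := by
          rw [deg_add, deg_single]; omega
        simp [h2])
  apply hφy
  obtain ⟨g, hg, rfl⟩ := mem_component.mp hy
  rw [mem_homog] at hg
  rw [← support_sum_monomial_coeff g, map_sum, map_sum]
  refine Finset.sum_eq_zero fun m hm => ?_
  have hm' : deg m = j + 1 := hg m (by simpa using hm)
  have h3 := congrFun hF m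
  simp only [hm', if_true, Pi.zero_apply] at h3
  have h4 : monomial m (coeff m g) = (coeff m g) • monomial m (1 : K) := by
    rw [smul_monomial, smul_eq_mul, mul_one]
  have h5 : Ideal.Quotient.mk I (monomial m (coeff m g)) =
      (coeff m g) • Ideal.Quotient.mk I (monomial m (1 : K)) := by
    rw [h4]
    exact map_smul (Ideal.Quotient.mkₐ K I) _ _
  rw [h5, map_smul, h3, smul_zero]

end Pool.Agent.MP_a773c0_ag
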