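import Pool.Agent.Lib.MP_a773c0_ag.Bridge

/-!
Monomial level algebras correspond to finite sets of exponents of one degree.
-/

namespace Pool.Agent.MP_a773c0_ag

open MvPolynomial Finset

set_option linter.unusedSimpArgs false
set_option linter.unusedSectionVars false

variable {K : Type*} [Field K] {n : ℕ}

theorem socle_eq {I : Ideal (MvPolynomial (Fin n) K)} {e : ℕ}
    {T : Finset (Fin n →₀ ℕ)} (h : LevelData I e T) : socle I = component I e := by
  classical
  apply le_antisymm
  · intro a ha
    obtain ⟨f, rfl⟩ := Ideal.Quotient.mk_surjective a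
    have ha' : ∀ i : Fin n, Ideal.Quotient.mk I (X i) * Ideal.Quotient.mk I f = 0 := ha
    rw [mem_component]
    refine ⟨∑ m ∈ T, monomial m (coeff m f), ?_, ?_⟩
    · refine Submodule.sum_mem _ fun m hm => ?_
      rw [← h.degT m hm]
      exact monomial_mem_homog m _
    · rw [h.mk_eq_iff]
      intro m hm
      rw [coeff_sum]
      simp only [coeff_monomial]
      by_cases hmT : m ∈ T
      · simp [hmT]
      · have : coeff m f = 0 := by
          obtain ⟨τ, hτ, hle⟩ := hm
          have hlt : deg m < deg τ := by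
            by_contra hcon
            push Not at hcon
            exact hmT (eq_of_le_of_deg hle hcon ▸ hτ)
          obtain ⟨i, hi⟩ := exists_raise hle hlt
          have h1 := ha' i
          rw [← map_mul, Ideal.Quotient.eq_zero_iff_mem, h.mem_iff'] at h1
          have h2 := h1 (m + Finsupp.single i 1) ⟨τ, hτ, hi⟩
          rw [coeff_X_mul'] at h2
          simpa using h2
        rw [this]
        simp [hmT]
  · intro a ha i
    obtain ⟨f, hf, rfl⟩ := mem_component.mp ha
    rw [← map_mul, Ideal.Quotient.eq_zero_iff_mem, h.mem_iff']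
    intro m hm
    rw [coeff_X_mul']
    split_ifs with h0
    · by_contra hcon
      rw [mem_homog] at hf
      have h1 := hf _ hcon
      have h2 := deg_sub_single (Finsupp.mem_support_iff.mp h0)
      have h3 := hm.deg_le h
      omega
    · rfl

theorem finrank_component {I : Ideal (MvPolynomial (Fin n) K)} {e : ℕ}
    {T : Finset (Fin n →₀ ℕ)} (h : LevelData I e T) :
    Module.finrank K (component I e) = T.card := by
  classical
  let v : T → MvPolynomial (Fin n) K ⧸ I := fun m => Ideal.Quotient.mk I (monomial m.1 (1 : K))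
  have hsmul : ∀ (m : Fin n →₀ ℕ) (c : K), Ideal.Quotient.mk I (monomial m c) =
      c • Ideal.Quotient.mk I (monomial m (1 : K)) := by
    intro m c
    rw [show monomial m c = c • monomial m (1 : K) by
      rw [smul_monomial, smul_eq_mul, mul_one]]
    exact map_smul (Ideal.Quotient.mkₐ K I) _ _
  have hli : LinearIndependent K v := by
    rw [Fintype.linearIndependent_iff]
    intro c hc m
    have h1 : Ideal.Quotient.mk I (∑ m : T, monomial m.1 (c m)) = Ideal.Quotient.mk I 0 := by
      rw [map_sum, map_zero, ← hc]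
      exact Finset.sum_congr rfl fun m _ => hsmul _ _
    rw [h.mk_eq_iff] at h1
    have h2 := h1 m.1 ⟨m.1, m.2, le_rfl⟩
    rw [coeff_sum, coeff_zero] at h2
    simp only [coeff_monomial] at h2
    rw [Finset.sum_eq_single m] at h2
    · simpa using h2
    · intro b _ hb
      rw [if_neg]
      intro h'
      exact hb (Subtype.ext h')
    · simp
  have hspan : component I e = Submodule.span K (Set.range v) := by
    apply le_antisymm
    · intro a ha
      obtain ⟨f, hf, rfl⟩ := mem_component.mp ha
      have h1 : Ideal.Quotient.mk I f = Ideal.Quotient.mk I (∑ m : T, monomial m.1 (coeff m.1 f)) := by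
        rw [h.mk_eq_iff]
        intro m hm
        rw [coeff_sum]
        simp only [coeff_monomial]
        by_cases hmT : m ∈ T
        · rw [Finset.sum_eq_single ⟨m, hmT⟩]
          · simp
          · intro b _ hb
            rw [if_neg]
            intro h'
            exact hb (Subtype.ext h')
          · simp
        · rw [Finset.sum_eq_zero]
          · by_contra hcon
            rw [mem_homog] at hf
            have h2 := hf m hcon
            obtain ⟨τ, hτ, hle⟩ := hm
            exact hmT (eq_of_le_of_deg hle (by rw [h.degT τ hτ, h2]) ▸ hτ)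
          · intro b _
            rw [if_neg]
            intro h'
            exact hmT (h' ▸ b.2)
      rw [h1, map_sum]
      refine Submodule.sum_mem _ fun m _ => ?_
      rw [hsmul]
      exact Submodule.smul_mem _ _ (Submodule.subset_span ⟨m, rfl⟩)
    · rw [Submodule.span_le]
      rintro _ ⟨m, rfl⟩
      exact mem_component.mpr ⟨_, h.degT m.1 m.2 ▸ monomial_mem_homog m.1 1, rfl⟩
  rw [hspan, finrank_span_eq_card hli, Fintype.card_coe]

/-- the monomial ideal whose inverse system is generated by `T` -/
noncomputable def idealOf (K : Type*) [Field K] (T : Finset (Fin n →₀ ℕ)) :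
    Ideal (MvPolynomial (Fin n) K) :=
  Ideal.span ((fun m => monomial m (1 : K)) '' {m | ∀ τ ∈ T, ¬ m ≤ τ})

theorem levelData_idealOf {T : Finset (Fin n →₀ ℕ)} {e : ℕ} (hT : ∀ τ ∈ T, deg τ = e) :
    LevelData (idealOf K T) e T := by
  refine ⟨fun f => ?_, hT⟩
  unfold idealOf
  rw [mem_ideal_span_monomial_image]
  refine forall_congr' fun m => ?_
  rw [mem_support_iff]
  refine imp_congr_right fun _ => ?_
  constructor
  · rintro ⟨s, hs, hsm⟩ τ hτ hm
    exact hs τ hτ (hsm.trans hm)
  · intro hm
    exact ⟨m, hm, le_rfl⟩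

theorem artinian_idealOf {T : Finset (Fin n →₀ ℕ)} {e : ℕ} (hT : ∀ τ ∈ T, deg τ = e) :
    IsArtinianRing (MvPolynomial (Fin n) K ⧸ idealOf K T) := by
  classical
  have h := levelData_idealOf (K := K) hT
  have : Module.Finite K (MvPolynomial (Fin n) K ⧸ idealOf K T) := by
    refine ⟨⟨(T.biUnion Finset.Iic).image
      (fun m => Ideal.Quotient.mk (idealOf K T) (monomial m (1 : K))), ?_⟩⟩
    rw [eq_top_iff]
    rintro a -
    obtain ⟨f, rfl⟩ := Ideal.Quotient.mk_surjective a
    have h1 : Ideal.Quotient.mk (idealOf K T) f = Ideal.Quotient.mk (idealOf K T)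
        (∑ m ∈ T.biUnion Finset.Iic, monomial m (coeff m f)) := by
      rw [h.mk_eq_iff]
      rintro m ⟨τ, hτ, hm⟩
      rw [coeff_sum]
      simp only [coeff_monomial]
      have : m ∈ T.biUnion Finset.Iic := by
        rw [Finset.mem_biUnion]
        exact ⟨τ, hτ, Finset.mem_Iic.mpr hm⟩
      simp [this]
    rw [h1, map_sum]
    refine Submodule.sum_mem _ fun m hm => ?_
    have h2 : Ideal.Quotient.mk (idealOf K T) (monomial m (coeff m f)) =
        (coeff m f) • Ideal.Quotient.mk (idealOf K T) (monomial m (1 : K)) := by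
      rw [show monomial m (coeff m f) = (coeff m f) • monomial m (1 : K) by
        rw [smul_monomial, smul_eq_mul, mul_one]]
      exact map_smul (Ideal.Quotient.mkₐ K _) _ _
    rw [h2]
    refine Submodule.smul_mem _ _ (Submodule.subset_span ?_)
    rw [Finset.coe_image]
    exact ⟨m, hm, rfl⟩
  exact IsArtinianRing.of_finite K _

theorem isLevel_of_levelData {I : Ideal (MvPolynomial (Fin n) K)} {e : ℕ}
    {T : Finset (Fin n →₀ ℕ)} (h : LevelData I e T) : IsLevel I (n + e) T.card :=
  ⟨e, Nat.add_comm _ _, (socle_eq h).le, by rw [socle_eq h, finrank_component h]⟩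

theorem exists_levelData {I : Ideal (MvPolynomial (Fin n) K)} {d t : ℕ}
    (hI : IsMonomialIdeal I) (hA : IsArtinianRing (MvPolynomial (Fin n) K ⧸ I))
    (hL : IsLevel I d t) :
    ∃ e T, d = n + e ∧ T.card = t ∧ LevelData I e T := by
  classical
  obtain ⟨S, hS⟩ := hI
  obtain ⟨e, hd, hsoc, hfin⟩ := hL
  -- standard monomials
  let Γ : (Fin n →₀ ℕ) → Prop := fun m => ∀ s ∈ S, ¬ s ≤ m
  have hmem : ∀ f : MvPolynomial (Fin n) K, f ∈ I ↔ ∀ m, coeff m f ≠ 0 → ¬ Γ m := by
    intro f
    rw [hS, mem_ideal_span_monomial_image]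
    refine forall_congr' fun m => ?_
    rw [mem_support_iff]
    simp [Γ]
  have hdown : ∀ m m', Γ m' → m ≤ m' → Γ m := by
    intro m m' hm' hle s hs hsm
    exact hm' s hs (hsm.trans hle)
  have hpow : ∀ i : Fin n, ∃ N, ¬ Γ (Finsupp.single i N) := by
    intro i
    obtain ⟨N, y, hy⟩ := IsArtinian.exists_pow_succ_smul_dvd
      (Ideal.Quotient.mk I (X i)) (1 : MvPolynomial (Fin n) K ⧸ I)
    obtain ⟨g, rfl⟩ := Ideal.Quotient.mk_surjective y
    rw [smul_eq_mul, smul_eq_mul, mul_one, ← map_pow, ← map_pow, ← map_mul,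
      Ideal.Quotient.eq, hmem] at hy
    refine ⟨N, hy _ ?_⟩
    rw [coeff_sub, X_pow_eq_monomial, X_pow_eq_monomial, coeff_monomial_mul']
    have : ¬ (Finsupp.single i (N + 1) ≤ (Finsupp.single i N : Fin n →₀ ℕ)) := by
      intro h
      have := h i
      simp at this
    simp [this]
  choose N hN using hpow
  let B : Fin n →₀ ℕ := Finsupp.equivFunOnFinite.symm N
  have hB : ∀ m, Γ m → m ≤ B := by
    intro m hm i
    by_contra hcon
    push Not at hcon
    refine hN i (hdown _ _ hm ?_)
    rw [Finsupp.single_le_iff]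
    exact le_of_lt hcon
  have hmax : ∀ m, Γ m → (∀ i, ¬ Γ (m + Finsupp.single i 1)) → deg m = e := by
    intro m hm hmi
    have h1 : Ideal.Quotient.mk I (monomial m (1 : K)) ∈ socle I := by
      intro i
      rw [← map_mul, Ideal.Quotient.eq_zero_iff_mem, hmem]
      intro m' hm'
      rw [X, monomial_mul, one_mul, coeff_monomial] at hm'
      split_ifs at hm' with h2
      · rw [← h2, add_comm]
        exact hmi i
      · exact absurd rfl hm'
    obtain ⟨g, hg, hg'⟩ := mem_component.mp (hsoc h1)
    rw [Ideal.Quotient.eq, hmem] at hg'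
    rw [mem_homog] at hg
    apply hg
    intro h3
    refine hg' m ?_ hm
    rw [coeff_sub, h3, coeff_monomial]
    simp
  have hext : ∀ c m, Γ m → deg B ≤ deg m + c → ∃ m', m ≤ m' ∧ Γ m' ∧ deg m' = e := by
    intro c
    induction c with
    | zero =>
      intro m hm hd
      refine ⟨m, le_rfl, hm, hmax m hm fun i hi => ?_⟩
      have := deg_le (hB _ hi)
      rw [deg_add, deg_single] at this
      omega
    | succ c ih =>
      intro m hm hd
      by_cases hc : ∀ i, ¬ Γ (m + Finsupp.single i 1)
      · exact ⟨m, le_rfl, hm, hmax m hm hc⟩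
      · push Not at hc
        obtain ⟨i, hi⟩ := hc
        obtain ⟨m', h1, h2, h3⟩ := ih _ hi (by rw [deg_add, deg_single]; omega)
        exact ⟨m', (le_add_of_nonneg_right zero_le).trans h1, h2, h3⟩
  let T : Finset (Fin n →₀ ℕ) := (Finset.Iic B).filter (fun m => Γ m ∧ deg m = e)
  have hT : ∀ m, m ∈ T ↔ Γ m ∧ deg m = e := by
    intro m
    simp only [T, Finset.mem_filter, Finset.mem_Iic]
    exact ⟨fun h => h.2, fun h => ⟨hB m h.1, h⟩⟩
  have hdata : LevelData I e T := by
    refine ⟨fun f => ?_, fun τ hτ => ((hT τ).mp hτ).2⟩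
    rw [hmem]
    refine forall_congr' fun m => imp_congr_right fun _ => ?_
    constructor
    · intro hm τ hτ hle
      exact hm (hdown _ _ ((hT τ).mp hτ).1 hle)
    · intro h hm
      obtain ⟨m', h1, h2, h3⟩ := hext (deg B) m hm (by omega)
      exact h m' ((hT m').mpr ⟨h2, h3⟩) h1
  refine ⟨e, T, by omega, ?_, hdata⟩
  rw [← finrank_component hdata, ← socle_eq hdata, hfin]

end Pool.Agent.MP_a773c0_ag
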