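import Pool.Agent.Lib.MP_a773c0_ag.Bridge

/-!
If the map given by the sum of the variables is neither injective nor surjective in degree `j`,
then no linear form works in degree `j`.
-/

namespace Pool.Agent.MP_a773c0_ag

open MvPolynomial Finset

set_option linter.unusedSimpArgs false
set_option linter.unusedSectionVars false

variable {K : Type*} [Field K] {n : ℕ}

/-- the standard exponents of degree `j` -/
noncomputable def stdF (T : Finset (Fin n →₀ ℕ)) (j : ℕ) : Finset (Fin n →₀ ℕ) := by
  classical
  exact (T.biUnion Finset.Iic).filter (fun m => deg m = j)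

theorem mem_stdF {T : Finset (Fin n →₀ ℕ)} {j : ℕ} {m : Fin n →₀ ℕ} :
    m ∈ stdF T j ↔ Std T m ∧ deg m = j := by
  classical
  unfold stdF Std
  simp

theorem mono_mul_X (M m : Fin n →₀ ℕ) (i : Fin n) (hm : m ≤ M) (hi : m i ≠ 0) :
    monomial (M - m) (1 : K) * X i = monomial (M - (m - Finsupp.single i 1)) 1 := by
  have h2 : M - m + Finsupp.single i 1 = M - (m - Finsupp.single i 1) := by
    ext l
    have h1 := hm l
    rcases eq_or_ne i l with rfl | hil
    · simp; omega
    · simp [Finsupp.single_apply, hil]
  rw [X, monomial_mul, one_mul, h2]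

theorem transpose_surj (M : Fin n →₀ ℕ) (F g : (Fin n →₀ ℕ) → K) (hF : ∀ m, F m ≠ 0 → m ≤ M) :
    ∑ m ∈ Finset.Iic M, (C (F m) * monomial (M - m) (1 : K)) *
      downA (fun i => (X i : MvPolynomial (Fin n) K)) (fun u => C (g u)) m =
    ∑ u ∈ Finset.Iic M, monomial (M - u) (1 : K) * C (g u) * C (up univ F u) := by
  unfold downA up
  simp only [Finset.mul_sum, map_sum]
  rw [Finset.sum_comm]
  conv_rhs => rw [Finset.sum_comm]
  refine Finset.sum_congr rfl fun i _ => ?_
  have h1 : ∑ m ∈ Finset.Iic M, (C (F m) * monomial (M - m) (1 : K)) *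
      (if m i = 0 then 0 else X i * C (g (m - Finsupp.single i 1))) =
      ∑ m ∈ (Finset.Iic M).filter (fun m => m i ≠ 0), (C (F m) * monomial (M - m) (1 : K)) *
        (X i * C (g (m - Finsupp.single i 1))) := by
    rw [Finset.sum_filter]
    refine Finset.sum_congr rfl fun m _ => ?_
    by_cases h : m i = 0
    · simp [h]
    · simp [h]
  have h2 : ∑ u ∈ Finset.Iic M, monomial (M - u) (1 : K) * C (g u) *
        C (F (u + Finsupp.single i 1)) =
      ∑ u ∈ (Finset.Iic M).filter (fun u => u + Finsupp.single i 1 ≤ M),
        monomial (M - u) (1 : K) * C (g u) * C (F (u + Finsupp.single i 1)) := by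
    rw [Finset.sum_filter]
    refine Finset.sum_congr rfl fun u _ => ?_
    split_ifs with h
    · rfl
    · have : F (u + Finsupp.single i 1) = 0 := by
        by_contra hcon
        exact h (hF _ hcon)
      simp [this]
  rw [h1, h2]
  refine Finset.sum_nbij' (fun m => m - Finsupp.single i 1) (fun u => u + Finsupp.single i 1)
    ?_ ?_ ?_ ?_ ?_
  · intro m hm
    simp only [Finset.mem_filter, Finset.mem_Iic] at hm ⊢
    have h3 : m - Finsupp.single i 1 + Finsupp.single i 1 = m := by
      apply tsub_add_cancel_of_le
      rw [Finsupp.single_le_iff]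
      omega
    rw [h3]
    exact ⟨tsub_le_self.trans hm.1, hm.1⟩
  · intro u hu
    simp only [Finset.mem_filter, Finset.mem_Iic] at hu ⊢
    exact ⟨hu.2, by simp⟩
  · intro m hm
    simp only [Finset.mem_filter, Finset.mem_Iic] at hm
    apply tsub_add_cancel_of_le
    rw [Finsupp.single_le_iff]
    omega
  · intro u _
    simp
  · intro m hm
    simp only [Finset.mem_filter, Finset.mem_Iic] at hm
    have h3 : m - Finsupp.single i 1 + Finsupp.single i 1 = m := by
      apply tsub_add_cancel_of_le
      rw [Finsupp.single_le_iff]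
      omega
    rw [h3, ← mono_mul_X M m i hm.1 hm.2]
    ring

theorem downA_map (a : Fin n → K) (g : (Fin n →₀ ℕ) → K) (m : Fin n →₀ ℕ) :
    eval a (downA (fun i => (X i : MvPolynomial (Fin n) K)) (fun u => C (g u)) m) =
      downA a g m := by
  unfold downA
  rw [map_sum]
  refine Finset.sum_congr rfl fun i _ => ?_
  by_cases h : m i = 0
  · simp [h]
  · simp [h]

theorem not_surjOn {I : Ideal (MvPolynomial (Fin n) K)} {e : ℕ}
    {T : Finset (Fin n →₀ ℕ)} (h : LevelData I e T) (j : ℕ) (F : (Fin n →₀ ℕ) → K)
    (hF0 : ∃ m, F m ≠ 0) (hFs : ∀ m, F m ≠ 0 → Std T m ∧ deg m = j + 1)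
    (hFu : ∀ u, up univ F u = 0) (L : MvPolynomial (Fin n) K)
    (hL : L ∈ homogeneousSubmodule (Fin n) K 1) :
    ¬ Set.SurjOn (fun a => Ideal.Quotient.mk I L * a) (component I j) (component I (j + 1)) := by
  classical
  intro hsurj
  set a : Fin n → K := fun i => coeff (Finsupp.single i 1) L with ha
  have hb : ∀ m : {m // m ∈ stdF T (j + 1)}, ∃ b : MvPolynomial (Fin n) K,
      ∀ m', Std T m' → downA a (fun u => coeff u b) m' = if m' = m.1 then 1 else 0 := by
    rintro ⟨m, hm⟩
    rw [mem_stdF] at hm
    have h1 : Ideal.Quotient.mk I (monomial m (1 : K)) ∈ component I (j + 1) := by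
      rw [mem_component]
      exact ⟨_, hm.2 ▸ monomial_mem_homog m 1, rfl⟩
    obtain ⟨x, hx, hx'⟩ := hsurj h1
    obtain ⟨b, hb, rfl⟩ := mem_component.mp hx
    simp only [← map_mul] at hx'
    rw [h.mk_eq_iff] at hx'
    refine ⟨b, fun m' hm' => ?_⟩
    rw [← coeff_linear_mul hL, hx' m' hm', coeff_monomial]
    simp [eq_comm]
  choose b hb using hb
  obtain ⟨M, hM⟩ : ∃ M : Fin n →₀ ℕ, ∀ m ∈ stdF T (j + 1), m ≤ M :=
    ⟨∑ m ∈ stdF T (j + 1), m, fun m hm =>
      Finset.single_le_sum (f := fun m => m) (fun _ _ => zero_le) hm⟩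
  have hFM : ∀ m, F m ≠ 0 → m ≤ M := fun m hm => hM m (mem_stdF.mpr (hFs m hm))
  let A : Matrix {m // m ∈ stdF T (j + 1)} {m // m ∈ stdF T (j + 1)} (MvPolynomial (Fin n) K) :=
    fun m' m => downA (fun i => X i) (fun u => C (coeff u (b m))) m'.1
  let w : {m // m ∈ stdF T (j + 1)} → MvPolynomial (Fin n) K :=
    fun m => C (F m.1) * monomial (M - m.1) 1
  have hdet : A.det = 0 := by
    rw [← Matrix.exists_vecMul_eq_zero_iff]
    refine ⟨w, ?_, ?_⟩
    · obtain ⟨m, hm⟩ := hF0
      intro hw
      have h1 := congrFun hw ⟨m, mem_stdF.mpr (hFs m hm)⟩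
      simp only [w, Pi.zero_apply, C_mul_monomial, mul_one, monomial_eq_zero] at h1
      exact hm h1
    · funext m
      simp only [Matrix.vecMul, dotProduct, Pi.zero_apply]
      have h1 : ∑ x : {m // m ∈ stdF T (j + 1)}, w x * A x m =
          ∑ m' ∈ Finset.Iic M, (C (F m') * monomial (M - m') (1 : K)) *
            downA (fun i => (X i : MvPolynomial (Fin n) K)) (fun u => C (coeff u (b m))) m' := by
        rw [Finset.sum_coe_sort (stdF T (j + 1)) (fun m' => (C (F m') * monomial (M - m') (1 : K)) *
            downA (fun i => (X i : MvPolynomial (Fin n) K)) (fun u => C (coeff u (b m))) m')]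
        refine Finset.sum_subset ?_ ?_
        · intro m' hm'
          rw [Finset.mem_Iic]
          exact hM m' hm'
        · intro m' _ hm'
          have : F m' = 0 := by
            by_contra hcon
            exact hm' (mem_stdF.mpr (hFs m' hcon))
          simp [this]
      rw [h1, transpose_surj M F _ hFM]
      refine Finset.sum_eq_zero fun u _ => ?_
      rw [hFu u]
      simp
  have hdet2 : eval a A.det = 1 := by
    rw [RingHom.map_det]
    have : (eval a).mapMatrix A = 1 := by
      ext m' m
      have e1 : (eval a).mapMatrix A m' m =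
          eval a (downA (fun i => (X i : MvPolynomial (Fin n) K))
            (fun u => C (coeff u (b m))) m'.1) := rfl
      rw [e1, downA_map, hb m m'.1 (mem_stdF.mp m'.2).1, Matrix.one_apply]
      by_cases hmm : m' = m
      · rw [if_pos hmm, if_pos (by rw [hmm])]
      · rw [if_neg hmm, if_neg (fun h' => hmm (Subtype.ext h'))]
    rw [this, Matrix.det_one]
  rw [hdet, map_zero] at hdet2
  exact zero_ne_one hdet2


/-- contraction by a general linear form -/
noncomputable def upA {R : Type*} [CommRing R] (a : Fin n → R) (F : (Fin n →₀ ℕ) → R)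
    (u : Fin n →₀ ℕ) : R :=
  ∑ i, a i * F (u + Finsupp.single i 1)

theorem transpose_inj (M : Fin n →₀ ℕ) (G c : (Fin n →₀ ℕ) → K) (hc : ∀ m, c m ≠ 0 → m ≤ M) :
    ∑ v ∈ Finset.Iic M, (C (G v) * monomial v (1 : K)) *
      upA (fun i => (X i : MvPolynomial (Fin n) K)) (fun u => C (c u)) v =
    ∑ m ∈ Finset.Iic M, monomial m (1 : K) * C (c m) * C (down univ G m) := by
  unfold down upA
  simp only [Finset.mul_sum, map_sum]
  rw [Finset.sum_comm]
  conv_rhs => rw [Finset.sum_comm]
  refine Finset.sum_congr rfl fun i _ => ?_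
  have h1 : ∑ m ∈ Finset.Iic M, monomial m (1 : K) * C (c m) *
      C (if m i = 0 then 0 else G (m - Finsupp.single i 1)) =
      ∑ m ∈ (Finset.Iic M).filter (fun m => m i ≠ 0), monomial m (1 : K) * C (c m) *
        C (G (m - Finsupp.single i 1)) := by
    rw [Finset.sum_filter]
    refine Finset.sum_congr rfl fun m _ => ?_
    by_cases h : m i = 0
    · simp [h]
    · simp [h]
  have h2 : ∑ u ∈ Finset.Iic M, C (G u) * monomial u (1 : K) *
        (X i * C (c (u + Finsupp.single i 1))) =
      ∑ u ∈ (Finset.Iic M).filter (fun u => u + Finsupp.single i 1 ≤ M),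
        C (G u) * monomial u (1 : K) * (X i * C (c (u + Finsupp.single i 1))) := by
    rw [Finset.sum_filter]
    refine Finset.sum_congr rfl fun u _ => ?_
    split_ifs with h
    · rfl
    · have : c (u + Finsupp.single i 1) = 0 := by
        by_contra hcon
        exact h (hc _ hcon)
      simp [this]
  rw [h1, h2]
  refine (Finset.sum_nbij' (fun m => m - Finsupp.single i 1) (fun u => u + Finsupp.single i 1)
    ?_ ?_ ?_ ?_ ?_).symm
  · intro m hm
    simp only [Finset.mem_filter, Finset.mem_Iic] at hm ⊢
    have h3 : m - Finsupp.single i 1 + Finsupp.single i 1 = m := by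
      apply tsub_add_cancel_of_le
      rw [Finsupp.single_le_iff]
      omega
    rw [h3]
    exact ⟨tsub_le_self.trans hm.1, hm.1⟩
  · intro u hu
    simp only [Finset.mem_filter, Finset.mem_Iic] at hu ⊢
    exact ⟨hu.2, by simp⟩
  · intro m hm
    simp only [Finset.mem_filter, Finset.mem_Iic] at hm
    apply tsub_add_cancel_of_le
    rw [Finsupp.single_le_iff]
    omega
  · intro u _
    simp
  · intro m hm
    simp only [Finset.mem_filter, Finset.mem_Iic] at hm
    have h3 : m - Finsupp.single i 1 + Finsupp.single i 1 = m := by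
      apply tsub_add_cancel_of_le
      rw [Finsupp.single_le_iff]
      omega
    rw [h3]
    have h4 : monomial m (1 : K) = monomial (m - Finsupp.single i 1) (1 : K) * X i := by
      rw [X, monomial_mul, one_mul, h3]
    rw [h4]
    ring

theorem upA_map (a : Fin n → K) (g : (Fin n →₀ ℕ) → K) (m : Fin n →₀ ℕ) :
    eval a (upA (fun i => (X i : MvPolynomial (Fin n) K)) (fun u => C (g u)) m) =
      upA a g m := by
  unfold upA
  simp

theorem not_injOn {I : Ideal (MvPolynomial (Fin n) K)} {e : ℕ}
    {T : Finset (Fin n →₀ ℕ)} (h : LevelData I e T) (j : ℕ) (G : (Fin n →₀ ℕ) → K)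
    (hG0 : ∃ m, G m ≠ 0) (hGs : ∀ m, G m ≠ 0 → Std T m ∧ deg m = j)
    (hGd : ∀ m, Std T m → down univ G m = 0) (L : MvPolynomial (Fin n) K)
    (hL : L ∈ homogeneousSubmodule (Fin n) K 1) :
    ¬ Set.InjOn (fun a => Ideal.Quotient.mk I L * a) (component I j) := by
  classical
  intro hinj
  set a : Fin n → K := fun i => coeff (Finsupp.single i 1) L with ha
  let V := {m // m ∈ stdF T j}
  let V' := {m // m ∈ stdF T (j + 1)}
  let ext : (V → K) → (Fin n →₀ ℕ) → K := fun f m => if hm : m ∈ stdF T j then f ⟨m, hm⟩ else 0
  let D : (V → K) →ₗ[K] (V' → K) :=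
    { toFun := fun f m => downA a (ext f) m.1
      map_add' := by
        intro f g
        funext m
        simp only [Pi.add_apply]
        unfold downA
        rw [← Finset.sum_add_distrib]
        refine Finset.sum_congr rfl fun i _ => ?_
        by_cases h0 : m.1 i = 0
        · simp [h0]
        · simp only [h0, if_false, ext]
          split_ifs with h1
          · simp [mul_add]
          · simp
      map_smul' := by
        intro c f
        funext m
        simp only [Pi.smul_apply, RingHom.id_apply, smul_eq_mul]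
        unfold downA
        rw [Finset.mul_sum]
        refine Finset.sum_congr rfl fun i _ => ?_
        by_cases h0 : m.1 i = 0
        · simp [h0]
        · simp only [h0, if_false, ext]
          split_ifs with h1
          · simp; ring
          · simp }
  have hD : LinearMap.ker D = ⊥ := by
    rw [LinearMap.ker_eq_bot']
    intro f hf
    let p : MvPolynomial (Fin n) K := ∑ m : V, monomial m.1 (f m)
    have hp : ∀ u, coeff u p = ext f u := by
      intro u
      simp only [p, ext]
      rw [coeff_sum]
      simp only [coeff_monomial]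
      split_ifs with hu
      · rw [Finset.sum_eq_single ⟨u, hu⟩]
        · simp
        · intro b _ hb
          rw [if_neg]
          intro h'
          exact hb (Subtype.ext h')
        · simp
      · refine Finset.sum_eq_zero fun b _ => ?_
        rw [if_neg]
        intro h'
        exact hu (h' ▸ b.2)
    have hpj : p ∈ homogeneousSubmodule (Fin n) K j := by
      rw [mem_homog]
      intro m hm
      rw [hp] at hm
      simp only [ext] at hm
      split_ifs at hm with hm'
      · exact (mem_stdF.mp hm').2
      · exact absurd rfl hm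
    have h1 : Ideal.Quotient.mk I p = Ideal.Quotient.mk I 0 := by
      apply hinj
      · exact mem_component.mpr ⟨p, hpj, rfl⟩
      · exact mem_component.mpr ⟨0, Submodule.zero_mem _, rfl⟩
      · simp only [← map_mul]
        rw [h.mk_eq_iff]
        intro m hm
        rw [mul_zero, coeff_zero, coeff_linear_mul hL]
        have h2 : downA a (fun u => coeff u p) m = downA a (ext f) m := by
          congr 1
          funext u
          exact hp u
        rw [← ha, h2]
        by_cases hmj : deg m = j + 1
        · exact congrFun hf ⟨m, mem_stdF.mpr ⟨hm, hmj⟩⟩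
        · unfold downA
          refine Finset.sum_eq_zero fun i _ => ?_
          by_cases h0 : m i = 0
          · simp [h0]
          · have h3 := deg_sub_single h0
            have h4 : ¬ (m - Finsupp.single i 1) ∈ stdF T j := by
              rw [mem_stdF]
              rintro ⟨_, h5⟩
              omega
            simp [h0, ext, h4]
    funext m
    rw [h.mk_eq_iff] at h1
    have h2 := h1 m.1 (mem_stdF.mp m.2).1
    rw [hp, coeff_zero] at h2
    simpa [ext] using h2
  obtain ⟨g, hg⟩ := D.exists_leftInverse_of_injective hD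
  let c : V → (Fin n →₀ ℕ) → K := fun u m =>
    if hm : m ∈ stdF T (j + 1) then g (Pi.single ⟨m, hm⟩ 1) u else 0
  have hc : ∀ u v : V, upA a (c u) v.1 = if u = v then 1 else 0 := by
    intro u v
    have h1 : D (Pi.single v 1) = ∑ i, if hm : v.1 + Finsupp.single i 1 ∈ stdF T (j + 1) then
        a i • (Pi.single (⟨v.1 + Finsupp.single i 1, hm⟩ : V') (1 : K) : V' → K) else 0 := by
      funext m
      rw [Finset.sum_apply]
      change downA a (ext (Pi.single v 1)) m.1 = _
      unfold downA
      refine Finset.sum_congr rfl fun i _ => ?_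
      by_cases hmi : v.1 + Finsupp.single i 1 = m.1
      · have h2 : v.1 + Finsupp.single i 1 ∈ stdF T (j + 1) := hmi ▸ m.2
        have h3 : m.1 i ≠ 0 := by rw [← hmi]; simp
        have h4 : m.1 - Finsupp.single i 1 = v.1 := by rw [← hmi]; simp
        have h5 : (⟨v.1 + Finsupp.single i 1, h2⟩ : V') = m := Subtype.ext hmi
        simp only [h3, if_false, h4, h2, dif_pos, Pi.smul_apply, h5, Pi.single_eq_same, ext, v.2]
        simp
      · have h6 : (if hm : v.1 + Finsupp.single i 1 ∈ stdF T (j + 1) then
            a i • (Pi.single (⟨v.1 + Finsupp.single i 1, hm⟩ : V') (1 : K) : V' → K) else 0) m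
            = 0 := by
          split_ifs with h7
          · have h8 : m ≠ ⟨v.1 + Finsupp.single i 1, h7⟩ := by
              intro h9
              exact hmi (by rw [h9])
            simp [Pi.single_eq_of_ne h8]
          · rfl
        rw [h6]
        by_cases h0 : m.1 i = 0
        · simp [h0]
        · have h9 : m.1 - Finsupp.single i 1 + Finsupp.single i 1 = m.1 := by
            apply tsub_add_cancel_of_le
            rw [Finsupp.single_le_iff]
            omega
          simp only [h0, if_false, ext]
          split_ifs with h10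
          · have h11 : (⟨m.1 - Finsupp.single i 1, h10⟩ : V) ≠ v := by
              intro h12
              apply hmi
              rw [← h12]
              exact h9
            rw [Pi.single_eq_of_ne h11, mul_zero]
          · rw [mul_zero]
    have h2 : g (D (Pi.single v 1)) u = if u = v then 1 else 0 := by
      have h3 := congrFun (LinearMap.congr_fun hg (Pi.single v 1)) u
      rw [LinearMap.comp_apply] at h3
      rw [h3]
      simp [Pi.single_apply]
    rw [← h2, h1, map_sum, Finset.sum_apply]
    unfold upA
    refine Finset.sum_congr rfl fun i _ => ?_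
    by_cases h7 : v.1 + Finsupp.single i 1 ∈ stdF T (j + 1)
    · simp only [h7, dif_pos, map_smul, Pi.smul_apply, smul_eq_mul, c]
    · simp only [h7, dif_neg, c, not_false_eq_true, mul_zero, map_zero, Pi.zero_apply]
  obtain ⟨M, hM⟩ : ∃ M : Fin n →₀ ℕ, (∀ m ∈ stdF T (j + 1), m ≤ M) ∧ ∀ m ∈ stdF T j, m ≤ M :=
    ⟨∑ m ∈ stdF T (j + 1), m + ∑ m ∈ stdF T j, m, fun m hm =>
      (Finset.single_le_sum (f := fun m => m) (fun _ _ => zero_le) hm).trans
        (le_add_of_nonneg_right zero_le), fun m hm =>
      (Finset.single_le_sum (f := fun m => m) (fun _ _ => zero_le) hm).trans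
        (le_add_of_nonneg_left zero_le)⟩
  let A : Matrix V V (MvPolynomial (Fin n) K) :=
    fun u v => upA (fun i => X i) (fun m => C (c u m)) v.1
  let w : V → MvPolynomial (Fin n) K := fun v => C (G v.1) * monomial v.1 1
  have hdet : A.det = 0 := by
    rw [← Matrix.exists_mulVec_eq_zero_iff]
    refine ⟨w, ?_, ?_⟩
    · obtain ⟨m, hm⟩ := hG0
      intro hw
      have h1 := congrFun hw ⟨m, mem_stdF.mpr (hGs m hm)⟩
      simp only [w, Pi.zero_apply, C_mul_monomial, mul_one, monomial_eq_zero] at h1
      exact hm h1
    · funext u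
      simp only [Matrix.mulVec, dotProduct, Pi.zero_apply]
      have h1 : ∑ x : V, A u x * w x =
          ∑ v ∈ Finset.Iic M, (C (G v) * monomial v (1 : K)) *
            upA (fun i => (X i : MvPolynomial (Fin n) K)) (fun m => C (c u m)) v := by
        have h2 : ∑ x : V, A u x * w x = ∑ x : V, (C (G x.1) * monomial x.1 (1 : K)) *
            upA (fun i => (X i : MvPolynomial (Fin n) K)) (fun m => C (c u m)) x.1 := by
          refine Finset.sum_congr rfl fun x _ => ?_
          rw [mul_comm]
        rw [h2, Finset.sum_coe_sort (stdF T j) (fun v => (C (G v) * monomial v (1 : K)) *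
            upA (fun i => (X i : MvPolynomial (Fin n) K)) (fun m => C (c u m)) v)]
        refine Finset.sum_subset ?_ ?_
        · intro m' hm'
          rw [Finset.mem_Iic]
          exact hM.2 m' hm'
        · intro m' _ hm'
          have : G m' = 0 := by
            by_contra hcon
            exact hm' (mem_stdF.mpr (hGs m' hcon))
          simp [this]
      rw [h1, transpose_inj M G (c u) (by
        intro m hm
        apply hM.1
        by_contra hcon
        simp [c, hcon] at hm)]
      refine Finset.sum_eq_zero fun m _ => ?_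
      by_cases hm : Std T m
      · rw [hGd m hm]
        simp
      · have : c u m = 0 := by
          have : m ∉ stdF T (j + 1) := fun h' => hm (mem_stdF.mp h').1
          simp [c, this]
        rw [this]
        simp
  have hdet2 : eval a A.det = 1 := by
    rw [RingHom.map_det]
    have : (eval a).mapMatrix A = 1 := by
      ext u v
      have e1 : (eval a).mapMatrix A u v =
          eval a (upA (fun i => (X i : MvPolynomial (Fin n) K)) (fun m => C (c u m)) v.1) := rfl
      rw [e1, upA_map, hc u v, Matrix.one_apply]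
    rw [this, Matrix.det_one]
  rw [hdet, map_zero] at hdet2
  exact zero_ne_one hdet2

theorem not_hasWLP {I : Ideal (MvPolynomial (Fin n) K)} {e : ℕ}
    {T : Finset (Fin n →₀ ℕ)} (h : LevelData I e T) (j : ℕ) (G F : (Fin n →₀ ℕ) → K)
    (hG0 : ∃ m, G m ≠ 0) (hGs : ∀ m, G m ≠ 0 → Std T m ∧ deg m = j)
    (hGd : ∀ m, Std T m → down univ G m = 0)
    (hF0 : ∃ m, F m ≠ 0) (hFs : ∀ m, F m ≠ 0 → Std T m ∧ deg m = j + 1)
    (hFu : ∀ u, up univ F u = 0) : ¬ HasWLP I := by
  rintro ⟨L, hL, hLj⟩
  rcases hLj j with h1 | h1
  · exact not_injOn h j G hG0 hGs hGd L hL h1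
  · exact not_surjOn h j F hF0 hFs hFu L hL h1

end Pool.Agent.MP_a773c0_ag
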