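import Pool.Agent.Lib.MP_a773c0_ag.Examples
import Pool.Agent.Lib.MP_a773c0_ag.NotWLP
import Pool.Agent.Lib.MP_a773c0_ag.Level

/-!
Constructing failing sets of exponents of every admissible size.
-/

namespace Pool.Agent.MP_a773c0_ag

open MvPolynomial Finset

set_option linter.unusedSimpArgs false
set_option linter.unusedSectionVars false

variable {K : Type*} [Field K] {n : ℕ}

/-- the exponents of degree `e` -/
noncomputable def Mon (n e : ℕ) : Finset (Fin n →₀ ℕ) := Finset.finsuppAntidiag univ e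

theorem mem_Mon {e : ℕ} {m : Fin n →₀ ℕ} : m ∈ Mon n e ↔ deg m = e := by
  unfold Mon deg
  rw [Finset.mem_finsuppAntidiag]
  simp

theorem card_Mon (n e : ℕ) : (Mon n e).card = (n + e - 1).choose e := by
  unfold Mon
  rw [Finset.card_finsuppAntidiag_nat_eq_choose]
  simp

/-- the forbidden exponents -/
noncomputable def Forb (a b : Fin n) (w : Fin n →₀ ℕ) : Finset (Fin n →₀ ℕ) := by
  classical
  exact ((univ.erase b).image fun j => Finsupp.single a 1 + Finsupp.single j 1 + w) ∪
    ((univ.erase a).image fun j => Finsupp.single b 1 + Finsupp.single j 1 + w)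

theorem card_Forb_le (a b : Fin n) (w : Fin n →₀ ℕ) (hn : 1 ≤ n) :
    (Forb a b w).card + 2 ≤ 2 * n := by
  classical
  unfold Forb
  have h1 := Finset.card_union_le
    ((univ.erase b).image fun j => Finsupp.single a 1 + Finsupp.single j 1 + w)
    ((univ.erase a).image fun j => Finsupp.single b 1 + Finsupp.single j 1 + w)
  have h2 := Finset.card_image_le (s := (univ : Finset (Fin n)).erase b)
    (f := fun j => Finsupp.single a 1 + Finsupp.single j 1 + w)
  have h3 := Finset.card_image_le (s := (univ : Finset (Fin n)).erase a)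
    (f := fun j => Finsupp.single b 1 + Finsupp.single j 1 + w)
  rw [Finset.card_erase_of_mem (Finset.mem_univ _), Finset.card_univ, Fintype.card_fin] at h2 h3
  omega

theorem mem_Forb {a b : Fin n} {w m : Fin n →₀ ℕ} : m ∈ Forb a b w ↔
    (∃ j, j ≠ b ∧ Finsupp.single a 1 + Finsupp.single j 1 + w = m) ∨
    (∃ j, j ≠ a ∧ Finsupp.single b 1 + Finsupp.single j 1 + w = m) := by
  classical
  unfold Forb
  simp

/-- the binary monomials together with the special one -/
noncomputable def Base (a b c d : Fin n) (w : Fin n →₀ ℕ) (e : ℕ) : Finset (Fin n →₀ ℕ) := by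
  classical
  exact insert (Finsupp.single a 1 + Finsupp.single b 1 + w)
    ((Finset.range (e + 1)).image fun i => Finsupp.single c i + Finsupp.single d (e - i))

theorem card_Base_le (a b c d : Fin n) (w : Fin n →₀ ℕ) (e : ℕ) :
    (Base a b c d w e).card ≤ e + 2 := by
  classical
  unfold Base
  refine (Finset.card_insert_le _ _).trans ?_
  have := Finset.card_image_le (s := Finset.range (e + 1))
    (f := fun i => (Finsupp.single c i + Finsupp.single d (e - i) : Fin n →₀ ℕ))
  rw [Finset.card_range] at this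
  omega

theorem exists_T {e : ℕ} {a b c d : Fin n} (hab : a ≠ b) (hcd : c ≠ d) {w : Fin n →₀ ℕ}
    (hw : deg w + 1 = e)
    (hD : ∀ i ≤ e + 1, Finsupp.single c i + Finsupp.single d (e + 1 - i) ∉ Forb a b w)
    (E : Finset (Fin n →₀ ℕ)) (hE : ∀ m ∈ E, deg m = e + 1 ∧ m ∉ Forb a b w) {t : ℕ}
    (h1 : E.card + e + 3 ≤ t) (h2 : t + 2 * n ≤ (n + e).choose (e + 1) + 2) (hn : 1 ≤ n) :
    ∃ T : Finset (Fin n →₀ ℕ), (∀ τ ∈ T, deg τ = e + 1) ∧ T.card = t ∧ FailsAt K T e ∧ E ⊆ T := by
  classical
  have hpForb : Finsupp.single a 1 + Finsupp.single b 1 + w ∉ Forb a b w := by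
    rw [mem_Forb]
    rintro (⟨j, hj, h⟩ | ⟨j, hj, h⟩)
    · exact hj (Finsupp.single_left_injective one_ne_zero (add_left_cancel (add_right_cancel h)))
    · rw [add_comm (Finsupp.single a 1) (Finsupp.single b 1)] at h
      exact hj (Finsupp.single_left_injective one_ne_zero (add_left_cancel (add_right_cancel h)))
  have hsub : Base a b c d w (e + 1) ∪ E ⊆ Mon n (e + 1) \ Forb a b w := by
    intro m hm
    rw [Finset.mem_sdiff, mem_Mon]
    rw [Finset.mem_union] at hm
    rcases hm with hm | hm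
    · unfold Base at hm
      rw [Finset.mem_insert] at hm
      rcases hm with rfl | hm
      · exact ⟨by rw [deg_add, deg_add, deg_single, deg_single]; omega, hpForb⟩
      · rw [Finset.mem_image] at hm
        obtain ⟨i, hi, rfl⟩ := hm
        rw [Finset.mem_range] at hi
        exact ⟨by rw [deg_add, deg_single, deg_single]; omega, hD i (by omega)⟩
    · exact hE m hm
  have hcard1 : (Base a b c d w (e + 1) ∪ E).card ≤ t := by
    have q1 := Finset.card_union_le (Base a b c d w (e + 1)) E
    have q2 := card_Base_le a b c d w (e + 1)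
    omega
  have hcard2 : t ≤ (Mon n (e + 1) \ Forb a b w).card := by
    have q1 := Finset.le_card_sdiff (Forb a b w) (Mon n (e + 1))
    have q2 := card_Forb_le a b w hn
    rw [card_Mon] at q1
    have q3 : n + (e + 1) - 1 = n + e := by omega
    rw [q3] at q1
    omega
  obtain ⟨T, hBT, hTM, hTc⟩ := Finset.exists_subsuperset_card_eq hsub hcard1 hcard2
  have hT : ∀ τ ∈ T, deg τ = e + 1 := by
    intro τ hτ
    have := hTM hτ
    rw [Finset.mem_sdiff, mem_Mon] at this
    exact this.1
  refine ⟨T, hT, hTc, ?_, fun m hm => hBT (Finset.mem_union_right _ hm)⟩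
  refine failsAt_general hab hcd hw hT ?_ ?_ ?_ ?_
  · intro i hi
    apply hBT
    apply Finset.mem_union_left
    unfold Base
    apply Finset.mem_insert_of_mem
    rw [Finset.mem_image]
    exact ⟨i, Finset.mem_range.mpr (by omega), rfl⟩
  · apply hBT
    apply Finset.mem_union_left
    unfold Base
    exact Finset.mem_insert_self _ _
  · intro j hj h
    have := hTM h
    rw [Finset.mem_sdiff] at this
    exact this.2 (mem_Forb.mpr (Or.inl ⟨j, hj, rfl⟩))
  · intro j hj h
    have := hTM h
    rw [Finset.mem_sdiff] at this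
    exact this.2 (mem_Forb.mpr (Or.inr ⟨j, hj, rfl⟩))

/-- socle degree at least three, three variables or more -/
theorem exists_T_ge_three (hn : 3 ≤ n) {e t : ℕ} (he : 3 ≤ e) (h1 : e + 2 ≤ t)
    (h2 : t + 2 * n ≤ (n + e - 1).choose e + 2) :
    ∃ T : Finset (Fin n →₀ ℕ), (∀ τ ∈ T, deg τ = e) ∧ T.card = t ∧ FailsAt K T (e - 1) := by
  classical
  obtain ⟨e', rfl⟩ : ∃ e', e = e' + 1 := ⟨e - 1, by omega⟩
  let i0 : Fin n := ⟨0, by omega⟩
  let i1 : Fin n := ⟨1, by omega⟩
  let i2 : Fin n := ⟨2, by omega⟩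
  have h01 : i0 ≠ i1 := by simp [i0, i1]
  have h02 : i0 ≠ i2 := by simp [i0, i2]
  have h12 : i1 ≠ i2 := by simp [i1, i2]
  have h3 : n + (e' + 1) - 1 = n + e' := by omega
  rw [h3] at h2
  obtain ⟨T, hT, hTc, hTf, _⟩ := exists_T (K := K) (e := e') (a := i0) (b := i1) (c := i0)
    (d := i1) (w := Finsupp.single i2 (e' - 1)) h01 h01 (by rw [deg_single]; omega) (by
      intro i hi hmem
      rw [mem_Forb] at hmem
      rcases hmem with ⟨j, _, h⟩ | ⟨j, _, h⟩
      · have := DFunLike.congr_fun h i2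
        simp [Finsupp.single_apply, h02, h12] at this
        omega
      · have := DFunLike.congr_fun h i2
        simp [Finsupp.single_apply, h02, h12] at this
        omega) ∅ (by simp) (t := t) (by simp; omega) h2 (by omega)
  exact ⟨T, hT, hTc, hTf⟩

/-- socle degree two, four variables or more -/
theorem exists_T_two (hn : 4 ≤ n) {t : ℕ} (h1 : 4 ≤ t)
    (h2 : t + 2 * n ≤ (n + 2 - 1).choose 2 + 2) :
    ∃ T : Finset (Fin n →₀ ℕ), (∀ τ ∈ T, deg τ = 2) ∧ T.card = t ∧ FailsAt K T 1 := by
  classical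
  let i0 : Fin n := ⟨0, by omega⟩
  let i1 : Fin n := ⟨1, by omega⟩
  let i2 : Fin n := ⟨2, by omega⟩
  let i3 : Fin n := ⟨3, by omega⟩
  have h01 : i0 ≠ i1 := by simp [i0, i1]
  have h02 : i0 ≠ i2 := by simp [i0, i2]
  have h12 : i1 ≠ i2 := by simp [i1, i2]
  have h03 : i0 ≠ i3 := by simp [i0, i3]
  have h13 : i1 ≠ i3 := by simp [i1, i3]
  have h23 : i2 ≠ i3 := by simp [i2, i3]
  obtain ⟨T, hT, hTc, hTf, _⟩ := exists_T (K := K) (e := 1) (a := i0) (b := i1) (c := i2)
    (d := i3) (w := 0) h01 h23 (by simp [deg]) (by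
      intro i hi hmem
      rw [mem_Forb] at hmem
      rcases hmem with ⟨j, _, h⟩ | ⟨j, _, h⟩
      · have := DFunLike.congr_fun h i0
        simp [Finsupp.single_apply, h02.symm, h03.symm] at this
      · have := DFunLike.congr_fun h i1
        simp [Finsupp.single_apply, h12.symm, h13.symm] at this) ∅ (by simp) (t := t)
        (by simp; omega) h2 (by omega)
  exact ⟨T, hT, hTc, hTf⟩

/-- a failing set of exponents gives a failing algebra -/
theorem exists_ideal {T : Finset (Fin n →₀ ℕ)} {e j : ℕ} (hT : ∀ τ ∈ T, deg τ = e)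
    (hf : FailsAt K T j) : ∃ I : Ideal (MvPolynomial (Fin n) K), IsMonomialIdeal I ∧
      IsArtinianRing (MvPolynomial (Fin n) K ⧸ I) ∧ IsLevel I (n + e) T.card ∧ ¬ HasWLP I := by
  obtain ⟨G, F, hG0, hGs, hGd, hF0, hFs, hFu⟩ := hf
  have h := levelData_idealOf (K := K) hT
  exact ⟨idealOf K T, ⟨_, rfl⟩, artinian_idealOf hT, isLevel_of_levelData h,
    not_hasWLP h j G F hG0 hGs hGd hF0 hFs hFu⟩

end Pool.Agent.MP_a773c0_ag
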