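import Mathlib

/-!
Monomial level algebras and the weak Lefschetz property: definitions.
Throughout `R = K[x_1, …, x_n]` is `MvPolynomial (Fin n) K`, with the standard grading.
-/

namespace Pool.Agent.MP_a773c0_ag

open MvPolynomial

variable {K : Type*} [Field K] {n : ℕ}

/-- `I` is a monomial ideal: it is generated by a set of monomials. -/
def IsMonomialIdeal (I : Ideal (MvPolynomial (Fin n) K)) : Prop :=
  ∃ S : Set (Fin n →₀ ℕ), I = Ideal.span ((fun m => monomial m (1 : K)) '' S)

/-- The homogeneous component `A_i` of `A = R/I`: the classes of the forms of degree `i`. -/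
noncomputable def component (I : Ideal (MvPolynomial (Fin n) K)) (i : ℕ) :
    Submodule K (MvPolynomial (Fin n) K ⧸ I) :=
  (homogeneousSubmodule (Fin n) K i).map (Ideal.Quotient.mkₐ K I).toLinearMap

/-- The weak Lefschetz property of `A = R/I`: for some linear form `L`, every multiplication map
`L : A_i → A_{i+1}` is injective or surjective. -/
def HasWLP (I : Ideal (MvPolynomial (Fin n) K)) : Prop :=
  ∃ L ∈ homogeneousSubmodule (Fin n) K 1, ∀ i : ℕ,
    Set.InjOn (fun a => Ideal.Quotient.mk I L * a) (component I i) ∨
    Set.SurjOn (fun a => Ideal.Quotient.mk I L * a) (component I i) (component I (i + 1))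

/-- The socle of `A = R/I`: the elements annihilated by all the variables. -/
noncomputable def socle (I : Ideal (MvPolynomial (Fin n) K)) : Submodule K (MvPolynomial (Fin n) K ⧸ I) where
  carrier := {a | ∀ i : Fin n, Ideal.Quotient.mk I (X i) * a = 0}
  add_mem' := by
    intro a b ha hb i
    rw [mul_add, ha i, hb i, add_zero]
  zero_mem' := fun i => mul_zero _
  smul_mem' := by
    intro c a ha i
    rw [mul_smul_comm, ha i, smul_zero]

/-- `A = R/I` is level of type `t` with last syzygy module generated in degree `d`, i.e.
`F_n ≅ R(-d)^t`; equivalently, the socle of `A` lies in degree `d - n` and has dimension `t`. -/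
def IsLevel (I : Ideal (MvPolynomial (Fin n) K)) (d t : ℕ) : Prop :=
  ∃ e : ℕ, d = e + n ∧ socle I ≤ component I e ∧ Module.finrank K (socle I) = t

end Pool.Agent.MP_a773c0_ag
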