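import Pool.Agent.Lib.MP_a773c0_ag.Bridge

/-!
Sets of exponents whose level algebras fail the weak Lefschetz property.
-/

namespace Pool.Agent.MP_a773c0_ag

open MvPolynomial Finset

set_option linter.unusedSimpArgs false
set_option linter.unusedSectionVars false

variable {K : Type*} [Field K] {n : ℕ}

/-- kernel and cokernel data in degree `j` for the sum of the variables -/
def FailsAt (K : Type*) [Field K] (T : Finset (Fin n →₀ ℕ)) (j : ℕ) : Prop :=
  ∃ G F : (Fin n →₀ ℕ) → K,
    (∃ m, G m ≠ 0) ∧ (∀ m, G m ≠ 0 → Std T m ∧ deg m = j) ∧ (∀ m, Std T m → down univ G m = 0) ∧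
    (∃ m, F m ≠ 0) ∧ (∀ m, F m ≠ 0 → Std T m ∧ deg m = j + 1) ∧ (∀ u, up univ F u = 0)

theorem deg_ge_two {c d : Fin n} (hcd : c ≠ d) (u : Fin n →₀ ℕ) : u c + u d ≤ deg u := by
  have h1 : ∑ i ∈ ({c, d} : Finset (Fin n)), u i ≤ ∑ i, u i :=
    Finset.sum_le_sum_of_subset (Finset.subset_univ _)
  rwa [Finset.sum_pair hcd] at h1

theorem eq_pair {c d : Fin n} (hcd : c ≠ d) (u : Fin n →₀ ℕ) (h : deg u ≤ u c + u d) :
    Finsupp.single c (u c) + Finsupp.single d (u d) = u := by
  apply eq_of_le_of_deg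
  · intro i
    rcases eq_or_ne i c with rfl | hic
    · simp [Finsupp.single_apply, hcd.symm]
    · rcases eq_or_ne i d with rfl | hid
      · simp [Finsupp.single_apply, hcd]
      · simp [Finsupp.single_apply, hic.symm, hid.symm]
  · rw [deg_add, deg_single, deg_single]
    exact h

/-- the alternating sum of all monomials of degree `e` in two variables -/
theorem up_alternating {c d : Fin n} (hcd : c ≠ d) (e : ℕ) (u : Fin n →₀ ℕ) :
    up univ (fun m : Fin n →₀ ℕ => if m c + m d = e ∧ deg m = e then (-1 : K) ^ (m c) else 0) u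
      = 0 := by
  unfold up
  rw [← Finset.add_sum_erase _ _ (Finset.mem_univ c),
    ← Finset.add_sum_erase _ _ (Finset.mem_erase.mpr ⟨hcd.symm, Finset.mem_univ d⟩)]
  have h0 : ∑ i ∈ ((univ : Finset (Fin n)).erase c).erase d,
      (fun m : Fin n →₀ ℕ => if m c + m d = e ∧ deg m = e then (-1 : K) ^ (m c) else 0)
        (u + Finsupp.single i 1) = 0 := by
    refine Finset.sum_eq_zero fun i hi => ?_
    have hid : i ≠ d := (Finset.mem_erase.mp hi).1
    have hic : i ≠ c := (Finset.mem_erase.mp (Finset.mem_erase.mp hi).2).1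
    have h1 := deg_ge_two hcd u
    have h2 : ¬ ((u + Finsupp.single i 1 : Fin n →₀ ℕ) c + (u + Finsupp.single i 1 : Fin n →₀ ℕ) d
        = e ∧ deg (u + Finsupp.single i 1) = e) := by
      rw [deg_add, deg_single]
      simp [Finsupp.single_apply, hid, hic]
      intro h3
      omega
    beta_reduce
    rw [if_neg h2]
  rw [h0, add_zero]
  have e1 : (u + Finsupp.single c 1 : Fin n →₀ ℕ) c = u c + 1 := by simp
  have e2 : (u + Finsupp.single c 1 : Fin n →₀ ℕ) d = u d := by
    simp [Finsupp.single_apply, hcd]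
  have e3 : (u + Finsupp.single d 1 : Fin n →₀ ℕ) c = u c := by
    simp [Finsupp.single_apply, hcd.symm]
  have e4 : (u + Finsupp.single d 1 : Fin n →₀ ℕ) d = u d + 1 := by simp
  simp only [e1, e2, e3, e4, deg_add, deg_single]
  by_cases h : u c + u d + 1 = e ∧ deg u + 1 = e
  · rw [if_pos (by omega), if_pos (by omega), pow_succ]
    ring
  · rw [if_neg (by omega), if_neg (by omega)]
    ring

theorem failsAt_general {e : ℕ} {a b c d : Fin n} (hab : a ≠ b) (hcd : c ≠ d) {w : Fin n →₀ ℕ}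
    (hw : deg w + 1 = e) {T : Finset (Fin n →₀ ℕ)} (hT : ∀ τ ∈ T, deg τ = e + 1)
    (hD : ∀ i ≤ e + 1, Finsupp.single c i + Finsupp.single d (e + 1 - i) ∈ T)
    (hp : Finsupp.single a 1 + Finsupp.single b 1 + w ∈ T)
    (hS : ∀ j, j ≠ b → Finsupp.single a 1 + Finsupp.single j 1 + w ∉ T)
    (hS' : ∀ j, j ≠ a → Finsupp.single b 1 + Finsupp.single j 1 + w ∉ T) : FailsAt K T e := by
  classical
  have hne : Finsupp.single a 1 + w ≠ Finsupp.single b 1 + w := by
    intro h
    exact hab (Finsupp.single_left_injective one_ne_zero (add_right_cancel h))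
  have hdega : deg (Finsupp.single a 1 + w) = e := by
    rw [deg_add, deg_single]; omega
  have hdegb : deg (Finsupp.single b 1 + w) = e := by
    rw [deg_add, deg_single]; omega
  refine ⟨fun m => if m = Finsupp.single a 1 + w then 1 else
      if m = Finsupp.single b 1 + w then -1 else 0,
    fun m => if m c + m d = e + 1 ∧ deg m = e + 1 then (-1 : K) ^ (m c) else 0,
    ⟨Finsupp.single a 1 + w, by simp⟩, ?_, ?_, ?_, ?_, up_alternating hcd (e + 1)⟩
  · intro m hm
    by_cases h1 : m = Finsupp.single a 1 + w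
    · subst h1
      refine ⟨⟨_, hp, ?_⟩, hdega⟩
      rw [add_assoc, add_left_comm]
      exact le_add_of_nonneg_left zero_le
    · by_cases h2 : m = Finsupp.single b 1 + w
      · subst h2
        refine ⟨⟨_, hp, ?_⟩, hdegb⟩
        rw [add_assoc]
        exact le_add_of_nonneg_left zero_le
      · simp [h1, h2] at hm
  · intro m hm
    by_contra hcon
    have h1 := hcon
    unfold down at h1
    obtain ⟨i, _, hi⟩ := Finset.exists_ne_zero_of_sum_ne_zero h1
    have hi0 : m i ≠ 0 := by
      intro h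
      simp [h] at hi
    rw [if_neg hi0] at hi
    have hmi : m - Finsupp.single i 1 + Finsupp.single i 1 = m := by
      apply tsub_add_cancel_of_le
      rw [Finsupp.single_le_iff]
      omega
    have hdeg : deg m = e + 1 := by
      have h2 := deg_sub_single hi0
      by_cases h3 : m - Finsupp.single i 1 = Finsupp.single a 1 + w
      · rw [h3, hdega] at h2; omega
      · by_cases h4 : m - Finsupp.single i 1 = Finsupp.single b 1 + w
        · rw [h4, hdegb] at h2; omega
        · simp [h3, h4] at hi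
    have hmT : m ∈ T := by
      obtain ⟨τ, hτ, hle⟩ := hm
      have := eq_of_le_of_deg hle (by rw [hT τ hτ, hdeg])
      exact this ▸ hτ
    have hmp : m = Finsupp.single a 1 + Finsupp.single b 1 + w := by
      by_cases h3 : m - Finsupp.single i 1 = Finsupp.single a 1 + w
      · have h5 : m = Finsupp.single a 1 + Finsupp.single i 1 + w := by
          rw [← hmi, h3]
          abel
        by_cases hib : i = b
        · rw [h5, hib]
        · exact absurd (h5 ▸ hmT) (hS i hib)
      · by_cases h4 : m - Finsupp.single i 1 = Finsupp.single b 1 + w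
        · have h5 : m = Finsupp.single b 1 + Finsupp.single i 1 + w := by
            rw [← hmi, h4]
            abel
          by_cases hia : i = a
          · rw [h5, hia]
            abel
          · exact absurd (h5 ▸ hmT) (hS' i hia)
        · simp [h3, h4] at hi
    apply hcon
    unfold down
    rw [← Finset.add_sum_erase _ _ (Finset.mem_univ a),
      ← Finset.add_sum_erase _ _ (Finset.mem_erase.mpr ⟨hab.symm, Finset.mem_univ b⟩)]
    have hma : m a ≠ 0 := by rw [hmp]; simp
    have hmb : m b ≠ 0 := by rw [hmp]; simp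
    have e1 : m - Finsupp.single a 1 = Finsupp.single b 1 + w := by
      rw [hmp, add_assoc, add_tsub_cancel_left]
    have e2 : m - Finsupp.single b 1 = Finsupp.single a 1 + w := by
      rw [hmp, add_right_comm, add_tsub_cancel_right]
    have e3 : ∑ i ∈ ((univ : Finset (Fin n)).erase a).erase b,
        (if m i = 0 then 0 else (if m - Finsupp.single i 1 = Finsupp.single a 1 + w then (1 : K) else
      if m - Finsupp.single i 1 = Finsupp.single b 1 + w then -1 else 0)) = 0 := by
      refine Finset.sum_eq_zero fun k hk => ?_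
      have hkb : k ≠ b := (Finset.mem_erase.mp hk).1
      have hka : k ≠ a := (Finset.mem_erase.mp (Finset.mem_erase.mp hk).2).1
      split_ifs with h1 h2 h3
      · rfl
      · exfalso
        have := DFunLike.congr_fun h2 b
        rw [hmp] at this
        simp [Finsupp.single_apply, hkb, hab] at this
      · exfalso
        have := DFunLike.congr_fun h3 a
        rw [hmp] at this
        simp [Finsupp.single_apply, hka, hab.symm] at this
      · rfl
    rw [e3, if_neg hma, if_neg hmb, e1, e2]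
    simp [hne.symm]
  · refine ⟨Finsupp.single c 0 + Finsupp.single d (e + 1 - 0), ?_⟩
    have h1 : (Finsupp.single c 0 + Finsupp.single d (e + 1 - 0) : Fin n →₀ ℕ) c = 0 := by
      simp [Finsupp.single_apply, hcd.symm]
    have h2 : (Finsupp.single c 0 + Finsupp.single d (e + 1 - 0) : Fin n →₀ ℕ) d = e + 1 := by
      simp [Finsupp.single_apply]
    have h3 : deg (Finsupp.single c 0 + Finsupp.single d (e + 1 - 0) : Fin n →₀ ℕ) = e + 1 := by
      rw [deg_add, deg_single, deg_single]; omega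
    simp only [h1, h2, h3]
    simp
  · intro m hm
    by_cases h : m c + m d = e + 1 ∧ deg m = e + 1
    · refine ⟨⟨_, hD (m c) (by omega), ?_⟩, h.2⟩
      have h1 : e + 1 - m c = m d := by omega
      rw [h1, eq_pair hcd m (by omega)]
    · simp [h] at hm

/-! ### Explicit small examples -/

/-- exponents on the first `k` variables -/
noncomputable def emb {k : ℕ} (n : ℕ) (v : Fin k → ℕ) : Fin n →₀ ℕ :=
  Finsupp.equivFunOnFinite.symm (fun i => if h : i.1 < k then v ⟨i.1, h⟩ else 0)

/-- coefficient table -/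
def tab {k : ℕ} (l : List ((Fin k → ℕ) × ℤ)) (v : Fin k → ℕ) : ℤ :=
  (l.map fun p => if p.1 = v then p.2 else 0).sum

def down' {k : ℕ} (g : (Fin k → ℕ) → ℤ) (v : Fin k → ℕ) : ℤ :=
  ∑ i, if v i = 0 then 0 else g (v - Pi.single i 1)

def up' {k : ℕ} (g : (Fin k → ℕ) → ℤ) (v : Fin k → ℕ) : ℤ :=
  ∑ i, g (v + Pi.single i 1)

theorem emb_apply {k : ℕ} (hk : k ≤ n) (v : Fin k → ℕ) (i : Fin k) :
    emb n v (Fin.castLE hk i) = v i := by
  simp [emb]

theorem emb_apply_of_ge {k : ℕ} (v : Fin k → ℕ) (i : Fin n) (hi : k ≤ i.1) :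
    emb n v i = 0 := by
  simp [emb]
  intro h
  omega

/-- `m` involves only the first `k` variables -/
def Sup (k : ℕ) (m : Fin n →₀ ℕ) : Prop := ∀ i : Fin n, k ≤ i.1 → m i = 0

theorem emb_restrict {k : ℕ} (hk : k ≤ n) {m : Fin n →₀ ℕ} (hm : Sup k m) :
    emb n (fun i => m (Fin.castLE hk i)) = m := by
  ext i
  by_cases hi : i.1 < k
  · have : i = Fin.castLE hk ⟨i.1, hi⟩ := by ext; simp
    rw [this, emb_apply]
  · rw [emb_apply_of_ge _ _ (by omega), hm i (by omega)]

theorem sum_castLE {M : Type*} [AddCommMonoid M] {k : ℕ} (hk : k ≤ n) (g : Fin n → M)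
    (hg : ∀ i : Fin n, k ≤ i.1 → g i = 0) : ∑ i, g i = ∑ i : Fin k, g (Fin.castLE hk i) := by
  classical
  have h1 : ∑ i : Fin k, g (Fin.castLE hk i) = ∑ i ∈ univ.map (Fin.castLEEmb hk), g i := by
    rw [Finset.sum_map]
    rfl
  rw [h1]
  symm
  refine Finset.sum_subset (Finset.subset_univ _) ?_
  intro i _ hi
  apply hg
  by_contra hcon
  push Not at hcon
  apply hi
  rw [Finset.mem_map]
  exact ⟨⟨i.1, hcon⟩, Finset.mem_univ _, by ext; simp⟩

theorem deg_emb {k : ℕ} (hk : k ≤ n) (v : Fin k → ℕ) : deg (emb n v) = ∑ i, v i := by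
  unfold deg
  rw [sum_castLE hk _ (fun i hi => emb_apply_of_ge v i hi)]
  exact Finset.sum_congr rfl fun i _ => emb_apply hk v i

theorem down_eq {k : ℕ} (hk : k ≤ n) (g : (Fin k → ℕ) → ℤ) {m : Fin n →₀ ℕ} (hm : Sup k m) :
    down univ (fun m : Fin n →₀ ℕ => by
      classical
      exact if Sup k m then ((g (fun i => m (Fin.castLE hk i)) : ℤ) : K) else 0) m =
    ((down' g (fun i => m (Fin.castLE hk i)) : ℤ) : K) := by
  classical
  unfold down down'
  rw [sum_castLE hk]
  · push_cast
    refine Finset.sum_congr rfl fun i _ => ?_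
    split_ifs with h1 h2
    · rfl
    · congr 2
      funext l
      by_cases hil : i = l
      · subst hil; simp
      · have : Fin.castLE hk i ≠ Fin.castLE hk l := fun h => hil (Fin.castLE_injective hk h)
        simp [Finsupp.single_apply, this, Pi.single_apply, Ne.symm hil]
    · exfalso
      apply h2
      intro l hl
      simp [hm l hl]
  · intro i hi
    simp [hm i hi]

theorem up_eq {k : ℕ} (hk : k ≤ n) (g : (Fin k → ℕ) → ℤ) {m : Fin n →₀ ℕ} (hm : Sup k m) :
    up univ (fun m : Fin n →₀ ℕ => by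
      classical
      exact if Sup k m then ((g (fun i => m (Fin.castLE hk i)) : ℤ) : K) else 0) m =
    ((up' g (fun i => m (Fin.castLE hk i)) : ℤ) : K) := by
  classical
  unfold up up'
  rw [sum_castLE hk]
  · push_cast
    refine Finset.sum_congr rfl fun i _ => ?_
    rw [if_pos]
    · congr 2
      funext l
      by_cases hil : i = l
      · subst hil; simp
      · have : Fin.castLE hk i ≠ Fin.castLE hk l := fun h => hil (Fin.castLE_injective hk h)
        simp [Finsupp.single_apply, this, Pi.single_apply, Ne.symm hil]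
    · intro l hl
      have : Fin.castLE hk i ≠ l := by
        intro h
        rw [← h] at hl
        simp at hl
        omega
      simp [hm l hl, Finsupp.single_apply, this]
  · intro i hi
    beta_reduce
    rw [if_neg]
    intro h
    have := h i hi
    simp at this

theorem mem_of_tab_ne {k : ℕ} {l : List ((Fin k → ℕ) × ℤ)} {v : Fin k → ℕ} (h : tab l v ≠ 0) :
    ∃ p ∈ l, p.1 = v := by
  by_contra hcon
  push Not at hcon
  apply h
  unfold tab
  apply List.sum_eq_zero
  intro x hx
  rw [List.mem_map] at hx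
  obtain ⟨p, hp, rfl⟩ := hx
  rw [if_neg (hcon p hp)]

theorem failsAt_table [CharZero K] {k : ℕ} (hk : k ≤ n) (T' : List (Fin k → ℕ))
    (lG lF : List ((Fin k → ℕ) × ℤ)) (j : ℕ) {T : Finset (Fin n →₀ ℕ)}
    (hT : ∀ τ, τ ∈ T ↔ ∃ t ∈ T', emb n t = τ)
    (h1 : ∃ p ∈ lG, tab lG p.1 ≠ 0) (h2 : ∀ p ∈ lG, (∃ t ∈ T', ∀ i, p.1 i ≤ t i) ∧ ∑ i, p.1 i = j)
    (h3 : ∀ p ∈ lG, ∀ i, (∃ t ∈ T', ∀ l, (p.1 + Pi.single i 1 : Fin k → ℕ) l ≤ t l) →
      down' (tab lG) (p.1 + Pi.single i 1) = 0)
    (h4 : ∃ p ∈ lF, tab lF p.1 ≠ 0)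
    (h5 : ∀ p ∈ lF, (∃ t ∈ T', ∀ i, p.1 i ≤ t i) ∧ ∑ i, p.1 i = j + 1)
    (h6 : ∀ p ∈ lF, ∀ i, p.1 i ≠ 0 → up' (tab lF) (p.1 - Pi.single i 1) = 0) :
    FailsAt K T j := by
  classical
  have hstd : ∀ v : Fin k → ℕ, (∃ t ∈ T', ∀ i, v i ≤ t i) → Std T (emb n v) := by
    rintro v ⟨t, ht, hv⟩
    refine ⟨emb n t, (hT _).mpr ⟨t, ht, rfl⟩, fun i => ?_⟩
    by_cases hi : i.1 < k
    · have : i = Fin.castLE hk ⟨i.1, hi⟩ := by ext; simp
      rw [this, emb_apply, emb_apply]
      exact hv _
    · rw [emb_apply_of_ge _ _ (by omega)]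
      exact zero_le
  have hsup : ∀ m : Fin n →₀ ℕ, Std T m → Sup k m ∧
      ∃ t ∈ T', ∀ i, m (Fin.castLE hk i) ≤ t i := by
    rintro m ⟨τ, hτ, hm⟩
    obtain ⟨t, ht, rfl⟩ := (hT τ).mp hτ
    refine ⟨fun i hi => ?_, t, ht, fun i => ?_⟩
    · have := hm i
      rw [emb_apply_of_ge _ _ hi] at this
      omega
    · have := hm (Fin.castLE hk i)
      rwa [emb_apply] at this
  have hsupemb : ∀ v : Fin k → ℕ, Sup k (emb n v) := fun v i hi => emb_apply_of_ge v i hi
  have hres : ∀ v : Fin k → ℕ, (fun i => emb n v (Fin.castLE hk i)) = v := by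
    intro v
    funext i
    exact emb_apply hk v i
  refine ⟨fun m => if Sup k m then ((tab lG (fun i => m (Fin.castLE hk i)) : ℤ) : K) else 0,
    fun m => if Sup k m then ((tab lF (fun i => m (Fin.castLE hk i)) : ℤ) : K) else 0,
    ?_, ?_, ?_, ?_, ?_, ?_⟩
  · obtain ⟨p, hp, hp'⟩ := h1
    refine ⟨emb n p.1, ?_⟩
    beta_reduce
    rw [if_pos (hsupemb _), hres]
    exact_mod_cast hp'
  · intro m hm
    by_cases hs : Sup k m
    · beta_reduce at hm
      rw [if_pos hs] at hm
      have hm' : tab lG (fun i => m (Fin.castLE hk i)) ≠ 0 := by exact_mod_cast hm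
      obtain ⟨p, hp, hpv⟩ := mem_of_tab_ne hm'
      obtain ⟨h7, h8⟩ := h2 p hp
      rw [← emb_restrict hk hs, ← hpv]
      exact ⟨hstd _ h7, by rw [deg_emb hk, h8]⟩
    · simp [hs] at hm
  · intro m hm
    obtain ⟨hs, ht⟩ := hsup m hm
    have := down_eq (K := K) hk (tab lG) hs
    convert this using 1
    symm
    rw [Int.cast_eq_zero]
    by_contra hcon
    have h7 := hcon
    unfold down' at h7
    obtain ⟨i, _, hi⟩ := Finset.exists_ne_zero_of_sum_ne_zero h7
    have hi0 : m (Fin.castLE hk i) ≠ 0 := by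
      intro h
      simp [h] at hi
    rw [if_neg hi0] at hi
    obtain ⟨p, hp, hpv⟩ := mem_of_tab_ne hi
    have h8 : p.1 + Pi.single i 1 = fun i => m (Fin.castLE hk i) := by
      rw [hpv]
      funext l
      by_cases hil : i = l
      · subst hil; simp; omega
      · simp [Pi.single_apply, Ne.symm hil]
    have h9 := h3 p hp i (by rw [h8]; exact ht)
    rw [h8] at h9
    exact hcon h9
  · obtain ⟨p, hp, hp'⟩ := h4
    refine ⟨emb n p.1, ?_⟩
    beta_reduce
    rw [if_pos (hsupemb _), hres]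
    exact_mod_cast hp'
  · intro m hm
    by_cases hs : Sup k m
    · beta_reduce at hm
      rw [if_pos hs] at hm
      have hm' : tab lF (fun i => m (Fin.castLE hk i)) ≠ 0 := by exact_mod_cast hm
      obtain ⟨p, hp, hpv⟩ := mem_of_tab_ne hm'
      obtain ⟨h7, h8⟩ := h5 p hp
      rw [← emb_restrict hk hs, ← hpv]
      exact ⟨hstd _ h7, by rw [deg_emb hk, h8]⟩
    · simp [hs] at hm
  · intro u
    by_cases hs : Sup k u
    · have := up_eq (K := K) hk (tab lF) hs
      convert this using 1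
      symm
      rw [Int.cast_eq_zero]
      by_contra hcon
      have h7 := hcon
      unfold up' at h7
      obtain ⟨i, _, hi⟩ := Finset.exists_ne_zero_of_sum_ne_zero h7
      obtain ⟨p, hp, hpv⟩ := mem_of_tab_ne hi
      have h8 := h6 p hp i (by rw [hpv]; simp)
      rw [hpv, add_tsub_cancel_right] at h8
      exact hcon h8
    · unfold up
      refine Finset.sum_eq_zero fun i _ => ?_
      beta_reduce
      rw [if_neg]
      intro h
      apply hs
      intro l hl
      have := h l hl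
      simp at this
      exact this.1

/-- the finset of exponents given by a table -/
noncomputable def embSet {k : ℕ} (n : ℕ) (T' : List (Fin k → ℕ)) : Finset (Fin n →₀ ℕ) := by
  classical
  exact (T'.map (emb n)).toFinset

theorem mem_embSet {k : ℕ} (T' : List (Fin k → ℕ)) (τ : Fin n →₀ ℕ) :
    τ ∈ embSet n T' ↔ ∃ t ∈ T', emb n t = τ := by
  classical
  simp [embSet]

theorem emb_injective {k : ℕ} (hk : k ≤ n) : Function.Injective (emb (k := k) n) := by
  intro v w h
  funext i
  rw [← emb_apply hk v i, ← emb_apply hk w i, h]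

theorem card_embSet {k : ℕ} (hk : k ≤ n) (T' : List (Fin k → ℕ)) (h : T'.Nodup) :
    (embSet n T').card = T'.length := by
  classical
  unfold embSet
  rw [List.toFinset_card_of_nodup (h.map (emb_injective hk)), List.length_map]

def T3 : List (Fin 3 → ℕ) := [![2, 2, 0], ![2, 0, 2], ![0, 2, 2]]

theorem failsAt_T3 [CharZero K] (hn : 3 ≤ n) : FailsAt K (embSet n T3) 2 := by
  refine failsAt_table hn T3
    [(![2,0,0], 1), (![1,1,0], -1), (![1,0,1], -1), (![0,2,0], 1), (![0,1,1], -1), (![0,0,2], 1)]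
    [(![2,1,0], -1), (![2,0,1], 1), (![1,2,0], 1), (![1,0,2], -1), (![0,2,1], -1), (![0,1,2], 1)]
    2 (mem_embSet T3) ?_ ?_ ?_ ?_ ?_ ?_ <;> decide

def T34 : List (Fin 3 → ℕ) := [![5, 0, 0], ![4, 1, 0], ![2, 2, 1], ![1, 4, 0]]

theorem failsAt_T34 [CharZero K] (hn : 3 ≤ n) : FailsAt K (embSet n T34) 3 := by
  refine failsAt_table hn T34
    [(![2,0,1], 1), (![1,1,1], -1), (![0,2,1], 1)]
    [(![4,0,0], 1), (![3,1,0], -1), (![2,2,0], 1), (![1,3,0], -1), (![0,4,0], 1)]
    3 (mem_embSet T34) ?_ ?_ ?_ ?_ ?_ ?_ <;> decide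

def T2 : List (Fin 4 → ℕ) := [![2, 2, 1, 1], ![1, 1, 2, 2]]

theorem failsAt_T2 [CharZero K] (hn : 4 ≤ n) : FailsAt K (embSet n T2) 3 := by
  refine failsAt_table hn T2
    [(![2,1,0,0], 1), (![2,0,1,0], -1), (![2,0,0,1], -1), (![1,2,0,0], -1), (![1,0,2,0], -2),
     (![1,0,1,1], 2), (![1,0,0,2], -2), (![0,2,1,0], 1), (![0,2,0,1], 1), (![0,1,2,0], 2),
     (![0,1,1,1], -2), (![0,1,0,2], 2)]
    [(![2,2,0,0], 2), (![2,1,1,0], -1), (![2,1,0,1], -1), (![2,0,1,1], 1), (![1,2,1,0], -1),
     (![1,2,0,1], -1), (![1,1,2,0], 1), (![1,1,1,1], 1), (![1,1,0,2], 1), (![1,0,2,1], -1),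
     (![1,0,1,2], -1), (![0,2,1,1], 1), (![0,1,2,1], -1), (![0,1,1,2], -1), (![0,0,2,2], 2)]
    3 (mem_embSet T2) ?_ ?_ ?_ ?_ ?_ ?_ <;> decide

end Pool.Agent.MP_a773c0_ag
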