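import Pool.Agent.Lib.MP_a773c0_ag.Supp

/-!
Injectivity of the Lefschetz map in the lower half for monomial complete intersections,
and hence for monomial level algebras (sl2 argument).
-/

namespace Pool.Agent.MP_a773c0_ag

open Finset

set_option linter.unusedSimpArgs false
set_option linter.unusedSectionVars false

variable {σ : Type*} [DecidableEq σ] [Fintype σ] {K : Type*} [Field K]

/-- The lowering operator of the box `{u ≤ a}`. -/
noncomputable def low (a : σ →₀ ℕ) (f : (σ →₀ ℕ) → K) (u : σ →₀ ℕ) : K :=
  ∑ i, ((u i : K) + 1) * ((a i : K) - u i) * f (u + Finsupp.single i 1)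

theorem low_support (a : σ →₀ ℕ) (f : (σ →₀ ℕ) → K) (hf : ∀ u, f u ≠ 0 → u ≤ a) (u : σ →₀ ℕ)
    (hu : low a f u ≠ 0) : u ≤ a := by
  unfold low at hu
  obtain ⟨i, _, hi⟩ := Finset.exists_ne_zero_of_sum_ne_zero hu
  have h1 : f (u + Finsupp.single i 1) ≠ 0 := right_ne_zero_of_mul hi
  exact le_trans (le_add_of_nonneg_right zero_le) (hf _ h1)

theorem comm_low (a : σ →₀ ℕ) (f : (σ →₀ ℕ) → K) (u : σ →₀ ℕ) (hu : u ≤ a) :
    down univ (low a f) u = low a (fun w => if w ≤ a then down univ f w else 0) u +
      (∑ i, (2 * (u i : K) - a i)) * f u := by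
  have hA : down univ (low a f) u = ∑ i, ∑ k, (if u i = 0 then 0 else
      ((((u - Finsupp.single i 1 : σ →₀ ℕ) k : ℕ) : K) + 1) *
        ((a k : K) - ((u - Finsupp.single i 1 : σ →₀ ℕ) k : ℕ)) *
        f (u - Finsupp.single i 1 + Finsupp.single k 1)) := by
    unfold down low
    refine Finset.sum_congr rfl fun i _ => ?_
    split_ifs with h
    · simp
    · rfl
  have hB : low a (fun w => if w ≤ a then down univ f w else 0) u = ∑ i, ∑ k,
      ((u k : K) + 1) * ((a k : K) - u k) * (if (u + Finsupp.single k 1 : σ →₀ ℕ) i = 0 then 0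
        else f (u + Finsupp.single k 1 - Finsupp.single i 1)) := by
    rw [Finset.sum_comm]
    unfold down low
    refine Finset.sum_congr rfl fun k _ => ?_
    rw [← Finset.mul_sum]
    by_cases hk : u k = a k
    · simp [hk]
    · have h1 : u + Finsupp.single k 1 ≤ a := by
        intro l
        have h2 := hu l
        have h3 := hu k
        rcases eq_or_ne l k with rfl | hlk
        · simp
          omega
        · simp [Finsupp.single_apply, hlk.symm, h2]
      simp only [h1, if_true]
  have hC : (∑ i, (2 * (u i : K) - a i)) * f u = ∑ i, ∑ k, (if i = k then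
      (2 * (u i : K) - a i) * f u else 0) := by
    rw [Finset.sum_mul]
    refine Finset.sum_congr rfl fun i _ => ?_
    simp
  rw [hA, hB, hC, ← Finset.sum_add_distrib]
  refine Finset.sum_congr rfl fun i _ => ?_
  rw [← Finset.sum_add_distrib]
  refine Finset.sum_congr rfl fun k _ => ?_
  by_cases hik : i = k
  · subst hik
    by_cases h0 : u i = 0
    · simp [h0]
    · have h1 : u - Finsupp.single i 1 + Finsupp.single i 1 = u := by
        apply tsub_add_cancel_of_le
        rw [Finsupp.single_le_iff]
        omega
      have h2 : (((u - Finsupp.single i 1 : σ →₀ ℕ) i : ℕ) : K) = (u i : K) - 1 := by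
        have : (u - Finsupp.single i 1 : σ →₀ ℕ) i = u i - 1 := by simp
        rw [this, Nat.cast_sub (by omega)]
        simp
      rw [h1, h2]
      simp [h0]
      ring
  · have e1 : (u - Finsupp.single i 1 : σ →₀ ℕ) k = u k := by
      simp [Finsupp.single_apply, hik]
    have e2 : (u + Finsupp.single k 1 : σ →₀ ℕ) i = u i := by
      simp [Finsupp.single_apply, Ne.symm hik]
    rw [e1, e2]
    by_cases h0 : u i = 0
    · simp [h0, hik]
    · have e3 : u - Finsupp.single i 1 + Finsupp.single k 1 =
          u + Finsupp.single k 1 - Finsupp.single i 1 := by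
        rw [tsub_add_eq_add_tsub]
        rw [Finsupp.single_le_iff]
        omega
      simp [h0, hik, e3]

/-- iterates of the lowering operator -/
noncomputable def lowIter (a : σ →₀ ℕ) (f : (σ →₀ ℕ) → K) : ℕ → (σ →₀ ℕ) → K
  | 0 => f
  | k + 1 => low a (lowIter a f k)

theorem lowIter_support (a : σ →₀ ℕ) (f : (σ →₀ ℕ) → K) (hf : ∀ u, f u ≠ 0 → u ≤ a) (k : ℕ) :
    ∀ u, lowIter a f k u ≠ 0 → u ≤ a := by
  induction k with
  | zero => exact hf
  | succ k ih => exact fun u hu => low_support a _ ih u hu

theorem lowIter_degree (a : σ →₀ ℕ) (f : (σ →₀ ℕ) → K) (j : ℕ)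
    (hf : ∀ u, f u ≠ 0 → ∑ i, u i = j) (k : ℕ) :
    ∀ u, lowIter a f k u ≠ 0 → ∑ i, u i + k = j := by
  induction k with
  | zero => simpa [lowIter] using hf
  | succ k ih =>
    intro u hu
    unfold lowIter low at hu
    obtain ⟨i, _, hi⟩ := Finset.exists_ne_zero_of_sum_ne_zero hu
    have h1 := ih _ (right_ne_zero_of_mul hi)
    rw [← h1]
    have : ∑ l, (u + Finsupp.single i 1 : σ →₀ ℕ) l = ∑ l, u l + 1 := by
      simp only [Finsupp.add_apply, Finset.sum_add_distrib]
      simp [Finsupp.single_apply]
    omega

theorem box_injective [CharZero K] (a : σ →₀ ℕ) (f : (σ →₀ ℕ) → K) (j : ℕ)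
    (hfa : ∀ u, f u ≠ 0 → u ≤ a) (hfj : ∀ u, f u ≠ 0 → ∑ i, u i = j)
    (hj : 2 * j < ∑ i, a i) (hd : ∀ u, u ≤ a → down univ f u = 0) : f = 0 := by
  have key : ∀ k, ∀ u, u ≤ a → down univ (lowIter a f (k + 1)) u =
      ((k : K) + 1) * (2 * (j : K) - ((∑ i, a i : ℕ) : K) - k) * lowIter a f k u := by
    intro k
    induction k with
    | zero =>
      intro u hu
      rw [show lowIter a f (0 + 1) = low a f from rfl, show lowIter a f 0 = f from rfl,
        comm_low a f u hu]
      have h1 : (fun w => if w ≤ a then down univ f w else 0) = fun _ => (0 : K) := by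
        funext w
        split_ifs with h
        · exact hd w h
        · rfl
      rw [h1]
      have h2 : low a (fun _ => (0 : K)) u = 0 := by simp [low]
      rw [h2]
      by_cases hfu : f u = 0
      · simp [hfu]
      · have h3 := hfj u hfu
        rw [Finset.sum_sub_distrib, ← Finset.mul_sum, ← Nat.cast_sum, h3]
        push_cast
        ring
    | succ k ih =>
      intro u hu
      rw [show lowIter a f (k + 1 + 1) = low a (lowIter a f (k + 1)) from rfl,
        comm_low a _ u hu]
      have h1 : low a (fun w => if w ≤ a then down univ (lowIter a f (k + 1)) w else 0) u =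
          ((k : K) + 1) * (2 * (j : K) - ((∑ i, a i : ℕ) : K) - k) * lowIter a f (k + 1) u := by
        rw [show lowIter a f (k + 1) u = low a (lowIter a f k) u from rfl]
        unfold low
        rw [Finset.mul_sum]
        refine Finset.sum_congr rfl fun i _ => ?_
        have h2 : (if u + Finsupp.single i 1 ≤ a then
            down univ (lowIter a f (k + 1)) (u + Finsupp.single i 1) else 0) =
            ((k : K) + 1) * (2 * (j : K) - ((∑ i, a i : ℕ) : K) - k) *
              lowIter a f k (u + Finsupp.single i 1) := by
          split_ifs with h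
          · exact ih _ h
          · have : lowIter a f k (u + Finsupp.single i 1) = 0 := by
              by_contra hcon
              exact h (lowIter_support a f hfa k _ hcon)
            simp [this]
        beta_reduce
        rw [h2]
        ring
      rw [h1]
      by_cases hfu : lowIter a f (k + 1) u = 0
      · simp [hfu]
      · have h3 := lowIter_degree a f j hfj (k + 1) u hfu
        rw [Finset.sum_sub_distrib, ← Finset.mul_sum, ← Nat.cast_sum]
        have h4 : ((∑ i, u i : ℕ) : K) = (j : K) - k - 1 := by
          rw [← h3]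
          push_cast
          ring
        rw [h4]
        push_cast
        ring
  have hz : ∀ k, k ≤ j + 1 → lowIter a f (j + 1 - k) = 0 := by
    intro k
    induction k with
    | zero =>
      intro _
      funext u
      by_contra hcon
      have := lowIter_degree a f j hfj (j + 1) u hcon
      omega
    | succ k ih =>
      intro hk
      have h1 := ih (by omega)
      obtain ⟨c, hc⟩ : ∃ c, j + 1 - (k + 1) = c := ⟨_, rfl⟩
      have hc' : j + 1 - k = c + 1 := by omega
      rw [hc'] at h1
      rw [hc]
      funext u
      by_contra hcon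
      have hu := lowIter_support a f hfa c u hcon
      have h2 := key c u hu
      rw [h1] at h2
      have h3 : down univ (0 : (σ →₀ ℕ) → K) u = 0 := by simp [down]
      rw [h3] at h2
      have h4 : ((c : K) + 1) * (2 * (j : K) - ((∑ i, a i : ℕ) : K) - c) ≠ 0 := by
        apply mul_ne_zero
        · exact_mod_cast Nat.succ_ne_zero c
        · have h5 : (2 * (j : K) - ((∑ i, a i : ℕ) : K) - c) =
              -(((∑ i, a i) + c - 2 * j : ℕ) : K) := by
            rw [Nat.cast_sub (by omega)]
            push_cast
            ring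
          rw [h5, neg_ne_zero, Nat.cast_ne_zero]
          omega
      exact (mul_ne_zero h4 hcon) h2.symm
  have := hz (j + 1) le_rfl
  simpa [lowIter] using this

end Pool.Agent.MP_a773c0_ag
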