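import Pool.Agent.Lib.MP_a773c0_ag.Supp

/-!
A multiple of a sum of `s` variables which is not a monomial multiple has at least `2 s - 2` terms.
-/

namespace Pool.Agent.MP_a773c0_ag

open Finset

set_option linter.unusedSimpArgs false
set_option linter.unusedSectionVars false

variable {σ : Type*} [DecidableEq σ] {K : Type*} [Field K]

/-- `w` is obtained from `v` by lowering coordinate `i` by `k` and raising coordinates in `S`
by a total of `k'`. -/
def Good (S : Finset σ) (i : σ) (v : σ →₀ ℕ) (k k' : ℕ) (w : σ →₀ ℕ) : Prop :=
  w i + k = v i ∧ (∀ j ∈ S, v j ≤ w j) ∧ (∀ j, j ≠ i → j ∉ S → w j = v j) ∧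
    ∑ j ∈ S, w j = ∑ j ∈ S, v j + k'

theorem exists_lt_of_good {S : Finset σ} {i : σ} {v : σ →₀ ℕ} {k k' : ℕ} {w : σ →₀ ℕ}
    (hi : i ∉ S) (h : Good S i v k (k' + 1) w) :
    ∃ j ∈ S, w j ≠ 0 ∧ Good S i v k k' (w - Finsupp.single j 1) := by
  obtain ⟨h1, h2, h3, h4⟩ := h
  have : ∃ j ∈ S, v j < w j := by
    by_contra hcon
    push Not at hcon
    have := Finset.sum_le_sum hcon
    omega
  obtain ⟨j, hj, hjlt⟩ := this
  have hji : j ≠ i := fun h => hi (h ▸ hj)
  refine ⟨j, hj, by omega, ?_, ?_, ?_, ?_⟩
  · simp [Finsupp.single_apply, hji, h1]
  · intro l hl
    rcases eq_or_ne l j with rfl | hlj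
    · simp; omega
    · have := h2 l hl
      simp [Finsupp.single_apply, hlj.symm, this]
  · intro l hli hl
    have hlj : j ≠ l := fun h => hl (h ▸ hj)
    have := h3 l hli hl
    simp [Finsupp.single_apply, hlj, this]
  · have e1 : ∑ l ∈ S, (w - Finsupp.single j 1 : σ →₀ ℕ) l = ∑ l ∈ S.erase j, w l + (w j - 1) := by
      rw [← Finset.sum_erase_add _ _ hj]
      congr 1
      · refine Finset.sum_congr rfl fun l hl => ?_
        have hlj : l ≠ j := (Finset.mem_erase.mp hl).1
        simp [Finsupp.single_apply, hlj.symm]
      · simp
    have e2 : ∑ l ∈ S, w l = ∑ l ∈ S.erase j, w l + w j := by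
      rw [← Finset.sum_erase_add _ _ hj]
    omega

theorem down_support [CharZero K] : ∀ (N : ℕ) (S : Finset σ), S.card = N →
    ∀ (D : ℕ) (f : (σ →₀ ℕ) → K), (∃ m m', m ≠ m' ∧ f m ≠ 0 ∧ f m' ≠ 0) →
    (∀ m, f m ≠ 0 → ∑ i ∈ S, m i = D) →
    ∃ W : Finset (σ →₀ ℕ), 2 * S.card ≤ W.card + 2 ∧ ∀ m ∈ W, down S f m ≠ 0 := by
  intro N
  induction N with
  | zero =>
    intro S hS D f _ _
    exact ⟨∅, by simp [hS], by simp⟩
  | succ N ih =>
    intro S hS D f hf hD
    by_cases hN : N = 0
    · exact ⟨∅, by simp [hS, hN], by simp⟩
    have hSne : S.Nonempty := by
      rw [← Finset.card_pos]; omega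
    by_cases hI : ∃ i ∈ S, ∃ m m', m ≠ m' ∧ f m ≠ 0 ∧ f m' ≠ 0 ∧ m i = m' i ∧
        ∀ m'', f m'' ≠ 0 → m i ≤ m'' i
    · -- some bottom stratum has two elements
      obtain ⟨i, hiS, m1, m2, hm12, hm1, hm2, hmi, hmin⟩ := hI
      obtain ⟨b, hb⟩ : ∃ b, m1 i = b := ⟨_, rfl⟩
      rw [hb] at hmin hmi
      have hiS' : i ∉ S.erase i := Finset.notMem_erase i S
      have hSe : S = insert i (S.erase i) := (Finset.insert_erase hiS).symm
      have hcard : (S.erase i).card = N := by
        rw [Finset.card_erase_of_mem hiS, hS]; rfl
      have hD' : ∀ m, f m ≠ 0 → m i + ∑ j ∈ S.erase i, m j = D := by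
        intro m hm
        have := hD m hm
        rw [← Finset.add_sum_erase _ _ hiS] at this
        exact this
      let fb : (σ →₀ ℕ) → K := fun m => if m i = b then f m else 0
      have hfb : ∀ m, fb m ≠ 0 → f m ≠ 0 ∧ m i = b := by
        intro m hm
        by_cases h : m i = b
        · simp only [fb, h, if_true] at hm
          exact ⟨hm, h⟩
        · simp [fb, h] at hm
      -- bottom stratum of the multiple
      have hdown : ∀ m, m i = b → down S f m = ∑ j ∈ S.erase i,
          if m j = 0 then 0 else f (m - Finsupp.single j 1) := by
        intro m hm
        unfold down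
        rw [← Finset.add_sum_erase _ _ hiS]
        have : (if m i = 0 then 0 else f (m - Finsupp.single i 1)) = 0 := by
          split_ifs with h0
          · rfl
          · by_contra hcon
            have := hmin _ hcon
            simp at this
            omega
        rw [this, zero_add]
      obtain ⟨W1, hW1c, hW1⟩ := ih (S.erase i) hcard (D - b) fb
        ⟨m1, m2, hm12, by simpa [fb, hb] using hm1, by simpa [fb, hmi] using hm2⟩ (by
          intro m hm
          obtain ⟨h1, h2⟩ := hfb m hm
          have := hD' m h1
          omega)
      have hW1i : ∀ m ∈ W1, m i = b := by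
        intro m hm
        have h1 := hW1 m hm
        unfold down at h1
        obtain ⟨j, hj, hj'⟩ := Finset.exists_ne_zero_of_sum_ne_zero h1
        have hji : j ≠ i := (Finset.mem_erase.mp hj).1
        by_cases h0 : m j = 0
        · simp [h0] at hj'
        · simp only [h0, if_false] at hj'
          have := (hfb _ hj').2
          simpa [Finsupp.single_apply, hji] using this
      have hW1' : ∀ m ∈ W1, down S f m ≠ 0 := by
        intro m hm
        have hmb := hW1i m hm
        have h1 := hW1 m hm
        rw [hdown m hmb]
        convert h1 using 1
        unfold down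
        refine Finset.sum_congr rfl fun j hj => ?_
        have hji : j ≠ i := (Finset.mem_erase.mp hj).1
        simp [fb, Finsupp.single_apply, hji, hmb]
      -- the maximal exponent
      obtain ⟨a, ⟨v, hv, hva⟩, hmax⟩ : ∃ a, (∃ v, f v ≠ 0 ∧ v i = a) ∧
          ∀ m, f m ≠ 0 → m i ≤ a := by
        classical
        let P : ℕ → Prop := fun a => ∃ v, f v ≠ 0 ∧ v i = a
        have hP : ∃ a, P a := ⟨m1 i, m1, hm1, rfl⟩
        have hbd : ∀ a, P a → a ≤ D := by
          rintro a ⟨v, hv, rfl⟩
          have := hD' v hv
          omega
        refine ⟨Nat.findGreatest P D, Nat.findGreatest_spec (hbd _ hP.choose_spec)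
          hP.choose_spec, ?_⟩
        intro m hm
        exact Nat.le_findGreatest (hbd _ ⟨m, hm, rfl⟩) ⟨m, hm, rfl⟩
      have htop : ∀ v, f v ≠ 0 → v i = a → down S f (v + Finsupp.single i 1) = f v := by
        intro v hv hva
        unfold down
        rw [← Finset.add_sum_erase _ _ hiS]
        have : ∑ j ∈ S.erase i, (if (v + Finsupp.single i 1 : σ →₀ ℕ) j = 0 then 0
            else f (v + Finsupp.single i 1 - Finsupp.single j 1)) = 0 := by
          refine Finset.sum_eq_zero fun j hj => ?_
          have hji : j ≠ i := (Finset.mem_erase.mp hj).1
          split_ifs with h0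
          · rfl
          · by_contra hcon
            have := hmax _ hcon
            simp [Finsupp.single_apply, hji, hva] at this
        rw [this, add_zero]
        simp
      have hba : b ≤ a := by rw [← hb]; exact hmax _ hm1
      by_cases h2 : ∃ v', v' ≠ v ∧ f v' ≠ 0 ∧ v' i = a
      · obtain ⟨v', hv'v, hv', hv'a⟩ := h2
        refine ⟨insert (v + Finsupp.single i 1) (insert (v' + Finsupp.single i 1) W1), ?_, ?_⟩
        · rw [Finset.card_insert_of_notMem, Finset.card_insert_of_notMem]
          · omega
          · intro h
            have := hW1i _ h
            simp [hv'a] at this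
            omega
          · rw [Finset.mem_insert, not_or]
            constructor
            · intro h
              exact hv'v (add_right_cancel h).symm
            · intro h
              have := hW1i _ h
              simp [hva] at this
              omega
        · intro m hm
          simp only [Finset.mem_insert] at hm
          rcases hm with rfl | rfl | hm
          · rw [htop v hv hva]; exact hv
          · rw [htop v' hv' hv'a]; exact hv'
          · exact hW1' m hm
      by_cases h3 : ∃ m, b < m i ∧ m i ≤ a ∧ down S f m ≠ 0
      · obtain ⟨m, hbm, hma, hm⟩ := h3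
        refine ⟨insert (v + Finsupp.single i 1) (insert m W1), ?_, ?_⟩
        · rw [Finset.card_insert_of_notMem, Finset.card_insert_of_notMem]
          · omega
          · intro h
            have := hW1i _ h
            omega
          · rw [Finset.mem_insert, not_or]
            constructor
            · intro h
              have : (v + Finsupp.single i 1 : σ →₀ ℕ) i = m i := by rw [h]
              simp [hva] at this
              omega
            · intro h
              have := hW1i _ h
              simp [hva] at this
              omega
        · intro m' hm'
          simp only [Finset.mem_insert] at hm'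
          rcases hm' with rfl | rfl | hm'
          · rw [htop v hv hva]; exact hv
          · exact hm
          · exact hW1' m' hm'
      · -- the exceptional case
        push Not at h2 h3
        have hab : a ≠ b := by
          intro hab
          have e1 : m1 = v := by
            by_contra hne
            exact h2 m1 hne hm1 (by omega)
          have e2 : m2 = v := by
            by_contra hne
            exact h2 m2 hne hm2 (by omega)
          exact hm12 (e1.trans e2.symm)
        have key : ∀ k, k + b ≤ a → ∀ w : σ →₀ ℕ, w i + k = a →
            ∃ N : ℕ, f w = (-1) ^ k * f v * N ∧ (Good (S.erase i) i v k k w → 0 < N) := by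
          intro k
          induction k with
          | zero =>
            intro _ w hw
            rcases eq_or_ne w v with rfl | hne
            · exact ⟨1, by simp, fun _ => one_pos⟩
            · refine ⟨0, ?_, ?_⟩
              · have : f w = 0 := by
                  by_contra hcon
                  exact h2 w hne hcon (by omega)
                simp [this]
              · rintro ⟨g1, g2, g3, g4⟩
                exfalso
                apply hne
                have g5 : ∀ j ∈ S.erase i, v j = w j := by
                  rw [← Finset.sum_eq_sum_iff_of_le g2]
                  omega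
                ext j
                by_cases hji : j = i
                · subst hji; omega
                by_cases hj : j ∈ S.erase i
                · exact (g5 j hj).symm
                · exact g3 j hji hj
          | succ k ihk =>
            intro hk w hw
            have hm := h3 (w + Finsupp.single i 1) (by simp; omega) (by simp; omega)
            unfold down at hm
            rw [← Finset.add_sum_erase _ _ hiS] at hm
            have hmi0 : (if (w + Finsupp.single i 1 : σ →₀ ℕ) i = 0 then 0
                else f (w + Finsupp.single i 1 - Finsupp.single i 1)) = f w := by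
              simp
            rw [hmi0] at hm
            have hN : ∀ j ∈ S.erase i, ∃ N : ℕ, (if (w + Finsupp.single i 1 : σ →₀ ℕ) j = 0
                then 0 else f (w + Finsupp.single i 1 - Finsupp.single j 1)) =
                (-1) ^ k * f v * N ∧ (w j ≠ 0 → Good (S.erase i) i v (k + 1) k
                  (w - Finsupp.single j 1) → 0 < N) := by
              intro j hj
              have hji : j ≠ i := (Finset.mem_erase.mp hj).1
              by_cases hj0 : w j = 0
              · exact ⟨0, by simp [hj0, Finsupp.single_apply, hji.symm], fun h => absurd hj0 h⟩
              · obtain ⟨N, hN1, hN2⟩ := ihk (by omega)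
                  (w + Finsupp.single i 1 - Finsupp.single j 1)
                  (by simp [Finsupp.single_apply, hji]; omega)
                refine ⟨N, ?_, ?_⟩
                · simp [hj0, hN1]
                · intro _ hg
                  apply hN2
                  obtain ⟨g1, g2, g3, g4⟩ := hg
                  have hcomm : ∀ l, l ≠ i → (w + Finsupp.single i 1 - Finsupp.single j 1 : σ →₀ ℕ) l =
                      (w - Finsupp.single j 1 : σ →₀ ℕ) l := by
                    intro l hl
                    simp [Finsupp.single_apply, hl.symm]
                  refine ⟨?_, ?_, ?_, ?_⟩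
                  · simp [Finsupp.single_apply, hji] at g1 ⊢
                    omega
                  · intro l hl
                    rw [hcomm l (Finset.mem_erase.mp hl).1]
                    exact g2 l hl
                  · intro l hl hl'
                    rw [hcomm l hl]
                    exact g3 l hl hl'
                  · rw [← g4]
                    exact Finset.sum_congr rfl fun l hl => hcomm l (Finset.mem_erase.mp hl).1
            choose! Nf hNf using hN
            refine ⟨∑ j ∈ S.erase i, Nf j, ?_, ?_⟩
            · have e1 : ∑ j ∈ S.erase i, (if (w + Finsupp.single i 1 : σ →₀ ℕ) j = 0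
                  then 0 else f (w + Finsupp.single i 1 - Finsupp.single j 1)) =
                  (-1) ^ k * f v * ((∑ j ∈ S.erase i, Nf j : ℕ) : K) := by
                rw [Nat.cast_sum, Finset.mul_sum]
                exact Finset.sum_congr rfl fun j hj => (hNf j hj).1
              rw [e1] at hm
              rw [pow_succ]
              linear_combination hm
            · intro hg
              obtain ⟨j, hj, hj0, hg'⟩ := exists_lt_of_good hiS' hg
              exact Finset.sum_pos' (fun _ _ => Nat.zero_le _) ⟨j, hj, (hNf j hj).2 hj0 hg'⟩
        obtain ⟨k, hk⟩ : ∃ k, k + b = a := ⟨a - b, by omega⟩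
        have hk1 : 1 ≤ k := by omega
        have key2 : ∀ m : σ →₀ ℕ, Good (S.erase i) i v k (k + 1) m → down S f m ≠ 0 := by
          intro m hg
          have hmi' : m i = b := by
            have := hg.1
            omega
          rw [hdown m hmi']
          have hN : ∀ j ∈ S.erase i, ∃ N : ℕ, (if m j = 0
                then 0 else f (m - Finsupp.single j 1)) =
                (-1) ^ k * f v * N ∧ (m j ≠ 0 → Good (S.erase i) i v k k
                  (m - Finsupp.single j 1) → 0 < N) := by
            intro j hj
            have hji : j ≠ i := (Finset.mem_erase.mp hj).1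
            by_cases hj0 : m j = 0
            · exact ⟨0, by simp [hj0], fun h => absurd hj0 h⟩
            · obtain ⟨N, hN1, hN2⟩ := key k (by omega)
                (m - Finsupp.single j 1)
                (by simp [Finsupp.single_apply, hji]; omega)
              exact ⟨N, by simp [hj0, hN1], fun _ => hN2⟩
          choose! Nf hNf using hN
          have e1 : ∑ j ∈ S.erase i, (if m j = 0
                then 0 else f (m - Finsupp.single j 1)) =
                (-1) ^ k * f v * ((∑ j ∈ S.erase i, Nf j : ℕ) : K) := by
            rw [Nat.cast_sum, Finset.mul_sum]
            exact Finset.sum_congr rfl fun j hj => (hNf j hj).1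
          rw [e1]
          obtain ⟨j, hj, hj0, hg'⟩ := exists_lt_of_good hiS' hg
          have hpos : 0 < ∑ j ∈ S.erase i, Nf j :=
            Finset.sum_pos' (fun _ _ => Nat.zero_le _) ⟨j, hj, (hNf j hj).2 hj0 hg'⟩
          have : ((∑ j ∈ S.erase i, Nf j : ℕ) : K) ≠ 0 := Nat.cast_ne_zero.mpr hpos.ne'
          exact mul_ne_zero (mul_ne_zero (pow_ne_zero _ (neg_ne_zero.mpr one_ne_zero)) hv) this
        -- now produce the points
        have hne' : (S.erase i).Nonempty := by
          rw [← Finset.card_pos]; omega
        obtain ⟨p0, hp0⟩ := hne'
        have hp0i : p0 ≠ i := (Finset.mem_erase.mp hp0).1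
        let v0 : σ →₀ ℕ := v - Finsupp.single i k
        have hv0i : v0 i = b := by simp [v0, hva]; omega
        have hv0j : ∀ j, j ≠ i → v0 j = v j := by
          intro j hj
          simp [v0, Finsupp.single_apply, hj.symm]
        have hgood : ∀ x : σ →₀ ℕ, (∀ j, j ∉ S.erase i → x j = 0) →
            ∑ j ∈ S.erase i, x j = k + 1 → Good (S.erase i) i v k (k + 1) (v0 + x) := by
          intro x hx hx'
          refine ⟨?_, ?_, ?_, ?_⟩
          · simp [hv0i, hx i hiS', hva]; omega
          · intro j hj
            simp [hv0j j (Finset.mem_erase.mp hj).1]
          · intro j hj hj'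
            simp [hv0j j hj, hx j hj']
          · rw [← hx', ← Finset.sum_add_distrib]
            refine Finset.sum_congr rfl fun j hj => ?_
            simp [hv0j j (Finset.mem_erase.mp hj).1]
        let W2 : Finset (σ →₀ ℕ) := (S.erase i).image fun p => v0 + Finsupp.single p (k + 1)
        let W3 : Finset (σ →₀ ℕ) := ((S.erase i).erase p0).image
          fun q => v0 + (Finsupp.single p0 k + Finsupp.single q 1)
        have hW2c : W2.card = N := by
          rw [Finset.card_image_of_injective, hcard]
          intro p q hpq
          have h1 := add_left_cancel hpq
          have h2 := DFunLike.congr_fun h1 p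
          by_contra hne
          simp [Finsupp.single_apply, Ne.symm hne] at h2
        have hW3c : W3.card = N - 1 := by
          rw [Finset.card_image_of_injective, Finset.card_erase_of_mem hp0, hcard]
          intro p q hpq
          have h1 := add_left_cancel (add_left_cancel hpq)
          have h2 := DFunLike.congr_fun h1 p
          by_contra hne
          simp [Finsupp.single_apply, Ne.symm hne] at h2
        have hW23 : Disjoint W2 W3 := by
          rw [Finset.disjoint_left]
          intro m h2 h3
          simp only [W2, W3, Finset.mem_image] at h2 h3
          obtain ⟨p, hp, rfl⟩ := h2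
          obtain ⟨q, hq, hq'⟩ := h3
          have hqp0 : q ≠ p0 := (Finset.mem_erase.mp hq).1
          have h1 := add_left_cancel hq'
          have e1 := DFunLike.congr_fun h1 p0
          have e2 := DFunLike.congr_fun h1 q
          by_cases hp : p = p0
          · subst hp
            simp [Finsupp.single_apply, hqp0, Ne.symm hqp0] at e2
          · simp [Finsupp.single_apply, hqp0, hp] at e1
            omega
        refine ⟨insert (v + Finsupp.single i 1) (W2 ∪ W3), ?_, ?_⟩
        · rw [Finset.card_insert_of_notMem, Finset.card_union_of_disjoint hW23, hW2c, hW3c]
          · omega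
          · intro h
            have hi2 : (v + Finsupp.single i 1 : σ →₀ ℕ) i = b := by
              rw [Finset.mem_union] at h
              rcases h with h | h
              · simp only [W2, Finset.mem_image] at h
                obtain ⟨p, hp, hp'⟩ := h
                rw [← hp']
                have hpi : p ≠ i := (Finset.mem_erase.mp hp).1
                simp [Finsupp.single_apply, hpi, hv0i]
              · simp only [W3, Finset.mem_image] at h
                obtain ⟨q, hq, hq'⟩ := h
                rw [← hq']
                have hqi : q ≠ i := (Finset.mem_erase.mp (Finset.mem_erase.mp hq).2).1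
                simp [Finsupp.single_apply, hqi, hp0i, hv0i]
            simp [hva] at hi2
            omega
        · intro m hm
          simp only [Finset.mem_insert, Finset.mem_union] at hm
          rcases hm with rfl | hm | hm
          · rw [htop v hv hva]; exact hv
          · simp only [W2, Finset.mem_image] at hm
            obtain ⟨p, hp, rfl⟩ := hm
            apply key2
            apply hgood
            · intro j hj
              have : p ≠ j := fun h => hj (h ▸ hp)
              simp [Finsupp.single_apply, this]
            · simp [Finsupp.single_apply, Finset.sum_add_distrib, hp]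
          · simp only [W3, Finset.mem_image] at hm
            obtain ⟨q, hq, rfl⟩ := hm
            have hq' := (Finset.mem_erase.mp hq).2
            apply key2
            apply hgood
            · intro j hj
              have h1 : q ≠ j := fun h => hj (h ▸ hq')
              have h2 : p0 ≠ j := fun h => hj (h ▸ hp0)
              simp [Finsupp.single_apply, h1, h2]
            · simp [Finsupp.single_apply, Finset.sum_add_distrib, hp0, hq']
    · -- every bottom stratum is a single point
      push Not at hI
      have hpt : ∀ i ∈ S, ∃ μ, f μ ≠ 0 ∧ (∀ m, f m ≠ 0 → μ i ≤ m i) ∧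
          ∀ m, f m ≠ 0 → m ≠ μ → μ i < m i := by
        intro i hi
        classical
        obtain ⟨m0, _, _, hm0, _⟩ := hf
        let P : ℕ → Prop := fun a => ∃ v, f v ≠ 0 ∧ v i = a
        have hP : ∃ a, P a := ⟨m0 i, m0, hm0, rfl⟩
        obtain ⟨μ, hμ, hμi⟩ := Nat.find_spec hP
        have hmin : ∀ m, f m ≠ 0 → μ i ≤ m i := by
          intro m hm
          rw [hμi]
          exact Nat.find_min' hP ⟨m, hm, rfl⟩
        refine ⟨μ, hμ, hmin, ?_⟩
        intro m hm hne
        refine lt_of_le_of_ne (hmin m hm) ?_
        intro heq
        obtain ⟨m'', h1, h2⟩ := hI i hi μ m hne.symm hμ hm heq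
        have := hmin m'' h1
        omega
      choose! μ hμ1 hμ2 hμ3 using hpt
      -- two of them are distinct
      have hex : ∃ i ∈ S, ∃ k ∈ S, μ i ≠ μ k := by
        by_contra hcon
        push Not at hcon
        obtain ⟨i0, hi0⟩ := hSne
        obtain ⟨m, m', hmm, hm, hm'⟩ := hf
        obtain ⟨w, hw, hwne⟩ : ∃ w, f w ≠ 0 ∧ w ≠ μ i0 := by
          by_cases h : m = μ i0
          · exact ⟨m', hm', fun h' => hmm (h.trans h'.symm)⟩
          · exact ⟨m, hm, h⟩
        have h1 : ∀ i ∈ S, (μ i0) i < w i := by
          intro i hi
          have e := hcon i0 hi0 i hi
          rw [e]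
          exact hμ3 i hi w hw (by rw [← e]; exact hwne)
        have h2 := Finset.sum_lt_sum_of_nonempty ⟨i0, hi0⟩ h1
        rw [hD _ (hμ1 i0 hi0), hD _ hw] at h2
        exact lt_irrefl _ h2
      obtain ⟨i, hi, k, hk, hik⟩ := hex
      have hne : i ≠ k := fun h => hik (by rw [h])
      let A : σ → Finset (σ →₀ ℕ) := fun i => (S.erase i).image fun j => μ i + Finsupp.single j 1
      have hAc : ∀ i ∈ S, (A i).card = N := by
        intro i hi
        rw [Finset.card_image_of_injective, Finset.card_erase_of_mem hi, hS]
        · rfl
        · intro p q hpq
          have h1 := add_left_cancel hpq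
          have h2 := DFunLike.congr_fun h1 p
          by_contra hne
          simp [Finsupp.single_apply, Ne.symm hne] at h2
      have hAd : ∀ i ∈ S, ∀ m ∈ A i, down S f m ≠ 0 := by
        intro i hi m hm
        simp only [A, Finset.mem_image] at hm
        obtain ⟨j, hj, rfl⟩ := hm
        have hji : j ≠ i := (Finset.mem_erase.mp hj).1
        have hjS : j ∈ S := (Finset.mem_erase.mp hj).2
        unfold down
        rw [Finset.sum_eq_single j]
        · simpa using hμ1 i hi
        · intro l hl hlj
          split_ifs with h0
          · rfl
          · by_contra hcon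
            have h1 := hμ2 i hi _ hcon
            by_cases hli : l = i
            · subst hli
              simp [Finsupp.single_apply, hji] at h1 h0
              omega
            · have h2 : μ i + Finsupp.single j 1 - Finsupp.single l 1 ≠ μ i := by
                intro h
                have := DFunLike.congr_fun h j
                simp [Finsupp.single_apply, hlj] at this
              have h3 := hμ3 i hi _ hcon h2
              simp [Finsupp.single_apply, hji, hli] at h3
        · intro h
          exact absurd hjS h
      have hAdisj : Disjoint (A i) (A k) := by
        rw [Finset.disjoint_left]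
        intro m h1 h2
        simp only [A, Finset.mem_image] at h1 h2
        obtain ⟨j, hj, rfl⟩ := h1
        obtain ⟨l, hl, hl'⟩ := h2
        have hlk : l ≠ k := (Finset.mem_erase.mp hl).1
        have h3 := hμ3 k hk (μ i) (hμ1 i hi) hik
        have h4 := DFunLike.congr_fun hl' k
        simp [Finsupp.single_apply, hlk] at h4
        omega
      refine ⟨A i ∪ A k, ?_, ?_⟩
      · rw [Finset.card_union_of_disjoint hAdisj, hAc i hi, hAc k hk, hS]
        omega
      · intro m hm
        rw [Finset.mem_union] at hm
        rcases hm with hm | hm
        · exact hAd i hi m hm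
        · exact hAd k hk m hm

end Pool.Agent.MP_a773c0_ag
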