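import Pool.Agent.Lib.MP_a773c0_ag.Bridge
import Pool.Agent.Lib.MP_a773c0_ag.SuppA
import Pool.Agent.Lib.MP_a773c0_ag.Sl2

/-!
General criteria for the weak Lefschetz property of monomial level algebras.
-/

namespace Pool.Agent.MP_a773c0_ag

open MvPolynomial Finset

set_option linter.unusedSimpArgs false
set_option linter.unusedSectionVars false

variable {K : Type*} [Field K] {n : ℕ}

/-- injectivity in degree `j`, in terms of coefficients -/
def InjAt (K : Type*) [Field K] (T : Finset (Fin n →₀ ℕ)) (j : ℕ) : Prop :=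
  ∀ f : (Fin n →₀ ℕ) → K, (∀ m, f m ≠ 0 → Std T m ∧ deg m = j) →
      (∀ m, Std T m → down univ f m = 0) → f = 0

/-- surjectivity in degree `j`, in terms of functionals -/
def SurjAt (K : Type*) [Field K] (T : Finset (Fin n →₀ ℕ)) (j : ℕ) : Prop :=
  ∀ F : (Fin n →₀ ℕ) → K, (∀ m, F m ≠ 0 → Std T m ∧ deg m = j + 1) →
      (∀ u, up univ F u = 0) → F = 0

theorem hasWLP_of {I : Ideal (MvPolynomial (Fin n) K)} {e : ℕ}
    {T : Finset (Fin n →₀ ℕ)} (h : LevelData I e T) (H : ∀ j, InjAt K T j ∨ SurjAt K T j) :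
    HasWLP I :=
  ⟨∑ i, X i, sumX_mem, fun j => (H j).imp (injOn_of h j) (surjOn_of h j)⟩

theorem injAt_low [CharZero K] {e : ℕ} {T : Finset (Fin n →₀ ℕ)} (hT : ∀ τ ∈ T, deg τ = e)
    {j : ℕ} (hj : 2 * j < e) : InjAt K T j := by
  classical
  intro f hf hd
  funext m
  by_contra hm
  obtain ⟨⟨τ, hτ, hmτ⟩, hmj⟩ := hf m hm
  have h1 := box_injective τ (fun u => if u ≤ τ then f u else 0) j (by
      intro u hu
      by_contra hcon
      simp [hcon] at hu) (by
      intro u hu
      by_cases hc : u ≤ τ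
      · simp only [hc, if_true] at hu
        exact (hf u hu).2
      · simp [hc] at hu) (by
      have := hT τ hτ
      unfold deg at this
      omega) (by
      intro u hu
      rw [← hd u ⟨τ, hτ, hu⟩]
      unfold down
      refine Finset.sum_congr rfl fun i _ => ?_
      have : u - Finsupp.single i 1 ≤ τ := tsub_le_self.trans hu
      simp [this])
  have h2 := congrFun h1 m
  simp only [hmτ, if_true] at h2
  exact hm h2

theorem surjAt_high {e : ℕ} {T : Finset (Fin n →₀ ℕ)} (hT : ∀ τ ∈ T, deg τ = e)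
    {j : ℕ} (hj : e ≤ j) : SurjAt K T j := by
  intro F hF _
  funext m
  by_contra hm
  obtain ⟨⟨τ, hτ, hmτ⟩, hmj⟩ := hF m hm
  have := deg_le hmτ
  have := hT τ hτ
  omega

theorem mem_of_std_top {e : ℕ} {T : Finset (Fin n →₀ ℕ)} (hT : ∀ τ ∈ T, deg τ = e)
    {m : Fin n →₀ ℕ} (hm : Std T m) (hd : deg m = e) : m ∈ T := by
  obtain ⟨τ, hτ, hmτ⟩ := hm
  have := eq_of_le_of_deg hmτ (by rw [hT τ hτ, hd])
  exact this ▸ hτ

theorem surjAt_top {e : ℕ} {T : Finset (Fin n →₀ ℕ)} (hT : ∀ τ ∈ T, deg τ = e + 1)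
    (hcard : T.card ≤ e + 1) : SurjAt K T e := by
  intro F hF hu
  by_contra hne
  have h1 : ∃ m, F m ≠ 0 := by
    by_contra hcon
    push Not at hcon
    exact hne (funext hcon)
  obtain ⟨W, hWc, hW⟩ := up_support univ (e + 1) F h1 (fun m hm => (hF m hm).2) hu
  have h2 : W ⊆ T := fun m hm => mem_of_std_top hT (hF m (hW m hm)).1 (hF m (hW m hm)).2
  have := Finset.card_le_card h2
  omega

theorem injAt_pred {e : ℕ} {T : Finset (Fin n →₀ ℕ)} (hT : ∀ τ ∈ T, deg τ = e) {j : ℕ}
    (hj : j < e) (h : InjAt K T (j + 1)) : InjAt K T j := by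
  classical
  intro f hf hd
  funext m
  by_contra hm
  obtain ⟨⟨τ, hτ, hmτ⟩, hmj⟩ := hf m hm
  obtain ⟨i, hi⟩ := exists_raise hmτ (by rw [hT τ hτ, hmj]; exact hj)
  have h1 := h (fun u => if u i ≠ 0 ∧ Std T u then f (u - Finsupp.single i 1) else 0) (by
    intro u hu
    by_cases hc : u i ≠ 0 ∧ Std T u
    · rw [if_pos hc] at hu
      refine ⟨hc.2, ?_⟩
      have h2 := (hf _ hu).2
      have h3 := deg_sub_single hc.1
      omega
    · simp [hc] at hu) (by
    intro u hu
    by_cases hui : u i = 0
    · unfold down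
      refine Finset.sum_eq_zero fun k _ => ?_
      by_cases huk : u k = 0
      · simp [huk]
      · simp [huk, hui]
    · refine Eq.trans ?_ (hd (u - Finsupp.single i 1) (hu.mono tsub_le_self))
      unfold down
      refine Finset.sum_congr rfl fun k _ => ?_
      have hs : Std T (u - Finsupp.single k 1) := hu.mono tsub_le_self
      by_cases hki : k = i
      · subst hki
        simp [hui, hs]
      · beta_reduce
        by_cases huk : u k = 0
        · simp [huk]
        · have e1 : (u - Finsupp.single k 1 : Fin n →₀ ℕ) i = u i := by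
            simp [Finsupp.single_apply, hki]
          have e2 : (u - Finsupp.single i 1 : Fin n →₀ ℕ) k = u k := by
            simp [Finsupp.single_apply, Ne.symm hki]
          rw [e1, e2]
          simp only [huk, hui, hs, if_false, ne_eq, not_false_eq_true, true_and, if_true]
          rw [tsub_right_comm])
  have h2 := congrFun h1 (m + Finsupp.single i 1)
  simp only [Pi.zero_apply] at h2
  rw [if_pos ⟨by simp, τ, hτ, hi⟩, add_tsub_cancel_right] at h2
  exact hm h2

theorem injAt_of_le {e : ℕ} {T : Finset (Fin n →₀ ℕ)} (hT : ∀ τ ∈ T, deg τ = e) {j : ℕ}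
    (hj : j ≤ e) (h : InjAt K T j) : ∀ c, c ≤ j → InjAt K T (j - c) := by
  intro c
  induction c with
  | zero => intro _; exact h
  | succ c ih =>
    intro hc
    apply injAt_pred hT (by omega)
    have : j - (c + 1) + 1 = j - c := by omega
    rw [this]
    exact ih (by omega)

theorem injAt_top [CharZero K] {e : ℕ} {T : Finset (Fin n →₀ ℕ)} (hT : ∀ τ ∈ T, deg τ = e + 1)
    (hcard : (n + (e + 1) - 1).choose (e + 1) + 2 < T.card + 2 * n) : InjAt K T e := by
  classical
  intro f hf hd
  by_contra hne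
  obtain ⟨m0, hm0⟩ : ∃ m, f m ≠ 0 := by
    by_contra hcon
    push Not at hcon
    exact hne (funext hcon)
  by_cases h2 : ∃ m', m' ≠ m0 ∧ f m' ≠ 0
  · obtain ⟨m', hm'0, hm'⟩ := h2
    obtain ⟨W, hWc, hW⟩ := down_support n (univ : Finset (Fin n)) (by simp) e f
      ⟨m', m0, hm'0, hm', hm0⟩ (fun m hm => (hf m hm).2)
    have hWe : ∀ m ∈ W, deg m = e + 1 := by
      intro m hm
      have h3 := hW m hm
      unfold down at h3
      obtain ⟨i, _, hi⟩ := Finset.exists_ne_zero_of_sum_ne_zero h3
      by_cases h0 : m i = 0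
      · simp [h0] at hi
      · simp only [h0, if_false] at hi
        have h4 := (hf _ hi).2
        have h5 := deg_sub_single h0
        omega
    have hdisj : Disjoint T W := by
      rw [Finset.disjoint_left]
      intro m hmT hmW
      exact hW m hmW (hd m ⟨m, hmT, le_rfl⟩)
    have hsub : T ∪ W ⊆ Finset.finsuppAntidiag univ (e + 1) := by
      intro m hm
      rw [Finset.mem_finsuppAntidiag]
      refine ⟨?_, by simp⟩
      rw [Finset.mem_union] at hm
      rcases hm with hm | hm
      · exact hT m hm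
      · exact hWe m hm
    have h6 := Finset.card_le_card hsub
    rw [Finset.card_union_of_disjoint hdisj, Finset.card_finsuppAntidiag_nat_eq_choose] at h6
    simp only [Finset.card_univ, Fintype.card_fin] at h6 hWc
    omega
  · push Not at h2
    obtain ⟨⟨τ, hτ, hmτ⟩, hmj⟩ := hf m0 hm0
    obtain ⟨i, hi⟩ := exists_raise hmτ (by rw [hT τ hτ, hmj]; omega)
    have h3 : m0 + Finsupp.single i 1 = τ :=
      eq_of_le_of_deg hi (by rw [hT τ hτ, deg_add, deg_single, hmj])
    have h4 := hd τ ⟨τ, hτ, le_rfl⟩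
    unfold down at h4
    rw [Finset.sum_eq_single i] at h4
    · rw [← h3] at h4
      simp at h4
      exact hm0 h4
    · intro k _ hk
      split_ifs with h0
      · rfl
      · by_contra hcon
        have h5 : τ - Finsupp.single k 1 = m0 := by
          by_contra h'
          exact hcon (h2 _ h')
        have h6 := DFunLike.congr_fun h5 i
        rw [← h3] at h6
        simp [Finsupp.single_apply, hk] at h6
    · simp

theorem hasWLP_of_card [CharZero K] {I : Ideal (MvPolynomial (Fin n) K)} {e : ℕ}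
    {T : Finset (Fin n →₀ ℕ)} (h : LevelData I e T)
    (hcard : (n + e - 1).choose e + 2 < T.card + 2 * n) : HasWLP I := by
  apply hasWLP_of h
  intro j
  by_cases hj : e ≤ j
  · exact Or.inr (surjAt_high h.degT hj)
  · left
    obtain ⟨e', rfl⟩ : ∃ e', e = e' + 1 := ⟨e - 1, by omega⟩
    have h1 := injAt_top (K := K) h.degT hcard
    have h2 := injAt_of_le h.degT (by omega) h1 (e' - j) (by omega)
    have : e' - (e' - j) = j := by omega
    rwa [this] at h2

end Pool.Agent.MP_a773c0_ag
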