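import Pool.Agent.Lib.MP_a773c0_ag.General

/-!
Small cases, part 1: type at most three in socle degree two and three.
-/

namespace Pool.Agent.MP_a773c0_ag

open MvPolynomial Finset

set_option linter.unusedSimpArgs false
set_option linter.unusedSectionVars false

variable {K : Type*} [Field K] {n : ℕ}

theorem exists_first {m : Fin n →₀ ℕ} (h : 0 < deg m) : ∃ i, m i ≠ 0 := by
  by_contra hcon
  push Not at hcon
  simp [deg, hcon] at h

theorem exists_second {m : Fin n →₀ ℕ} (l : Fin n) (h : m l < deg m) :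
    ∃ i, i ≠ l ∧ m i ≠ 0 := by
  by_contra hcon
  push Not at hcon
  unfold deg at h
  rw [Finset.sum_eq_single l (fun b _ hb => hcon b hb) (by simp)] at h
  exact lt_irrefl _ h

theorem exists_third {m : Fin n →₀ ℕ} {l k : Fin n} (hlk : l ≠ k) (h : m l + m k < deg m) :
    ∃ i, i ≠ l ∧ i ≠ k ∧ m i ≠ 0 := by
  by_contra hcon
  push Not at hcon
  unfold deg at h
  rw [← Finset.sum_subset (Finset.subset_univ ({l, k} : Finset (Fin n))) (by
    intro x _ hx
    simp only [Finset.mem_insert, Finset.mem_singleton, not_or] at hx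
    exact hcon x hx.1 hx.2), Finset.sum_pair hlk] at h
  exact lt_irrefl _ h

theorem eq_single_add {m : Fin n →₀ ℕ} {i : Fin n} (h : m i ≠ 0) :
    m = Finsupp.single i 1 + (m - Finsupp.single i 1) := by
  rw [add_tsub_cancel_of_le]
  rw [Finsupp.single_le_iff]
  omega

theorem deg_eq_zero {m : Fin n →₀ ℕ} (h : deg m = 0) : m = 0 := by
  ext i
  have := Finset.sum_eq_zero_iff.mp h i (Finset.mem_univ i)
  simpa using this

theorem deg_eq_one {m : Fin n →₀ ℕ} (h : deg m = 1) : ∃ i, m = Finsupp.single i 1 := by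
  obtain ⟨i, hi⟩ := exists_first (m := m) (by omega)
  refine ⟨i, ?_⟩
  have h1 := deg_sub_single hi
  have h2 : deg (m - Finsupp.single i 1) = 0 := by omega
  rw [eq_single_add hi, deg_eq_zero h2, add_zero]

theorem deg_eq_two {m : Fin n →₀ ℕ} (h : deg m = 2) :
    ∃ i j, m = Finsupp.single i 1 + Finsupp.single j 1 := by
  obtain ⟨i, hi⟩ := exists_first (m := m) (by omega)
  have h1 := deg_sub_single hi
  obtain ⟨j, hj⟩ := deg_eq_one (m := m - Finsupp.single i 1) (by omega)
  exact ⟨i, j, by rw [← hj]; exact eq_single_add hi⟩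

theorem up_exists {F : (Fin n →₀ ℕ) → K} {u : Fin n →₀ ℕ} (h : up univ F u = 0) {i : Fin n}
    (hi : F (u + Finsupp.single i 1) ≠ 0) : ∃ j, j ≠ i ∧ F (u + Finsupp.single j 1) ≠ 0 := by
  by_contra hcon
  push Not at hcon
  unfold up at h
  rw [Finset.sum_eq_single i (fun b _ hb => hcon b hb) (by simp)] at h
  exact hi h

theorem down_ee {f : (Fin n →₀ ℕ) → K} {i j : Fin n} (hij : i ≠ j) :
    down univ f (Finsupp.single i 1 + Finsupp.single j 1) =
      f (Finsupp.single i 1) + f (Finsupp.single j 1) := by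
  unfold down
  rw [← Finset.add_sum_erase _ _ (Finset.mem_univ i),
    ← Finset.add_sum_erase _ _ (Finset.mem_erase.mpr ⟨hij.symm, Finset.mem_univ j⟩)]
  rw [Finset.sum_eq_zero]
  · simp [add_comm]
  · intro k hk
    have hkj : k ≠ j := (Finset.mem_erase.mp hk).1
    have hki : k ≠ i := (Finset.mem_erase.mp (Finset.mem_erase.mp hk).2).1
    simp [Finsupp.single_apply, hkj.symm, hki.symm]

theorem down_ii {f : (Fin n →₀ ℕ) → K} (i : Fin n) :
    down univ f (Finsupp.single i 1 + Finsupp.single i 1) = f (Finsupp.single i 1) := by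
  unfold down
  rw [Finset.sum_eq_single i]
  · simp
  · intro k _ hk
    simp [Finsupp.single_apply, hk.symm]
  · simp

theorem inj_or_surj_two_three [CharZero K] {T : Finset (Fin n →₀ ℕ)} (hT : ∀ τ ∈ T, deg τ = 2)
    (hc : T.card ≤ 3) : InjAt K T 1 ∨ SurjAt K T 1 := by
  classical
  by_contra hcon
  push Not at hcon
  obtain ⟨h1, h2⟩ := hcon
  unfold InjAt at h1
  unfold SurjAt at h2
  push Not at h1 h2
  obtain ⟨f, hf, hfd, hf0⟩ := h1
  obtain ⟨F, hF, hFu, hF0⟩ := h2
  obtain ⟨m, hm⟩ := Function.ne_iff.mp hf0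
  obtain ⟨w, hw⟩ := Function.ne_iff.mp hF0
  obtain ⟨W, hWc, hW⟩ := up_support univ 2 F ⟨w, hw⟩ (fun m hm => (hF m hm).2) hFu
  have hWT : W ⊆ T := fun m hm => mem_of_std_top hT (hF m (hW m hm)).1 (hF m (hW m hm)).2
  have hWeq : W = T := Finset.eq_of_subset_of_card_le hWT (by omega)
  rw [hWeq] at hW hWc
  have hFT : ∀ m, F m ≠ 0 → m ∈ T := fun m hm => mem_of_std_top hT (hF m hm).1 (hF m hm).2
  obtain ⟨⟨τ, hτ, hmτ⟩, hm1⟩ := hf m hm
  obtain ⟨i, rfl⟩ := deg_eq_one hm1
  -- value relations
  have hrel : ∀ a b, Finsupp.single a 1 + Finsupp.single b 1 ∈ T → f (Finsupp.single a 1) ≠ 0 →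
      a ≠ b ∧ f (Finsupp.single b 1) = - f (Finsupp.single a 1) := by
    intro a b hab ha
    have h3 := hfd _ ⟨_, hab, le_rfl⟩
    have hne : a ≠ b := by
      rintro rfl
      rw [down_ii] at h3
      exact ha h3
    refine ⟨hne, ?_⟩
    rw [down_ee hne] at h3
    linear_combination h3
  have hi0 : f (Finsupp.single i 1) ≠ 0 := hm
  have hτi : τ i ≠ 0 := by
    have := hmτ i
    simp at this
    omega
  obtain ⟨j, hj⟩ := deg_eq_one (m := τ - Finsupp.single i 1) (by
    have := deg_sub_single hτi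
    have := hT τ hτ
    omega)
  have hτij : Finsupp.single i 1 + Finsupp.single j 1 ∈ T := by
    rw [← hj, ← eq_single_add hτi]
    exact hτ
  obtain ⟨hij, hfj⟩ := hrel i j hτij hi0
  obtain ⟨k, hkj, hk⟩ := up_exists (hFu (Finsupp.single i 1)) (hW _ hτij)
  have hτik := hFT _ hk
  obtain ⟨hik, hfk⟩ := hrel i k hτik hi0
  have hj0 : f (Finsupp.single j 1) ≠ 0 := by rw [hfj]; exact neg_ne_zero.mpr hi0
  obtain ⟨l, hli, hl⟩ := up_exists (u := Finsupp.single j 1) (i := i) (hFu (Finsupp.single j 1))
    (by rw [add_comm]; exact hW _ hτij)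
  have hτjl := hFT _ hl
  obtain ⟨hjl, hfl⟩ := hrel j l hτjl hj0
  have hk0 : f (Finsupp.single k 1) ≠ 0 := by rw [hfk]; exact neg_ne_zero.mpr hi0
  obtain ⟨p, hpi, hp⟩ := up_exists (u := Finsupp.single k 1) (i := i) (hFu (Finsupp.single k 1))
    (by rw [add_comm]; exact hW _ hτik)
  have hτkp := hFT _ hp
  -- the three elements of T
  have hd1 : Finsupp.single i 1 + Finsupp.single j 1 ≠
      (Finsupp.single i 1 + Finsupp.single k 1 : Fin n →₀ ℕ) := by
    intro h
    exact hkj (Finsupp.single_left_injective one_ne_zero (add_left_cancel h)).symm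
  have hd2 : Finsupp.single i 1 + Finsupp.single j 1 ≠
      (Finsupp.single j 1 + Finsupp.single l 1 : Fin n →₀ ℕ) := by
    intro h
    rw [add_comm] at h
    exact hli (Finsupp.single_left_injective one_ne_zero (add_left_cancel h)).symm
  have hd3 : Finsupp.single i 1 + Finsupp.single k 1 ≠
      (Finsupp.single j 1 + Finsupp.single l 1 : Fin n →₀ ℕ) := by
    intro h
    have := DFunLike.congr_fun h j
    simp [Finsupp.single_apply, hij, hkj] at this
    split_ifs at this
  have hTeq : T = {Finsupp.single i 1 + Finsupp.single j 1,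
      Finsupp.single i 1 + Finsupp.single k 1, Finsupp.single j 1 + Finsupp.single l 1} := by
    symm
    apply Finset.eq_of_subset_of_card_le
    · intro x hx
      simp only [Finset.mem_insert, Finset.mem_singleton] at hx
      rcases hx with rfl | rfl | rfl
      · exact hτij
      · exact hτik
      · exact hτjl
    · rw [Finset.card_insert_of_notMem, Finset.card_pair hd3]
      · exact hc
      · simp [hd1, hd2]
  rw [hTeq] at hτkp
  simp only [Finset.mem_insert, Finset.mem_singleton] at hτkp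
  have hlk : l = k := by
    rcases hτkp with h | h | h
    · have := DFunLike.congr_fun h k
      simp [Finsupp.single_apply, hik, hkj.symm] at this
    · rw [add_comm] at h
      exact absurd (Finsupp.single_left_injective one_ne_zero (add_right_cancel h)) hpi
    · by_contra hne
      have := DFunLike.congr_fun h k
      simp [Finsupp.single_apply, hkj.symm, hne] at this
  rw [hlk, hfj, hfk] at hfl
  have : (2 : K) * f (Finsupp.single i 1) = 0 := by linear_combination - hfl
  rcases mul_eq_zero.mp this with h | h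
  · exact two_ne_zero h
  · exact hi0 h

theorem hasWLP_two [CharZero K] {I : Ideal (MvPolynomial (Fin n) K)}
    {T : Finset (Fin n →₀ ℕ)} (h : LevelData I 2 T) (hc : T.card ≤ 3) : HasWLP I := by
  apply hasWLP_of h
  intro j
  rcases Nat.lt_or_ge j 2 with hj | hj
  · interval_cases j
    · exact Or.inl (injAt_low h.degT (by norm_num))
    · exact inj_or_surj_two_three h.degT hc
  · exact Or.inr (surjAt_high h.degT hj)

theorem hasWLP_three [CharZero K] {I : Ideal (MvPolynomial (Fin n) K)}
    {T : Finset (Fin n →₀ ℕ)} (h : LevelData I 3 T) (hc : T.card ≤ 3) : HasWLP I := by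
  apply hasWLP_of h
  intro j
  rcases Nat.lt_or_ge j 3 with hj | hj
  · interval_cases j
    · exact Or.inl (injAt_low h.degT (by norm_num))
    · exact Or.inl (injAt_low h.degT (by norm_num))
    · exact Or.inr (surjAt_top h.degT hc)
  · exact Or.inr (surjAt_high h.degT hj)

end Pool.Agent.MP_a773c0_ag
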