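import Pool.Agent.Lib.MP_a773c0_ag.Small1

/-!
Small cases, part 2: type two.
-/

namespace Pool.Agent.MP_a773c0_ag

open MvPolynomial Finset

set_option linter.unusedSimpArgs false
set_option linter.unusedSectionVars false

variable {K : Type*} [Field K] {n : ℕ}

theorem pair_rel {m : Fin n →₀ ℕ} {F : (Fin n →₀ ℕ) → K} (hu : ∀ u, up univ F u = 0)
    {i l : Fin n} (hil : i ≠ l) (hi : m i ≠ 0) (hl : m l ≠ 0)
    (ho : ∀ p, F (m - Finsupp.single i 1 - Finsupp.single l 1 + Finsupp.single p 1) ≠ 0 →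
      p = i ∨ p = l) :
    F (m - Finsupp.single i 1) + F (m - Finsupp.single l 1) = 0 := by
  have h := hu (m - Finsupp.single i 1 - Finsupp.single l 1)
  unfold up at h
  rw [← Finset.sum_subset (Finset.subset_univ ({i, l} : Finset (Fin n))) (by
    intro p _ hp
    by_contra hcon
    rcases ho p hcon with rfl | rfl <;> simp at hp), Finset.sum_pair hil] at h
  have e1 : m - Finsupp.single i 1 - Finsupp.single l 1 + Finsupp.single l 1 =
      m - Finsupp.single i 1 := by
    apply tsub_add_cancel_of_le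
    rw [Finsupp.single_le_iff]
    simp [Finsupp.single_apply, hil]
    omega
  have e2 : m - Finsupp.single i 1 - Finsupp.single l 1 + Finsupp.single i 1 =
      m - Finsupp.single l 1 := by
    rw [tsub_right_comm]
    apply tsub_add_cancel_of_le
    rw [Finsupp.single_le_iff]
    simp [Finsupp.single_apply, hil.symm]
    omega
  rw [e1, e2] at h
  rw [add_comm]
  exact h

theorem sq_rel {m : Fin n →₀ ℕ} {F : (Fin n →₀ ℕ) → K} (hu : ∀ u, up univ F u = 0)
    {i : Fin n} (hi : 2 ≤ m i)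
    (ho : ∀ p, F (m - Finsupp.single i 1 - Finsupp.single i 1 + Finsupp.single p 1) ≠ 0 →
      p = i) : F (m - Finsupp.single i 1) = 0 := by
  have h := hu (m - Finsupp.single i 1 - Finsupp.single i 1)
  unfold up at h
  rw [Finset.sum_eq_single i (fun p _ hp => by
    by_contra hcon
    exact hp (ho p hcon)) (by simp)] at h
  have e1 : m - Finsupp.single i 1 - Finsupp.single i 1 + Finsupp.single i 1 =
      m - Finsupp.single i 1 := by
    apply tsub_add_cancel_of_le
    rw [Finsupp.single_le_iff]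
    simp [Finsupp.single_apply]
    omega
  rwa [e1] at h

section two

variable {m1 m2 : Fin n →₀ ℕ} {F : (Fin n →₀ ℕ) → K}

theorem other_aux (hF : ∀ v, F v ≠ 0 → v ≤ m1 ∨ v ≤ m2) {i l : Fin n}
    (hv : ¬ m1 - m2 ≤ Finsupp.single i 1 + Finsupp.single l 1) {p : Fin n}
    (hp : F (m1 - Finsupp.single i 1 - Finsupp.single l 1 + Finsupp.single p 1) ≠ 0) :
    p = i ∨ p = l := by
  rcases hF _ hp with h | h
  · by_contra hcon
    push Not at hcon
    have := h p
    simp [Finsupp.single_apply, hcon.1.symm, hcon.2.symm] at this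
  · exfalso
    apply hv
    have h1 : m1 - Finsupp.single i 1 - Finsupp.single l 1 ≤ m2 :=
      (le_add_of_nonneg_right zero_le).trans h
    rw [tsub_tsub, tsub_le_iff_tsub_le] at h1
    exact h1

theorem pair_rel' (hF : ∀ v, F v ≠ 0 → v ≤ m1 ∨ v ≤ m2) (hu : ∀ u, up univ F u = 0)
    {i l : Fin n} (hil : i ≠ l) (hi : m1 i ≠ 0) (hl : m1 l ≠ 0)
    (hv : ¬ m1 - m2 ≤ Finsupp.single i 1 + Finsupp.single l 1) :
    F (m1 - Finsupp.single i 1) + F (m1 - Finsupp.single l 1) = 0 :=
  pair_rel hu hil hi hl fun _ hp => other_aux hF hv hp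

theorem sq_rel' (hF : ∀ v, F v ≠ 0 → v ≤ m1 ∨ v ≤ m2) (hu : ∀ u, up univ F u = 0)
    {i : Fin n} (hi : 2 ≤ m1 i)
    (hv : ¬ m1 - m2 ≤ Finsupp.single i 1 + Finsupp.single i 1) :
    F (m1 - Finsupp.single i 1) = 0 :=
  sq_rel hu hi fun _ hp => by simpa using other_aux hF hv hp

theorem triple_rel [CharZero K] (hF : ∀ v, F v ≠ 0 → v ≤ m1 ∨ v ≤ m2)
    (hu : ∀ u, up univ F u = 0)
    {i k l : Fin n} (hil : i ≠ l) (hkl : k ≠ l) (hik : i ≠ k)
    (hi : m1 i ≠ 0) (hk : m1 k ≠ 0) (hl : m1 l ≠ 0)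
    (h1 : ¬ m1 - m2 ≤ Finsupp.single i 1 + Finsupp.single l 1)
    (h2 : ¬ m1 - m2 ≤ Finsupp.single k 1 + Finsupp.single l 1)
    (h3 : ¬ m1 - m2 ≤ Finsupp.single i 1 + Finsupp.single k 1) :
    F (m1 - Finsupp.single l 1) = 0 := by
  have e1 := pair_rel' hF hu hil hi hl h1
  have e2 := pair_rel' hF hu hkl hk hl h2
  have e3 := pair_rel' hF hu hik hi hk h3
  have : (2 : K) * F (m1 - Finsupp.single l 1) = 0 := by linear_combination e1 + e2 - e3
  exact (mul_eq_zero.mp this).resolve_left two_ne_zero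

/-- the case where the two monomials differ a lot -/
theorem aux_far [CharZero K] (hF : ∀ v, F v ≠ 0 → v ≤ m1 ∨ v ≤ m2)
    (hu : ∀ u, up univ F u = 0) (hd : 3 ≤ deg m1) (hδ : 3 ≤ deg (m1 - m2)) {l : Fin n}
    (hl : m1 l ≠ 0) : F (m1 - Finsupp.single l 1) = 0 := by
  have hv : ∀ i k : Fin n, ¬ m1 - m2 ≤ Finsupp.single i 1 + Finsupp.single k 1 := by
    intro i k h
    have := deg_le h
    rw [deg_add, deg_single, deg_single] at this
    omega
  by_contra hc
  have hl1 : m1 l ≤ 1 := by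
    by_contra h
    exact hc (sq_rel' hF hu (by omega) (hv l l))
  obtain ⟨i, hil, hi⟩ := exists_second (m := m1) l (by omega)
  have hci : F (m1 - Finsupp.single i 1) ≠ 0 := by
    intro h
    have := pair_rel' hF hu hil hi hl (hv i l)
    rw [h, zero_add] at this
    exact hc this
  have hi1 : m1 i ≤ 1 := by
    by_contra h
    exact hci (sq_rel' hF hu (by omega) (hv i i))
  obtain ⟨k, hkl, hki, hk⟩ := exists_third (m := m1) hil.symm (by omega)
  exact hc (triple_rel hF hu hil hkl hki.symm hi hk hl (hv _ _) (hv _ _) (hv _ _))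

theorem not_le_pair_of {δ : Fin n →₀ ℕ} {i k x : Fin n} (hx : δ x ≠ 0) (hxi : x ≠ i)
    (hxk : x ≠ k) : ¬ δ ≤ Finsupp.single i 1 + Finsupp.single k 1 := by
  intro h
  have := h x
  simp [Finsupp.single_apply, hxi.symm, hxk.symm] at this
  exact hx this

theorem inf_add_tsub (a b : Fin n →₀ ℕ) : a ⊓ b + (a - b) = a := by
  ext i
  simp
  omega

theorem card_support_inf (hsq : ∀ i, m1 i ≤ 1 ∨ m2 i ≤ 1) :
    (m1 ⊓ m2).support.card = deg (m1 ⊓ m2) := by
  unfold deg
  rw [← Finset.sum_subset (Finset.subset_univ (m1 ⊓ m2).support)]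
  · rw [Finset.card_eq_sum_ones]
    refine Finset.sum_congr rfl fun i hi => ?_
    rw [Finsupp.mem_support_iff] at hi
    have h1 := hsq i
    simp only [Finsupp.inf_apply] at hi ⊢
    omega
  · intro i _ hi
    rw [Finsupp.mem_support_iff, not_not] at hi
    exact hi

theorem aux_five [CharZero K] {e : ℕ} (he : 5 ≤ e) (h1 : deg m1 = e) (h2 : deg m2 = e)
    (hne : m1 ≠ m2) (hsq : ∀ i, m1 i ≤ 1 ∨ m2 i ≤ 1)
    (hF : ∀ v, F v ≠ 0 → v ≤ m1 ∨ v ≤ m2)
    (hu : ∀ u, up univ F u = 0) {l : Fin n}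
    (hl : m1 l ≠ 0) (hl2 : ¬ m1 - Finsupp.single l 1 ≤ m2) :
    F (m1 - Finsupp.single l 1) = 0 := by
  classical
  have hg := inf_add_tsub m1 m2
  have hgd : deg (m1 ⊓ m2) + deg (m1 - m2) = e := by rw [← deg_add, hg, h1]
  have hcard := card_support_inf hsq
  have hpt : ∀ i, (m1 ⊓ m2) i + (m1 - m2) i = m1 i := by
    intro i
    conv_rhs => rw [← hg]
    simp
  set G := (m1 ⊓ m2).support with hG
  have hGm : ∀ i ∈ G, m1 i ≠ 0 := by
    intro i hi
    rw [hG, Finsupp.mem_support_iff] at hi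
    have := hpt i
    omega
  by_contra hc
  rcases Nat.lt_or_ge (deg (m1 - m2)) 3 with hδ | hδ
  swap
  · exact hc (aux_far hF hu (by omega) hδ hl)
  interval_cases hp : deg (m1 - m2)
  · -- δ = 0
    have h0 := deg_eq_zero hp
    rw [tsub_eq_zero_iff_le] at h0
    exact hne (eq_of_le_of_deg h0 (by omega))
  · -- δ = e_x
    obtain ⟨x, hx⟩ := deg_eq_one hp
    have hlx : l ≠ x := by
      rintro rfl
      apply hl2
      rw [tsub_le_iff_tsub_le, hx]
    have hδx : (m1 - m2) x ≠ 0 := by rw [hx]; simp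
    have hc2 : 1 < ((G.erase l).erase x).card := by
      have a1 := Finset.pred_card_le_card_erase (s := G) (a := l)
      have a2 := Finset.pred_card_le_card_erase (s := G.erase l) (a := x)
      omega
    obtain ⟨k, hk, k', hk', hkk'⟩ := Finset.one_lt_card.mp hc2
    simp only [Finset.mem_erase] at hk hk'
    exact hc (triple_rel hF hu hk.2.1 hk'.2.1 hkk' (hGm k hk.2.2) (hGm k' hk'.2.2) hl
      (not_le_pair_of hδx hk.1.symm hlx.symm) (not_le_pair_of hδx hk'.1.symm hlx.symm)
      (not_le_pair_of hδx hk.1.symm hk'.1.symm))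
  · -- δ = e_a + e_b
    obtain ⟨a, b, hab⟩ := deg_eq_two hp
    rcases eq_or_ne a b with rfl | hne'
    · -- δ = 2 e_a
      have hv : ∀ i k : Fin n, i ≠ k → ¬ m1 - m2 ≤ Finsupp.single i 1 + Finsupp.single k 1 := by
        intro i k hik h
        have := h a
        rw [hab] at this
        simp [Finsupp.single_apply] at this
        split_ifs at this with h3 h4 <;> omega
      have hc2 : 1 < (G.erase l).card := by
        have a1 := Finset.pred_card_le_card_erase (s := G) (a := l)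
        omega
      obtain ⟨k, hk, k', hk', hkk'⟩ := Finset.one_lt_card.mp hc2
      simp only [Finset.mem_erase] at hk hk'
      exact hc (triple_rel hF hu hk.1 hk'.1 hkk' (hGm k hk.2) (hGm k' hk'.2) hl
        (hv _ _ hk.1) (hv _ _ hk'.1) (hv _ _ hkk'))
    · have hδa : (m1 - m2) a ≠ 0 := by rw [hab]; simp
      have hδb : (m1 - m2) b ≠ 0 := by rw [hab]; simp
      -- l in {a, b}
      have key : ∀ q, (m1 - m2) q ≠ 0 → (m1 - m2) l ≠ 0 → q ≠ l → False := by
        intro q hq hll hql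
        have hl1 : m1 l ≤ 1 := by
          by_contra h
          exact hc (sq_rel' hF hu (by omega) (not_le_pair_of hq hql hql))
        have hlG : l ∉ G := by
          rw [hG, Finsupp.mem_support_iff]
          have := hpt l
          omega
        have hc2 : 1 < (G.erase q).card := by
          have a1 := Finset.pred_card_le_card_erase (s := G) (a := q)
          omega
        obtain ⟨k, hk, k', hk', hkk'⟩ := Finset.one_lt_card.mp hc2
        simp only [Finset.mem_erase] at hk hk'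
        have hkl : k ≠ l := fun h => hlG (h ▸ hk.2)
        have hkl' : k' ≠ l := fun h => hlG (h ▸ hk'.2)
        exact hc (triple_rel hF hu hkl hkl' hkk' (hGm k hk.2) (hGm k' hk'.2) hl
          (not_le_pair_of hq hk.1.symm hql) (not_le_pair_of hq hk'.1.symm hql)
          (not_le_pair_of hll hkl.symm hkl'.symm))
      have hla : l ≠ a := by
        rintro rfl
        exact key b hδb hδa hne'.symm
      have hlb : l ≠ b := by
        rintro rfl
        exact key a hδa hδb hne'
      have hc2 : 1 < (G.erase l).card := by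
        have a1 := Finset.pred_card_le_card_erase (s := G) (a := l)
        omega
      obtain ⟨k, hk, k', hk', hkk'⟩ := Finset.one_lt_card.mp hc2
      simp only [Finset.mem_erase] at hk hk'
      have hvl : ∀ i, ¬ m1 - m2 ≤ Finsupp.single i 1 + Finsupp.single l 1 := by
        intro i
        by_cases hia : a = i
        · exact not_le_pair_of hδb (hia ▸ hne'.symm) hlb.symm
        · exact not_le_pair_of hδa hia hla.symm
      by_cases haG : a ∈ G
      · have hma : 2 ≤ m1 a := by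
          have := hpt a
          rw [hG, Finsupp.mem_support_iff] at haG
          omega
        have e1 := sq_rel' hF hu hma (not_le_pair_of hδb hne'.symm hne'.symm)
        have e2 := pair_rel' hF hu hla.symm (by omega) hl (hvl a)
        rw [e1, zero_add] at e2
        exact hc e2
      · have hka : a ≠ k := fun h => haG (h ▸ hk.2)
        have hka' : a ≠ k' := fun h => haG (h ▸ hk'.2)
        exact hc (triple_rel hF hu hk.1 hk'.1 hkk' (hGm k hk.2) (hGm k' hk'.2) hl
          (hvl _) (hvl _) (not_le_pair_of hδa hka hka'))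

theorem exists_zero_exponent (hu : ∀ u, up univ F u = 0) (hF0 : ∃ v, F v ≠ 0) (i : Fin n) :
    ∃ v, F v ≠ 0 ∧ v i = 0 := by
  classical
  obtain ⟨v0, hv0⟩ := hF0
  let P : ℕ → Prop := fun a => ∃ v, F v ≠ 0 ∧ v i = a
  have hP : ∃ a, P a := ⟨v0 i, v0, hv0, rfl⟩
  obtain ⟨v, hv, hvi⟩ := Nat.find_spec hP
  refine ⟨v, hv, ?_⟩
  by_contra h0
  have h1 : v - Finsupp.single i 1 + Finsupp.single i 1 = v := by
    apply tsub_add_cancel_of_le
    rw [Finsupp.single_le_iff]
    omega
  obtain ⟨j, hji, hj⟩ := up_exists (hu (v - Finsupp.single i 1)) (i := i) (by rw [h1]; exact hv)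
  have h2 : (v - Finsupp.single i 1 + Finsupp.single j 1 : Fin n →₀ ℕ) i = v i - 1 := by
    simp [Finsupp.single_apply, hji]
  have h3 := Nat.find_min' hP ⟨_, hj, h2⟩
  omega

theorem le_add_one_of_deg {v m : Fin n →₀ ℕ} (h : v ≤ m) (hd : deg m = deg v + 1) (i : Fin n) :
    m i ≤ v i + 1 := by
  have h1 : v + (m - v) = m := add_tsub_cancel_of_le h
  have h2 : deg (m - v) = 1 := by
    have := congrArg deg h1
    rw [deg_add] at this
    omega
  obtain ⟨x, hx⟩ := deg_eq_one h2
  have h3 := DFunLike.congr_fun h1 i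
  rw [hx] at h3
  simp [Finsupp.single_apply] at h3
  split_ifs at h3 <;> omega

theorem eq_sub_of_deg {v m : Fin n →₀ ℕ} (h : v ≤ m) (hd : deg m = deg v + 1) :
    ∃ l, m l ≠ 0 ∧ v = m - Finsupp.single l 1 := by
  have h1 : v + (m - v) = m := add_tsub_cancel_of_le h
  have h2 : deg (m - v) = 1 := by
    have := congrArg deg h1
    rw [deg_add] at this
    omega
  obtain ⟨x, hx⟩ := deg_eq_one h2
  rw [hx] at h1
  refine ⟨x, ?_, ?_⟩
  · rw [← h1]; simp
  · rw [← h1, add_tsub_cancel_right]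

theorem squarefree_inf {e : ℕ} (h1 : deg m1 = e + 1) (h2 : deg m2 = e + 1)
    (hF : ∀ v, F v ≠ 0 → (v ≤ m1 ∨ v ≤ m2) ∧ deg v = e)
    (hu : ∀ u, up univ F u = 0) (hF0 : ∃ v, F v ≠ 0) (i : Fin n) : m1 i ≤ 1 ∨ m2 i ≤ 1 := by
  obtain ⟨v, hv, hvi⟩ := exists_zero_exponent hu hF0 i
  obtain ⟨h3, h4⟩ := hF v hv
  rcases h3 with h3 | h3
  · left
    have := le_add_one_of_deg h3 (by omega) i
    omega
  · right
    have := le_add_one_of_deg h3 (by omega) i
    omega

theorem surj_pair_five [CharZero K] {e : ℕ} (he : 5 ≤ e + 2) {T : Finset (Fin n →₀ ℕ)}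
    (hT : ∀ τ ∈ T, deg τ = e + 2) (hc : T.card = 2) : SurjAt K T e := by
  classical
  obtain ⟨m1, m2, hne, hTeq⟩ := Finset.card_eq_two.mp hc
  have h1 : deg m1 = e + 2 := hT m1 (by rw [hTeq]; simp)
  have h2 : deg m2 = e + 2 := hT m2 (by rw [hTeq]; simp)
  intro F hF hu
  by_contra hF0
  obtain ⟨w, hw⟩ := Function.ne_iff.mp hF0
  have hF' : ∀ v, F v ≠ 0 → (v ≤ m1 ∨ v ≤ m2) ∧ deg v = e + 1 := by
    intro v hv
    obtain ⟨⟨τ, hτ, hle⟩, hd⟩ := hF v hv
    rw [hTeq] at hτ
    simp only [Finset.mem_insert, Finset.mem_singleton] at hτ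
    rcases hτ with rfl | rfl
    · exact ⟨Or.inl hle, hd⟩
    · exact ⟨Or.inr hle, hd⟩
  have hsq := squarefree_inf h1 h2 hF' hu ⟨w, hw⟩
  have hboth : ∀ v, F v ≠ 0 → v ≤ m1 ∧ v ≤ m2 := by
    intro v hv
    obtain ⟨h3, h4⟩ := hF' v hv
    rcases h3 with h3 | h3
    · refine ⟨h3, ?_⟩
      by_contra hcon
      obtain ⟨l, hl, rfl⟩ := eq_sub_of_deg h3 (by omega)
      exact hv (aux_five he h1 h2 hne hsq (fun v hv => (hF' v hv).1) hu hl hcon)
    · refine ⟨?_, h3⟩
      by_contra hcon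
      obtain ⟨l, hl, rfl⟩ := eq_sub_of_deg h3 (by omega)
      exact hv (aux_five he h2 h1 hne.symm (fun i => (hsq i).symm)
        (fun v hv => (hF' v hv).1.symm) hu hl hcon)
  obtain ⟨W, hWc, hW⟩ := up_support univ (e + 1) F ⟨w, hw⟩ (fun m hm => (hF' m hm).2) hu
  obtain ⟨v, hv, v', hv', hvv'⟩ := Finset.one_lt_card.mp (by rw [hWc]; omega : 1 < W.card)
  have hinf : ∀ v, F v ≠ 0 → v = m1 ⊓ m2 := by
    intro v hv
    obtain ⟨h3, h4⟩ := hboth v hv
    apply eq_of_le_of_deg (le_inf h3 h4)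
    rw [(hF' v hv).2]
    by_contra hcon
    have h5 : deg (m1 ⊓ m2) = e + 2 := by
      have := deg_le (inf_le_left (a := m1) (b := m2))
      omega
    have h6 := eq_of_le_of_deg (inf_le_left (a := m1) (b := m2)) (by omega)
    have h7 := eq_of_le_of_deg (inf_le_right (a := m1) (b := m2)) (by omega)
    exact hne (h6.symm.trans h7)
  exact hvv' ((hinf v (hW v hv)).trans (hinf v' (hW v' hv')).symm)

end two

end Pool.Agent.MP_a773c0_ag
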