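import Pool.Agent.Lib.MP_a773c0_ag.Small2

/-!
Small cases, part 3: type two, socle degree four.
-/

namespace Pool.Agent.MP_a773c0_ag

open MvPolynomial Finset

set_option linter.unusedSimpArgs false
set_option linter.unusedSectionVars false

variable {K : Type*} [Field K] {n : ℕ}

theorem down_pair {f : (Fin n →₀ ℕ) → K} {a b : Fin n} (hab : a ≠ b) {m : Fin n →₀ ℕ}
    (hm : ∀ i, i ≠ a → i ≠ b → m i = 0) :
    down univ f m = (if m a = 0 then 0 else f (m - Finsupp.single a 1)) +
      (if m b = 0 then 0 else f (m - Finsupp.single b 1)) := by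
  unfold down
  rw [← Finset.sum_subset (Finset.subset_univ ({a, b} : Finset (Fin n))) (by
    intro p _ hp
    simp only [Finset.mem_insert, Finset.mem_singleton, not_or] at hp
    simp [hm p hp.1 hp.2]), Finset.sum_pair hab]

theorem injAt_binary {T : Finset (Fin n →₀ ℕ)} {a b : Fin n} (hab : a ≠ b)
    (h1 : Std T (Finsupp.single a 3)) (h2 : Std T (Finsupp.single a 2 + Finsupp.single b 1))
    (h3 : Std T (Finsupp.single b 3))
    (hcov : ∀ m, Std T m → deg m = 2 → m = Finsupp.single a 2 ∨
      m = Finsupp.single a 1 + Finsupp.single b 1 ∨ m = Finsupp.single b 2) : InjAt K T 2 := by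
  intro f hf hd
  have e1 : f (Finsupp.single a 2) = 0 := by
    have h := hd _ h1
    rw [down_pair hab (by
      intro i hia hib
      simp [Finsupp.single_apply, hia.symm])] at h
    have e : (Finsupp.single a 3 - Finsupp.single a 1 : Fin n →₀ ℕ) = Finsupp.single a 2 := by
      rw [← Finsupp.single_tsub]
    simpa [Finsupp.single_apply, hab, e] using h
  have e3 : f (Finsupp.single b 2) = 0 := by
    have h := hd _ h3
    rw [down_pair hab (by
      intro i hia hib
      simp [Finsupp.single_apply, hib.symm])] at h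
    have e : (Finsupp.single b 3 - Finsupp.single b 1 : Fin n →₀ ℕ) = Finsupp.single b 2 := by
      rw [← Finsupp.single_tsub]
    simpa [Finsupp.single_apply, hab.symm, e] using h
  have e2 : f (Finsupp.single a 1 + Finsupp.single b 1) = 0 := by
    have h := hd _ h2
    rw [down_pair hab (by
      intro i hia hib
      simp [Finsupp.single_apply, hia.symm, hib.symm])] at h
    have e : (Finsupp.single a 2 + Finsupp.single b 1 - Finsupp.single a 1 : Fin n →₀ ℕ) =
        Finsupp.single a 1 + Finsupp.single b 1 := by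
      ext i
      simp [Finsupp.single_apply]
      split_ifs <;> omega
    have e' : (Finsupp.single a 2 + Finsupp.single b 1 - Finsupp.single b 1 : Fin n →₀ ℕ) =
        Finsupp.single a 2 := add_tsub_cancel_right _ _
    rw [e, e', e1] at h
    simpa [Finsupp.single_apply, hab, hab.symm] using h
  funext m
  by_contra hm
  obtain ⟨hs, hd2⟩ := hf m hm
  rcases hcov m hs hd2 with rfl | rfl | rfl
  · exact hm e1
  · exact hm e2
  · exact hm e3

section two

variable {m1 m2 : Fin n →₀ ℕ} {F : (Fin n →₀ ℕ) → K}

/-- a functional supported on one box vanishes -/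
theorem single_box [CharZero K] (h1 : 3 ≤ deg m1) (hF : ∀ v, F v ≠ 0 → v ≤ m1)
    (hFd : ∀ v, F v ≠ 0 → deg m1 = deg v + 1) (hu : ∀ u, up univ F u = 0) : F = 0 := by
  funext v
  by_contra hv
  obtain ⟨l, hl, rfl⟩ := eq_sub_of_deg (hF v hv) (hFd v hv)
  have ho : ∀ i k p : Fin n,
      F (m1 - Finsupp.single i 1 - Finsupp.single k 1 + Finsupp.single p 1) ≠ 0 →
      p = i ∨ p = k := by
    intro i k p hp
    by_contra hcon
    push Not at hcon
    have := hF _ hp p
    simp [Finsupp.single_apply, hcon.1.symm, hcon.2.symm] at this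
  have hsq : ∀ i, 2 ≤ m1 i → F (m1 - Finsupp.single i 1) = 0 := fun i hi =>
    sq_rel hu hi fun p hp => by simpa using ho i i p hp
  have hpr : ∀ i k, i ≠ k → m1 i ≠ 0 → m1 k ≠ 0 →
      F (m1 - Finsupp.single i 1) + F (m1 - Finsupp.single k 1) = 0 := fun i k hik hi hk =>
    pair_rel hu hik hi hk fun p hp => ho i k p hp
  have hv' : F (m1 - Finsupp.single l 1) ≠ 0 := hv
  have hl1 : m1 l ≤ 1 := by
    by_contra h
    exact hv' (hsq l (by omega))
  obtain ⟨i, hil, hi⟩ := exists_second (m := m1) l (by omega)
  have e1 := hpr i l hil hi hl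
  have hi1 : m1 i ≤ 1 := by
    by_contra h
    rw [hsq i (by omega), zero_add] at e1
    exact hv' e1
  obtain ⟨k, hkl, hki, hk⟩ := exists_third (m := m1) hil.symm (by omega)
  have e2 := hpr k l hkl hk hl
  have e3 := hpr i k hki.symm hi hk
  have : (2 : K) * F (m1 - Finsupp.single l 1) = 0 := by linear_combination e1 + e2 - e3
  exact hv' ((mul_eq_zero.mp this).resolve_left two_ne_zero)

/-- socle degree four, the monomials differ by a quadratic: the functional can be nonzero on the
box of `m1` only if `m1 = 3 e_a + e_k`. -/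
theorem aux_four [CharZero K] (h1 : deg m1 = 4)
    (hsq : ∀ i, m1 i ≤ 1 ∨ m2 i ≤ 1) (hF : ∀ v, F v ≠ 0 → v ≤ m1 ∨ v ≤ m2)
    (hu : ∀ u, up univ F u = 0) (hp : deg (m1 - m2) = 2) {l : Fin n} (hl : m1 l ≠ 0)
    (hc : F (m1 - Finsupp.single l 1) ≠ 0) :
    ∃ a k, a ≠ k ∧ m1 ⊓ m2 = Finsupp.single a 1 + Finsupp.single k 1 ∧
      m1 - m2 = Finsupp.single a 2 := by
  classical
  have hg := inf_add_tsub m1 m2
  have hgd : deg (m1 ⊓ m2) + deg (m1 - m2) = 4 := by rw [← deg_add, hg, h1]
  have hcard := card_support_inf hsq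
  have hpt : ∀ i, (m1 ⊓ m2) i + (m1 - m2) i = m1 i := by
    intro i
    conv_rhs => rw [← hg]
    simp
  set G := (m1 ⊓ m2).support with hG
  have hGm : ∀ i ∈ G, m1 i ≠ 0 := by
    intro i hi
    rw [hG, Finsupp.mem_support_iff] at hi
    have := hpt i
    omega
  obtain ⟨a, b, hab⟩ := deg_eq_two hp
  obtain ⟨x, y, hxy, hGxy⟩ := Finset.card_eq_two.mp (show G.card = 2 by omega)
  have hxG : x ∈ G := by rw [hGxy]; simp
  have hyG : y ∈ G := by rw [hGxy]; simp
  rcases eq_or_ne a b with rfl | hne'
  · -- δ = 2 e_a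
    have hv : ∀ i k : Fin n, i ≠ k → ¬ m1 - m2 ≤ Finsupp.single i 1 + Finsupp.single k 1 := by
      intro i k hik h
      have := h a
      rw [hab] at this
      simp [Finsupp.single_apply] at this
      split_ifs at this with h3 h4 <;> omega
    have hma : m1 a ≠ 0 := by
      have := hpt a
      rw [hab] at this
      simp at this
      omega
    have haG : a ∈ G := by
      by_contra haG
      have hax : a ≠ x := fun h => haG (h ▸ hxG)
      have hay : a ≠ y := fun h => haG (h ▸ hyG)
      have hall : ∀ z, m1 z ≠ 0 → F (m1 - Finsupp.single z 1) = 0 := by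
        intro z hz
        by_cases hza : z = a
        · subst hza
          exact triple_rel hF hu hax.symm hay.symm hxy (hGm x hxG) (hGm y hyG) hz
            (hv _ _ hax.symm) (hv _ _ hay.symm) (hv _ _ hxy)
        · have hzG : z ∈ G := by
            rw [hG, Finsupp.mem_support_iff]
            have h3 := hpt z
            have h4 : (m1 - m2) z = 0 := by
              rw [hab]
              simp [Finsupp.single_apply, Ne.symm hza]
            omega
          rw [hGxy] at hzG
          simp only [Finset.mem_insert, Finset.mem_singleton] at hzG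
          rcases hzG with rfl | rfl
          · exact triple_rel hF hu hxy.symm hax hay.symm (hGm y hyG) hma hz
              (hv _ _ hxy.symm) (hv _ _ hax) (hv _ _ hay.symm)
          · exact triple_rel hF hu hxy hay hax.symm (hGm x hxG) hma hz
              (hv _ _ hxy) (hv _ _ hay) (hv _ _ hax.symm)
      exact hc (hall l hl)
    have hδ : m1 - m2 = Finsupp.single a 2 := by
      rw [hab, ← Finsupp.single_add]
    have hginf : m1 ⊓ m2 = Finsupp.single x 1 + Finsupp.single y 1 := by
      symm
      apply eq_of_le_of_deg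
      · intro i
        by_cases hix : i = x
        · subst hix
          have : (m1 ⊓ m2) i ≠ 0 := by rw [← Finsupp.mem_support_iff]; exact hxG
          rw [Finsupp.add_apply, Finsupp.single_eq_same, Finsupp.single_apply, if_neg hxy.symm]
          omega
        · by_cases hiy : i = y
          · subst hiy
            have : (m1 ⊓ m2) i ≠ 0 := by rw [← Finsupp.mem_support_iff]; exact hyG
            rw [Finsupp.add_apply, Finsupp.single_eq_same, Finsupp.single_apply, if_neg hxy]
            omega
          · simp [Finsupp.single_apply, Ne.symm hix, Ne.symm hiy]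
      · rw [deg_add, deg_single, deg_single]
        omega
    rw [hGxy] at haG
    simp only [Finset.mem_insert, Finset.mem_singleton] at haG
    rcases haG with rfl | rfl
    · exact ⟨a, y, hxy, hginf, hδ⟩
    · exact ⟨a, x, hxy.symm, by rw [hginf, add_comm], hδ⟩
  · exfalso
    have hδa : (m1 - m2) a ≠ 0 := by rw [hab]; simp
    have hδb : (m1 - m2) b ≠ 0 := by rw [hab]; simp
    have hma : m1 a ≠ 0 := by
      have := hpt a
      omega
    -- if q in G carries excess, then its value is zero
    have hsqG : ∀ q q', (m1 - m2) q ≠ 0 → (m1 - m2) q' ≠ 0 → q ≠ q' → q ∈ G →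
        F (m1 - Finsupp.single q 1) = 0 := by
      intro q q' hq hq' hqq' hqG
      rw [hG, Finsupp.mem_support_iff] at hqG
      have := hpt q
      exact sq_rel' hF hu (by omega) (not_le_pair_of hq' hqq'.symm hqq'.symm)
    have key : ∀ q, (m1 - m2) q ≠ 0 → (m1 - m2) l ≠ 0 → q ≠ l → False := by
      intro q hq hll hql
      have hl1 : m1 l ≤ 1 := by
        by_contra h
        exact hc (sq_rel' hF hu (by omega) (not_le_pair_of hq hql hql))
      have hlG : l ∉ G := by
        rw [hG, Finsupp.mem_support_iff]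
        have := hpt l
        omega
      by_cases hqG : q ∈ G
      · have hc2 : 0 < (G.erase q).card := by
          have a1 := Finset.pred_card_le_card_erase (s := G) (a := q)
          omega
        obtain ⟨k, hk⟩ := Finset.card_pos.mp hc2
        simp only [Finset.mem_erase] at hk
        have hkl : k ≠ l := fun h => hlG (h ▸ hk.2)
        have e1 := hsqG q l hq hll hql hqG
        have e2 := pair_rel' hF hu hk.1 (hGm k hk.2) (hGm q hqG)
          (not_le_pair_of hll hkl.symm hql.symm)
        have e3 := pair_rel' hF hu hkl (hGm k hk.2) hl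
          (not_le_pair_of hq hk.1.symm hql)
        rw [e1, add_zero] at e2
        rw [e2, zero_add] at e3
        exact hc e3
      · have hxl : x ≠ l := fun h => hlG (h ▸ hxG)
        have hyl : y ≠ l := fun h => hlG (h ▸ hyG)
        have hxq : q ≠ x := fun h => hqG (h ▸ hxG)
        have hyq : q ≠ y := fun h => hqG (h ▸ hyG)
        exact hc (triple_rel hF hu hxl hyl hxy (hGm x hxG) (hGm y hyG) hl
          (not_le_pair_of hq hxq hql) (not_le_pair_of hq hyq hql)
          (not_le_pair_of hll hxl.symm hyl.symm))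
    have hla : l ≠ a := by
      rintro rfl
      exact key b hδb hδa hne'.symm
    have hlb : l ≠ b := by
      rintro rfl
      exact key a hδa hδb hne'
    have hlG : l ∈ G := by
      rw [hG, Finsupp.mem_support_iff]
      have h3 := hpt l
      have h4 : (m1 - m2) l = 0 := by
        rw [hab]
        simp [Finsupp.single_apply, hla.symm, hlb.symm]
      omega
    have hvl : ∀ i, ¬ m1 - m2 ≤ Finsupp.single i 1 + Finsupp.single l 1 := by
      intro i
      by_cases hia : a = i
      · exact not_le_pair_of hδb (hia ▸ hne'.symm) hlb.symm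
      · exact not_le_pair_of hδa hia hla.symm
    by_cases haG : a ∈ G
    · have e1 := hsqG a b hδa hδb hne' haG
      have e2 := pair_rel' hF hu hla.symm hma hl (hvl a)
      rw [e1, zero_add] at e2
      exact hc e2
    · have hc2 : 0 < (G.erase l).card := by
        have a1 := Finset.pred_card_le_card_erase (s := G) (a := l)
        omega
      obtain ⟨k, hk⟩ := Finset.card_pos.mp hc2
      simp only [Finset.mem_erase] at hk
      have hka : k ≠ a := fun h => haG (h ▸ hk.2)
      by_cases hkb : k = b
      · subst hkb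
        have e1 := hsqG k a hδb hδa hka hk.2
        have e2 := pair_rel' hF hu hk.1 (hGm k hk.2) hl (hvl k)
        rw [e1, zero_add] at e2
        exact hc e2
      · exact hc (triple_rel hF hu hla.symm hk.1 hka.symm hma (hGm k hk.2) hl
          (hvl a) (hvl k) (not_le_pair_of hδb hne'.symm (Ne.symm hkb)))

/-- socle degree four, the monomials differ by one variable -/
theorem aux_four_one [CharZero K] (h1 : deg m1 = 4) (h2 : deg m2 = 4)
    (hsq : ∀ i, m1 i ≤ 1 ∨ m2 i ≤ 1) (hF : ∀ v, F v ≠ 0 → v ≤ m1 ∨ v ≤ m2)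
    (hu : ∀ u, up univ F u = 0) (hp : deg (m1 - m2) = 1) :
    F (m1 ⊓ m2) = 0 ∧
      ∀ i, m1 i ≠ 0 → ¬ (m1 - Finsupp.single i 1 ≤ m2) → F (m1 - Finsupp.single i 1) = 0 := by
  classical
  have hg := inf_add_tsub m1 m2
  have hg2 := inf_add_tsub m2 m1
  rw [inf_comm m2 m1] at hg2
  have hgd : deg (m1 ⊓ m2) + deg (m1 - m2) = 4 := by rw [← deg_add, hg, h1]
  have hgd2 : deg (m1 ⊓ m2) + deg (m2 - m1) = 4 := by rw [← deg_add, hg2, h2]
  have hcard := card_support_inf hsq
  obtain ⟨x, hx⟩ := deg_eq_one hp
  obtain ⟨y, hy⟩ := deg_eq_one (m := m2 - m1) (by omega)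
  rw [hx] at hg
  rw [hy] at hg2
  have hδx : (m1 - m2) x ≠ 0 := by rw [hx]; simp
  have hδy : (m2 - m1) y ≠ 0 := by rw [hy]; simp
  have hxy : x ≠ y := by
    rintro rfl
    simp only [Finsupp.tsub_apply] at hδx hδy
    omega
  set g := m1 ⊓ m2 with hgdef
  obtain ⟨G, hG⟩ : ∃ G, G = g.support := ⟨_, rfl⟩
  rw [← hG] at hcard
  have hGg : ∀ i ∈ G, g i ≠ 0 := by
    intro i hi
    rw [hG, Finsupp.mem_support_iff] at hi
    exact hi
  have hGm : ∀ i ∈ G, m1 i ≠ 0 := by
    intro i hi
    have := hGg i hi
    rw [← hg]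
    simp
    omega
  have hGm2 : ∀ i ∈ G, m2 i ≠ 0 := by
    intro i hi
    have := hGg i hi
    rw [← hg2]
    simp
    omega
  have hF2 : ∀ v, F v ≠ 0 → v ≤ m2 ∨ v ≤ m1 := fun v hv => (hF v hv).symm
  -- the relation at `g - e_i`
  have hZ : ∀ i ∈ G, F g + (if i = x then 0 else F (m1 - Finsupp.single i 1)) +
      (if i = y then 0 else F (m2 - Finsupp.single i 1)) = 0 := by
    intro i hi
    have hgi := hGg i hi
    have hle : Finsupp.single i 1 ≤ g := by
      rw [Finsupp.single_le_iff]
      omega
    have e0 : g - Finsupp.single i 1 + Finsupp.single i 1 = g := tsub_add_cancel_of_le hle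
    have e1 : g - Finsupp.single i 1 + Finsupp.single x 1 = m1 - Finsupp.single i 1 := by
      rw [← hg, tsub_add_eq_add_tsub hle]
    have e2 : g - Finsupp.single i 1 + Finsupp.single y 1 = m2 - Finsupp.single i 1 := by
      rw [← hg2, tsub_add_eq_add_tsub hle]
    have h := hu (g - Finsupp.single i 1)
    unfold up at h
    have ho : ∀ p, p ≠ i → p ≠ x → p ≠ y → F (g - Finsupp.single i 1 + Finsupp.single p 1) = 0 := by
      intro p hpi hpx hpy
      by_contra hcon
      rcases hF _ hcon with h3 | h3
      · have := h3 p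
        rw [← hg] at this
        simp [Finsupp.single_apply, hpi.symm, hpx.symm] at this
      · have := h3 p
        rw [← hg2] at this
        simp [Finsupp.single_apply, hpi.symm, hpy.symm] at this
    by_cases hix : i = x
    · subst hix
      rw [← Finset.sum_subset (Finset.subset_univ ({i, y} : Finset (Fin n))) (by
        intro p _ hp
        simp only [Finset.mem_insert, Finset.mem_singleton, not_or] at hp
        exact ho p hp.1 hp.1 hp.2), Finset.sum_pair hxy, e0, e2] at h
      rw [if_pos rfl, if_neg hxy, add_zero]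
      exact h
    · by_cases hiy : i = y
      · subst hiy
        rw [← Finset.sum_subset (Finset.subset_univ ({i, x} : Finset (Fin n))) (by
          intro p _ hp
          simp only [Finset.mem_insert, Finset.mem_singleton, not_or] at hp
          exact ho p hp.1 hp.2 hp.1), Finset.sum_pair hix, e0, e1] at h
        rw [if_pos rfl, if_neg hix, add_zero]
        exact h
      · rw [← Finset.sum_subset (Finset.subset_univ ({i, x, y} : Finset (Fin n))) (by
          intro p _ hp
          simp only [Finset.mem_insert, Finset.mem_singleton, not_or] at hp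
          exact ho p hp.1 hp.2.1 hp.2.2), Finset.sum_insert (by simp [hix, hiy]),
          Finset.sum_pair hxy, e0, e1, e2] at h
        rw [if_neg hix, if_neg hiy, add_assoc]
        exact h
  have hpc : ∀ i ∈ G, ∀ l ∈ G, i ≠ l → i ≠ x → l ≠ x →
      F (m1 - Finsupp.single i 1) + F (m1 - Finsupp.single l 1) = 0 :=
    fun i hi l hl hil hix hlx => pair_rel' hF hu hil (hGm i hi) (hGm l hl)
      (not_le_pair_of hδx hix.symm hlx.symm)
  have hpd : ∀ i ∈ G, ∀ l ∈ G, i ≠ l → i ≠ y → l ≠ y →
      F (m2 - Finsupp.single i 1) + F (m2 - Finsupp.single l 1) = 0 :=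
    fun i hi l hl hil hiy hly => pair_rel' hF2 hu hil (hGm2 i hi) (hGm2 l hl)
      (not_le_pair_of hδy hiy.symm hly.symm)
  have hG3 : G.card = 3 := by omega
  have hcx : x ∉ G → ∀ i ∈ G, F (m1 - Finsupp.single i 1) = 0 := by
    intro hxG i hi
    have hc2 : 1 < (G.erase i).card := by
      rw [Finset.card_erase_of_mem hi]
      omega
    obtain ⟨k, hk, k', hk', hkk'⟩ := Finset.one_lt_card.mp hc2
    simp only [Finset.mem_erase] at hk hk'
    have n1 : i ≠ x := fun h => hxG (h ▸ hi)
    have n2 : k ≠ x := fun h => hxG (h ▸ hk.2)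
    have n3 : k' ≠ x := fun h => hxG (h ▸ hk'.2)
    have e1 := hpc k hk.2 i hi hk.1 n2 n1
    have e2 := hpc k' hk'.2 i hi hk'.1 n3 n1
    have e3 := hpc k hk.2 k' hk'.2 hkk' n2 n3
    have : (2 : K) * F (m1 - Finsupp.single i 1) = 0 := by linear_combination e1 + e2 - e3
    exact (mul_eq_zero.mp this).resolve_left two_ne_zero
  have hdy : y ∉ G → ∀ i ∈ G, F (m2 - Finsupp.single i 1) = 0 := by
    intro hyG i hi
    have hc2 : 1 < (G.erase i).card := by
      rw [Finset.card_erase_of_mem hi]
      omega
    obtain ⟨k, hk, k', hk', hkk'⟩ := Finset.one_lt_card.mp hc2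
    simp only [Finset.mem_erase] at hk hk'
    have n1 : i ≠ y := fun h => hyG (h ▸ hi)
    have n2 : k ≠ y := fun h => hyG (h ▸ hk.2)
    have n3 : k' ≠ y := fun h => hyG (h ▸ hk'.2)
    have e1 := hpd k hk.2 i hi hk.1 n2 n1
    have e2 := hpd k' hk'.2 i hi hk'.1 n3 n1
    have e3 := hpd k hk.2 k' hk'.2 hkk' n2 n3
    have : (2 : K) * F (m2 - Finsupp.single i 1) = 0 := by linear_combination e1 + e2 - e3
    exact (mul_eq_zero.mp this).resolve_left two_ne_zero
  -- if both x and y are in G, the third element
  have hz : x ∈ G → y ∈ G → ∃ z, G = {x, y, z} ∧ z ≠ x ∧ z ≠ y := by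
    intro hxG hyG
    have hc2 : 0 < ((G.erase x).erase y).card := by
      rw [Finset.card_erase_of_mem (Finset.mem_erase.mpr ⟨hxy.symm, hyG⟩),
        Finset.card_erase_of_mem hxG]
      omega
    obtain ⟨z, hz⟩ := Finset.card_pos.mp hc2
    simp only [Finset.mem_erase] at hz
    refine ⟨z, ?_, hz.2.1, hz.1⟩
    symm
    apply Finset.eq_of_subset_of_card_le
    · intro w hw
      simp only [Finset.mem_insert, Finset.mem_singleton] at hw
      rcases hw with rfl | rfl | rfl
      · exact hxG
      · exact hyG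
      · exact hz.2.2
    · rw [hG3, Finset.card_insert_of_notMem (by simp [hxy, hz.2.1.symm]),
        Finset.card_pair (Ne.symm hz.1)]
  have hc0 : F g = 0 := by
    by_cases hxG : x ∈ G
    · by_cases hyG : y ∈ G
      · obtain ⟨z, hGz, hzx, hzy⟩ := hz hxG hyG
        have hzG : z ∈ G := by rw [hGz]; simp
        have z1 := hZ x hxG
        have z2 := hZ y hyG
        have z3 := hZ z hzG
        rw [if_pos rfl, if_neg hxy] at z1
        rw [if_pos rfl, if_neg hxy.symm] at z2
        rw [if_neg hzx, if_neg hzy] at z3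
        have p1 := hpc y hyG z hzG hzy.symm hxy.symm hzx
        have p2 := hpd x hxG z hzG hzx.symm hxy hzy
        have : (3 : K) * F g = 0 := by linear_combination z1 + z2 + z3 - p1 - p2
        exact (mul_eq_zero.mp this).resolve_left three_ne_zero
      · have z1 := hZ x hxG
        rw [if_pos rfl, if_neg hxy, hdy hyG x hxG] at z1
        simpa using z1
    · by_cases hyG : y ∈ G
      · have z1 := hZ y hyG
        rw [if_pos rfl, if_neg hxy.symm, hcx hxG y hyG] at z1
        simpa using z1
      · obtain ⟨i, hi⟩ := Finset.card_pos.mp (show 0 < G.card by omega)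
        have z1 := hZ i hi
        rw [hcx hxG i hi, hdy hyG i hi] at z1
        simpa using z1
  refine ⟨hc0, ?_⟩
  intro i hi hle
  have hix : i ≠ x := by
    rintro rfl
    apply hle
    rw [tsub_le_iff_tsub_le, hx]
  have hiG : i ∈ G := by
    rw [hG, Finsupp.mem_support_iff]
    intro h0
    apply hi
    rw [← hg]
    simp [h0, Finsupp.single_apply, hix.symm]
  by_cases hxG : x ∈ G
  · by_cases hyG : y ∈ G
    · obtain ⟨z, hGz, hzx, hzy⟩ := hz hxG hyG
      have hzG : z ∈ G := by rw [hGz]; simp
      have z2 := hZ y hyG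
      rw [if_pos rfl, if_neg hxy.symm, hc0] at z2
      have hcy : F (m1 - Finsupp.single y 1) = 0 := by simpa using z2
      have hiG' := hiG
      rw [hGz] at hiG'
      simp only [Finset.mem_insert, Finset.mem_singleton] at hiG'
      rcases hiG' with rfl | rfl | rfl
      · exact absurd rfl hix
      · exact hcy
      · have p1 := hpc y hyG i hzG hzy.symm hxy.symm hzx
        rw [hcy, zero_add] at p1
        exact p1
    · have hiy : i ≠ y := fun h => hyG (h ▸ hiG)
      have z1 := hZ i hiG
      rw [if_neg hix, if_neg hiy, hdy hyG i hiG, hc0] at z1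
      simpa using z1
  · exact hcx hxG i hiG

end two

theorem inj_or_surj_four [CharZero K] {T : Finset (Fin n →₀ ℕ)} (hT : ∀ τ ∈ T, deg τ = 4)
    (hc : T.card = 2) : InjAt K T 2 ∨ SurjAt K T 2 := by
  classical
  by_cases hs : SurjAt K T 2
  · exact Or.inr hs
  left
  obtain ⟨m1, m2, hne, hTeq⟩ := Finset.card_eq_two.mp hc
  have h1 : deg m1 = 4 := hT m1 (by rw [hTeq]; simp)
  have h2 : deg m2 = 4 := hT m2 (by rw [hTeq]; simp)
  unfold SurjAt at hs
  push Not at hs
  obtain ⟨F, hFT, hu, hF0⟩ := hs
  obtain ⟨w, hw⟩ := Function.ne_iff.mp hF0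
  have hF' : ∀ v, F v ≠ 0 → (v ≤ m1 ∨ v ≤ m2) ∧ deg v = 3 := by
    intro v hv
    obtain ⟨⟨τ, hτ, hle⟩, hd⟩ := hFT v hv
    rw [hTeq] at hτ
    simp only [Finset.mem_insert, Finset.mem_singleton] at hτ
    rcases hτ with rfl | rfl
    · exact ⟨Or.inl hle, hd⟩
    · exact ⟨Or.inr hle, hd⟩
  have hF : ∀ v, F v ≠ 0 → v ≤ m1 ∨ v ≤ m2 := fun v hv => (hF' v hv).1
  have hF2 : ∀ v, F v ≠ 0 → v ≤ m2 ∨ v ≤ m1 := fun v hv => (hF v hv).symm
  have hsq := squarefree_inf h1 h2 hF' hu ⟨w, hw⟩
  have hsq2 : ∀ i, m2 i ≤ 1 ∨ m1 i ≤ 1 := fun i => (hsq i).symm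
  have hg := inf_add_tsub m1 m2
  have hg2 := inf_add_tsub m2 m1
  rw [inf_comm m2 m1] at hg2
  have hgd : deg (m1 ⊓ m2) + deg (m1 - m2) = 4 := by rw [← deg_add, hg, h1]
  have hgd2 : deg (m1 ⊓ m2) + deg (m2 - m1) = 4 := by rw [← deg_add, hg2, h2]
  rcases Nat.lt_or_ge (deg (m1 - m2)) 3 with hδ | hδ
  swap
  · exfalso
    apply hw
    by_contra hw'
    obtain ⟨h3, h4⟩ := hF' w hw
    rcases h3 with h3 | h3
    · obtain ⟨l, hl, rfl⟩ := eq_sub_of_deg h3 (by omega)
      exact hw' (aux_far hF hu (by omega) hδ hl)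
    · obtain ⟨l, hl, rfl⟩ := eq_sub_of_deg h3 (by omega)
      exact hw' (aux_far hF2 hu (by omega) (by omega) hl)
  have hcases : deg (m1 - m2) = 0 ∨ deg (m1 - m2) = 1 ∨ deg (m1 - m2) = 2 := by omega
  rcases hcases with hp | hp | hp
  · exfalso
    have h0 := deg_eq_zero hp
    rw [tsub_eq_zero_iff_le] at h0
    exact hne (eq_of_le_of_deg h0 (by omega))
  · exfalso
    apply hw
    by_contra hw'
    obtain ⟨a1, a2⟩ := aux_four_one h1 h2 hsq hF hu hp
    obtain ⟨b1, b2⟩ := aux_four_one h2 h1 hsq2 hF2 hu (by omega)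
    obtain ⟨h3, h4⟩ := hF' w hw
    by_cases hboth : w ≤ m1 ∧ w ≤ m2
    · have : w = m1 ⊓ m2 := eq_of_le_of_deg (le_inf hboth.1 hboth.2) (by omega)
      rw [this] at hw'
      exact hw' a1
    · rcases h3 with h3 | h3
      · obtain ⟨l, hl, rfl⟩ := eq_sub_of_deg h3 (by omega)
        exact hw' (a2 l hl fun h => hboth ⟨h3, h⟩)
      · obtain ⟨l, hl, rfl⟩ := eq_sub_of_deg h3 (by omega)
        exact hw' (b2 l hl fun h => hboth ⟨h, h3⟩)
  · by_cases hA : ∃ l, m1 l ≠ 0 ∧ F (m1 - Finsupp.single l 1) ≠ 0
    swap
    · exfalso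
      push Not at hA
      apply hF0
      refine single_box (m1 := m2) (by omega) ?_ (fun v hv => by rw [h2, (hF' v hv).2]) hu
      intro v hv
      rcases hF v hv with h3 | h3
      · obtain ⟨l, hl, rfl⟩ := eq_sub_of_deg h3 (by rw [h1, (hF' v hv).2])
        exact absurd (hA l hl) hv
      · exact h3
    by_cases hB : ∃ l, m2 l ≠ 0 ∧ F (m2 - Finsupp.single l 1) ≠ 0
    swap
    · exfalso
      push Not at hB
      apply hF0
      refine single_box (m1 := m1) (by omega) ?_ (fun v hv => by rw [h1, (hF' v hv).2]) hu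
      intro v hv
      rcases hF v hv with h3 | h3
      · exact h3
      · obtain ⟨l, hl, rfl⟩ := eq_sub_of_deg h3 (by rw [h2, (hF' v hv).2])
        exact absurd (hB l hl) hv
    obtain ⟨l, hl, hcl⟩ := hA
    obtain ⟨l', hl', hcl'⟩ := hB
    obtain ⟨a, k, hak, hgk, hda⟩ := aux_four h1 hsq hF hu hp hl hcl
    obtain ⟨a', k', hak', hgk', hda'⟩ := aux_four h2 hsq2 hF2 hu (by omega) hl' hcl'
    rw [inf_comm, hgk] at hgk'
    have haa' : a' ≠ a := by
      rintro rfl
      have e1 := DFunLike.congr_fun hda a'
      have e2 := DFunLike.congr_fun hda' a'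
      simp at e1 e2
      omega
    have hak2 : a' = k := by
      by_contra hne'
      have := DFunLike.congr_fun hgk' a'
      simp [Finsupp.single_apply, Ne.symm haa', Ne.symm hne'] at this
      split_ifs at this
    subst hak2
    rw [hgk, hda] at hg
    rw [hgk, hda'] at hg2
    have hm1 : m1 ∈ T := by rw [hTeq]; simp
    have hm2 : m2 ∈ T := by rw [hTeq]; simp
    refine injAt_binary (a := a) (b := a') hak ⟨m1, hm1, ?_⟩ ⟨m1, hm1, ?_⟩ ⟨m2, hm2, ?_⟩ ?_
    · rw [← hg]
      intro i
      simp [Finsupp.single_apply]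
      split_ifs <;> omega
    · rw [← hg]
      intro i
      simp [Finsupp.single_apply]
      split_ifs <;> omega
    · rw [← hg2]
      intro i
      simp [Finsupp.single_apply]
      split_ifs <;> omega
    · rintro m ⟨τ, hτ, hle⟩ hd2
      have hsupp : ∀ i, i ≠ a → i ≠ a' → m i = 0 := by
        intro i hia hia'
        rw [hTeq] at hτ
        simp only [Finset.mem_insert, Finset.mem_singleton] at hτ
        rcases hτ with rfl | rfl
        · have := hle i
          rw [← hg] at this
          simpa [Finsupp.single_apply, Ne.symm hia, Ne.symm hia'] using this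
        · have := hle i
          rw [← hg2] at this
          simpa [Finsupp.single_apply, Ne.symm hia, Ne.symm hia'] using this
      have hsum : m a + m a' = 2 := by
        rw [← hd2]
        unfold deg
        rw [← Finset.sum_subset (Finset.subset_univ ({a, a'} : Finset (Fin n))) (by
          intro p _ hp
          simp only [Finset.mem_insert, Finset.mem_singleton, not_or] at hp
          exact hsupp p hp.1 hp.2), Finset.sum_pair hak]
      have hm : m = Finsupp.single a (m a) + Finsupp.single a' (m a') := by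
        ext i
        by_cases hia : i = a
        · subst hia; simp [Finsupp.single_apply, haa']
        · by_cases hia' : i = a'
          · subst hia'; simp [Finsupp.single_apply, hak]
          · simp [Finsupp.single_apply, Ne.symm hia, Ne.symm hia', hsupp i hia hia']
      have h012 : m a = 0 ∨ m a = 1 ∨ m a = 2 := by omega
      rcases h012 with h | h | h
      · have h' : m a' = 2 := by omega
        rw [h, h'] at hm
        right; right
        simpa using hm
      · have h' : m a' = 1 := by omega
        rw [h, h'] at hm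
        right; left
        exact hm
      · have h' : m a' = 0 := by omega
        rw [h, h'] at hm
        left
        simpa using hm

theorem hasWLP_four [CharZero K] {I : Ideal (MvPolynomial (Fin n) K)}
    {T : Finset (Fin n →₀ ℕ)} (h : LevelData I 4 T) (hc : T.card = 2) : HasWLP I := by
  apply hasWLP_of h
  intro j
  rcases Nat.lt_or_ge j 4 with hj | hj
  · interval_cases j
    · exact Or.inl (injAt_low h.degT (by norm_num))
    · exact Or.inl (injAt_low h.degT (by norm_num))
    · exact inj_or_surj_four h.degT hc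
    · exact Or.inr (surjAt_top h.degT (by omega))
  · exact Or.inr (surjAt_high h.degT hj)

theorem hasWLP_five [CharZero K] {I : Ideal (MvPolynomial (Fin n) K)}
    {T : Finset (Fin n →₀ ℕ)} (h : LevelData I 5 T) (hc : T.card = 2) : HasWLP I := by
  apply hasWLP_of h
  intro j
  rcases Nat.lt_or_ge j 5 with hj | hj
  · interval_cases j
    · exact Or.inl (injAt_low h.degT (by norm_num))
    · exact Or.inl (injAt_low h.degT (by norm_num))
    · exact Or.inl (injAt_low h.degT (by norm_num))
    · exact Or.inr (surj_pair_five (by norm_num) h.degT hc)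
    · exact Or.inr (surjAt_top h.degT (by omega))
  · exact Or.inr (surjAt_high h.degT hj)

end Pool.Agent.MP_a773c0_ag
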