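import Pool.Agent.Lib.MP_a773c0_ag.Small3

/-!
Small cases, part 4: three variables, type four.
-/

namespace Pool.Agent.MP_a773c0_ag

open MvPolynomial Finset

set_option linter.unusedSimpArgs false
set_option linter.unusedSectionVars false

variable {K : Type*} [Field K]

/-! ### Socle degree three -/

/-- the ten cubic monomials, by their first two exponents -/
def S10 : Finset (ℕ × ℕ) :=
  {(3,0),(2,1),(1,2),(0,3),(2,0),(1,1),(0,2),(1,0),(0,1),(0,0)}

/-- every divisor of an element of the set divides a second one -/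
def Q (T : Finset (ℕ × ℕ)) : Prop := ∀ p ∈ T,
  (p.1 ≠ 0 → ((p.1 - 1, p.2 + 1) ∈ T ∨ (p.1 - 1, p.2) ∈ T)) ∧
  (p.2 ≠ 0 → ((p.1 + 1, p.2 - 1) ∈ T ∨ (p.1, p.2 - 1) ∈ T)) ∧
  (p.1 + p.2 < 3 → ((p.1 + 1, p.2) ∈ T ∨ (p.1, p.2 + 1) ∈ T))

instance (T : Finset (ℕ × ℕ)) : Decidable (Q T) := by unfold Q; infer_instance

theorem dec_three : ∀ T ∈ S10.powersetCard 4, Q T → T = {(3,0),(2,1),(1,2),(0,3)} ∨
    T = {(3,0),(2,0),(1,0),(0,0)} ∨ T = {(0,3),(0,2),(0,1),(0,0)} := by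
  decide +kernel

theorem deg_fin3 (m : Fin 3 →₀ ℕ) : deg m = m 0 + m 1 + m 2 := by
  unfold deg
  rw [Fin.sum_univ_three]

theorem ext_fin3 {m m' : Fin 3 →₀ ℕ} (h0 : m 0 = m' 0) (h1 : m 1 = m' 1) (h2 : m 2 = m' 2) :
    m = m' := by
  ext i
  fin_cases i
  · exact h0
  · exact h1
  · exact h2

theorem mem_S10 {a b : ℕ} (h : a + b ≤ 3) : (a, b) ∈ S10 := by
  have ha : a ≤ 3 := by omega
  have hb : b ≤ 3 := by omega
  unfold S10
  interval_cases a <;> interval_cases b <;> first | omega | simp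

theorem inj_or_surj_34_three [CharZero K] {T : Finset (Fin 3 →₀ ℕ)}
    (hT : ∀ τ ∈ T, deg τ = 3) (hc : T.card = 4) : InjAt K T 2 ∨ SurjAt K T 2 := by
  classical
  by_cases hs : SurjAt K T 2
  · exact Or.inr hs
  left
  unfold SurjAt at hs
  push Not at hs
  obtain ⟨F, hF, hFu, hF0⟩ := hs
  obtain ⟨w, hw⟩ := Function.ne_iff.mp hF0
  obtain ⟨W, hWc, hW⟩ := up_support univ 3 F ⟨w, hw⟩ (fun m hm => (hF m hm).2) hFu
  have hWT : W ⊆ T := fun m hm => mem_of_std_top hT (hF m (hW m hm)).1 (hF m (hW m hm)).2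
  have hWeq : W = T := Finset.eq_of_subset_of_card_le hWT (by omega)
  rw [hWeq] at hW hWc
  have hFT : ∀ m, F m ≠ 0 → m ∈ T := fun m hm => mem_of_std_top hT (hF m hm).1 (hF m hm).2
  have hpart : ∀ τ ∈ T, ∀ i, τ i ≠ 0 → ∃ l, l ≠ i ∧
      τ - Finsupp.single i 1 + Finsupp.single l 1 ∈ T := by
    intro τ hτ i hi
    have h1 : τ - Finsupp.single i 1 + Finsupp.single i 1 = τ := by
      apply tsub_add_cancel_of_le
      rw [Finsupp.single_le_iff]
      omega
    obtain ⟨l, hl, hl'⟩ := up_exists (hFu (τ - Finsupp.single i 1)) (i := i)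
      (by rw [h1]; exact hW τ hτ)
    exact ⟨l, hl, hFT _ hl'⟩
  let π : (Fin 3 →₀ ℕ) → ℕ × ℕ := fun m => (m 0, m 1)
  let T' := T.image π
  have hT'c : T'.card = 4 := by
    rw [Finset.card_image_of_injOn, hc]
    intro x hx y hy hxy
    simp only [π, Prod.mk.injEq] at hxy
    have h1 := hT x hx
    have h2 := hT y hy
    rw [deg_fin3] at h1 h2
    exact ext_fin3 hxy.1 hxy.2 (by omega)
  have hT'S : T' ⊆ S10 := by
    intro p hp
    rw [Finset.mem_image] at hp
    obtain ⟨m, hm, rfl⟩ := hp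
    have h1 := hT m hm
    rw [deg_fin3] at h1
    exact mem_S10 (by omega)
  have hQ : Q T' := by
    intro p hp
    rw [Finset.mem_image] at hp
    obtain ⟨m, hm, rfl⟩ := hp
    have hd := hT m hm
    rw [deg_fin3] at hd
    refine ⟨fun h => ?_, fun h => ?_, fun h => ?_⟩
    · obtain ⟨l, hl, hl'⟩ := hpart m hm 0 h
      have hmem := Finset.mem_image_of_mem π hl'
      fin_cases l
      · exact absurd rfl hl
      · left
        simpa [π, T', Finsupp.single_apply] using hmem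
      · right
        simpa [π, T', Finsupp.single_apply] using hmem
    · obtain ⟨l, hl, hl'⟩ := hpart m hm 1 h
      have hmem := Finset.mem_image_of_mem π hl'
      fin_cases l
      · left
        simpa [π, T', Finsupp.single_apply] using hmem
      · exact absurd rfl hl
      · right
        simpa [π, T', Finsupp.single_apply] using hmem
    · obtain ⟨l, hl, hl'⟩ := hpart m hm 2 (by simp only [π] at h; omega)
      have hmem := Finset.mem_image_of_mem π hl'
      fin_cases l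
      · left
        simpa [π, T', Finsupp.single_apply] using hmem
      · right
        simpa [π, T', Finsupp.single_apply] using hmem
      · exact absurd rfl hl
  have hget : ∀ a b : ℕ, (a, b) ∈ T' → ∃ m ∈ T, m 0 = a ∧ m 1 = b ∧ m 0 + m 1 + m 2 = 3 := by
    intro a b hab
    rw [Finset.mem_image] at hab
    obtain ⟨m, hm, hm'⟩ := hab
    simp only [π, Prod.mk.injEq] at hm'
    exact ⟨m, hm, hm'.1, hm'.2, by rw [← deg_fin3]; exact hT m hm⟩
  have hstd : ∀ (a b c : ℕ) (m' : Fin 3 →₀ ℕ), (a, b) ∈ T' → a + b + c = 3 → m' 0 = a → m' 1 = b →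
      m' 2 = c → Std T m' := by
    intro a b c m' hab habc h0 h1 h2
    obtain ⟨m, hm, e0, e1, e2⟩ := hget a b hab
    refine ⟨m, hm, le_of_eq (ext_fin3 ?_ ?_ ?_)⟩ <;> omega
  have hle : ∀ m, Std T m → ∃ p ∈ T', m 0 ≤ p.1 ∧ m 1 ≤ p.2 ∧ m 2 + p.1 + p.2 ≤ 3 := by
    rintro m ⟨τ, hτ, hm⟩
    have h1 := hT τ hτ
    rw [deg_fin3] at h1
    have a0 := hm 0
    have a1 := hm 1
    have a2 := hm 2
    exact ⟨π τ, Finset.mem_image_of_mem π hτ, a0, a1, by simp only [π]; omega⟩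
  rcases dec_three T' (Finset.mem_powersetCard.mpr ⟨hT'S, hT'c⟩) hQ with h | h | h
  · refine injAt_binary (a := 0) (b := 1) (by decide)
      (hstd 3 0 0 _ (by rw [h]; decide) (by norm_num) ?_ ?_ ?_)
      (hstd 2 1 0 _ (by rw [h]; decide) (by norm_num) ?_ ?_ ?_)
      (hstd 0 3 0 _ (by rw [h]; decide) (by norm_num) ?_ ?_ ?_) ?_
    any_goals simp [Finsupp.single_apply]
    intro m hm hd
    obtain ⟨p, hp, h0, h1, h2⟩ := hle m hm
    rw [deg_fin3] at hd
    rw [h] at hp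
    simp only [Finset.mem_insert, Finset.mem_singleton] at hp
    have h3 : m 2 = 0 := by rcases hp with rfl | rfl | rfl | rfl <;> simp at h2 <;> omega
    have h4 : m 0 = 2 ∨ m 0 = 1 ∨ m 0 = 0 := by omega
    rcases h4 with h4 | h4 | h4
    · left
      apply ext_fin3 <;> simp [Finsupp.single_apply] <;> omega
    · right; left
      apply ext_fin3 <;> simp [Finsupp.single_apply] <;> omega
    · right; right
      apply ext_fin3 <;> simp [Finsupp.single_apply] <;> omega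
  · refine injAt_binary (a := 0) (b := 2) (by decide)
      (hstd 3 0 0 _ (by rw [h]; decide) (by norm_num) ?_ ?_ ?_)
      (hstd 2 0 1 _ (by rw [h]; decide) (by norm_num) ?_ ?_ ?_)
      (hstd 0 0 3 _ (by rw [h]; decide) (by norm_num) ?_ ?_ ?_) ?_
    any_goals simp [Finsupp.single_apply]
    intro m hm hd
    obtain ⟨p, hp, h0, h1, h2⟩ := hle m hm
    rw [deg_fin3] at hd
    rw [h] at hp
    simp only [Finset.mem_insert, Finset.mem_singleton] at hp
    have h3 : m 1 = 0 := by rcases hp with rfl | rfl | rfl | rfl <;> simp at h1 <;> omega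
    have h4 : m 0 = 2 ∨ m 0 = 1 ∨ m 0 = 0 := by omega
    rcases h4 with h4 | h4 | h4
    · left
      apply ext_fin3 <;> simp [Finsupp.single_apply] <;> omega
    · right; left
      apply ext_fin3 <;> simp [Finsupp.single_apply] <;> omega
    · right; right
      apply ext_fin3 <;> simp [Finsupp.single_apply] <;> omega
  · refine injAt_binary (a := 1) (b := 2) (by decide)
      (hstd 0 3 0 _ (by rw [h]; decide) (by norm_num) ?_ ?_ ?_)
      (hstd 0 2 1 _ (by rw [h]; decide) (by norm_num) ?_ ?_ ?_)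
      (hstd 0 0 3 _ (by rw [h]; decide) (by norm_num) ?_ ?_ ?_) ?_
    any_goals simp [Finsupp.single_apply]
    intro m hm hd
    obtain ⟨p, hp, h0, h1, h2⟩ := hle m hm
    rw [deg_fin3] at hd
    rw [h] at hp
    simp only [Finset.mem_insert, Finset.mem_singleton] at hp
    have h3 : m 0 = 0 := by rcases hp with rfl | rfl | rfl | rfl <;> simp at h0 <;> omega
    have h4 : m 1 = 2 ∨ m 1 = 1 ∨ m 1 = 0 := by omega
    rcases h4 with h4 | h4 | h4
    · left
      apply ext_fin3 <;> simp [Finsupp.single_apply] <;> omega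
    · right; left
      apply ext_fin3 <;> simp [Finsupp.single_apply] <;> omega
    · right; right
      apply ext_fin3 <;> simp [Finsupp.single_apply] <;> omega

/-! ### Socle degree four -/

/-- exponents in terms of three distinct indices -/
noncomputable def mk3 (i j k : Fin 3) (a b c : ℕ) : Fin 3 →₀ ℕ :=
  Finsupp.single i a + Finsupp.single j b + Finsupp.single k c

section labels

variable {i j k : Fin 3} (hij : i ≠ j) (hik : i ≠ k) (hjk : j ≠ k)

include hij hik hjk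

theorem univ_labels : (univ : Finset (Fin 3)) = {i, j, k} := by
  symm
  apply Finset.eq_univ_of_card
  rw [Finset.card_insert_of_notMem (by simp [hij, hik]), Finset.card_pair hjk]
  rfl

theorem mk3_i (a b c : ℕ) : mk3 i j k a b c i = a := by
  simp [mk3, Finsupp.single_apply, hij.symm, hik.symm]

theorem mk3_j (a b c : ℕ) : mk3 i j k a b c j = b := by
  simp [mk3, Finsupp.single_apply, hij, hjk.symm]

theorem mk3_k (a b c : ℕ) : mk3 i j k a b c k = c := by
  simp [mk3, Finsupp.single_apply, hik, hjk]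

theorem deg_labels (m : Fin 3 →₀ ℕ) : deg m = m i + m j + m k := by
  unfold deg
  rw [univ_labels hij hik hjk, Finset.sum_insert (by simp [hij, hik]), Finset.sum_pair hjk]
  ring

theorem ext_labels {m m' : Fin 3 →₀ ℕ} (h0 : m i = m' i) (h1 : m j = m' j) (h2 : m k = m' k) :
    m = m' := by
  ext l
  have hl : l ∈ ({i, j, k} : Finset (Fin 3)) := by
    rw [← univ_labels hij hik hjk]; exact Finset.mem_univ l
  simp only [Finset.mem_insert, Finset.mem_singleton] at hl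
  rcases hl with rfl | rfl | rfl
  · exact h0
  · exact h1
  · exact h2

theorem eq_mk3 (m : Fin 3 →₀ ℕ) : m = mk3 i j k (m i) (m j) (m k) := by
  apply ext_labels hij hik hjk
  · rw [mk3_i hij hik hjk]
  · rw [mk3_j hij hik hjk]
  · rw [mk3_k hij hik hjk]

theorem std_mk3 {T : Finset (Fin 3 →₀ ℕ)} {τ : Fin 3 →₀ ℕ} (hτ : τ ∈ T) {a b c : ℕ}
    (ha : a ≤ τ i) (hb : b ≤ τ j) (hc : c ≤ τ k) : Std T (mk3 i j k a b c) := by
  refine ⟨τ, hτ, fun l => ?_⟩
  have hl : l ∈ ({i, j, k} : Finset (Fin 3)) := by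
    rw [← univ_labels hij hik hjk]; exact Finset.mem_univ l
  simp only [Finset.mem_insert, Finset.mem_singleton] at hl
  rcases hl with rfl | rfl | rfl
  · rw [mk3_i hij hik hjk]; exact ha
  · rw [mk3_j hij hik hjk]; exact hb
  · rw [mk3_k hij hik hjk]; exact hc

theorem down_mk3 (f : (Fin 3 →₀ ℕ) → K) (a b c : ℕ) : down univ f (mk3 i j k a b c) =
    (if a = 0 then 0 else f (mk3 i j k (a - 1) b c)) +
    (if b = 0 then 0 else f (mk3 i j k a (b - 1) c)) +
    (if c = 0 then 0 else f (mk3 i j k a b (c - 1))) := by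
  unfold down
  rw [univ_labels hij hik hjk, Finset.sum_insert (by simp [hij, hik]), Finset.sum_pair hjk,
    mk3_i hij hik hjk, mk3_j hij hik hjk, mk3_k hij hik hjk]
  have e1 : mk3 i j k a b c - Finsupp.single i 1 = mk3 i j k (a - 1) b c := by
    apply ext_labels hij hik hjk <;>
      simp [mk3_i hij hik hjk, mk3_j hij hik hjk, mk3_k hij hik hjk, Finsupp.single_apply, hij, hik]
  have e2 : mk3 i j k a b c - Finsupp.single j 1 = mk3 i j k a (b - 1) c := by
    apply ext_labels hij hik hjk <;>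
      simp [mk3_i hij hik hjk, mk3_j hij hik hjk, mk3_k hij hik hjk, Finsupp.single_apply,
        hij.symm, hjk]
  have e3 : mk3 i j k a b c - Finsupp.single k 1 = mk3 i j k a b (c - 1) := by
    apply ext_labels hij hik hjk <;>
      simp [mk3_i hij hik hjk, mk3_j hij hik hjk, mk3_k hij hik hjk, Finsupp.single_apply,
        hik.symm, hjk.symm]
  rw [e1, e2, e3, add_assoc]

theorem up_mk3 (F : (Fin 3 →₀ ℕ) → K) (a b c : ℕ) : up univ F (mk3 i j k a b c) =
    F (mk3 i j k (a + 1) b c) + F (mk3 i j k a (b + 1) c) + F (mk3 i j k a b (c + 1)) := by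
  unfold up
  rw [univ_labels hij hik hjk, Finset.sum_insert (by simp [hij, hik]), Finset.sum_pair hjk]
  have e1 : mk3 i j k a b c + Finsupp.single i 1 = mk3 i j k (a + 1) b c := by
    apply ext_labels hij hik hjk <;>
      simp [mk3_i hij hik hjk, mk3_j hij hik hjk, mk3_k hij hik hjk, Finsupp.single_apply, hij, hik]
  have e2 : mk3 i j k a b c + Finsupp.single j 1 = mk3 i j k a (b + 1) c := by
    apply ext_labels hij hik hjk <;>
      simp [mk3_i hij hik hjk, mk3_j hij hik hjk, mk3_k hij hik hjk, Finsupp.single_apply,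
        hij.symm, hjk]
  have e3 : mk3 i j k a b c + Finsupp.single k 1 = mk3 i j k a b (c + 1) := by
    apply ext_labels hij hik hjk <;>
      simp [mk3_i hij hik hjk, mk3_j hij hik hjk, mk3_k hij hik hjk, Finsupp.single_apply,
        hik.symm, hjk.symm]
  rw [e1, e2, e3, add_assoc]

variable {T : Finset (Fin 3 →₀ ℕ)} {f : (Fin 3 →₀ ℕ) → K}

theorem caseA [CharZero K] (hT : ∀ τ ∈ T, deg τ = 4) (hd : ∀ m, Std T m → down univ f m = 0)
    {τ0 : Fin 3 →₀ ℕ} (hτ0 : τ0 ∈ T) (h0i : τ0 i = 2) (h0j : τ0 j = 1) (h0k : τ0 k = 1)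
    (hc : f (mk3 i j k 2 0 0) ≠ 0) : T.card ≤ 3 := by
  classical
  have D : ∀ (τ : Fin 3 →₀ ℕ), τ ∈ T → ∀ (a b c : ℕ), a ≤ τ i → b ≤ τ j → c ≤ τ k →
    (if a = 0 then 0 else f (mk3 i j k (a - 1) b c)) +
    (if b = 0 then 0 else f (mk3 i j k a (b - 1) c)) +
    (if c = 0 then 0 else f (mk3 i j k a b (c - 1))) = 0 := by
    intro τ hτ a b c ha hb hc
    rw [← down_mk3 hij hik hjk f a b c]
    exact hd _ (std_mk3 hij hik hjk hτ ha hb hc)
  have e1 := D τ0 hτ0 2 1 0 (by omega) (by omega) (by omega)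
  have e2 := D τ0 hτ0 2 0 1 (by omega) (by omega) (by omega)
  have e3 := D τ0 hτ0 1 1 1 (by omega) (by omega) (by omega)
  norm_num at e1 e2 e3
  -- values at the other squares
  have hy1 : ∀ τ ∈ T, 2 ≤ τ j → 1 ≤ τ i → f (mk3 i j k 0 2 0) = f (mk3 i j k 2 0 0) := by
    intro τ hτ h1 h2
    have h := D τ hτ 1 2 0 h2 h1 (by omega)
    norm_num at h
    linear_combination h - e1
  have hy2 : ∀ τ ∈ T, 3 ≤ τ j → f (mk3 i j k 0 2 0) = 0 := by
    intro τ hτ h1
    have h := D τ hτ 0 3 0 (by omega) h1 (by omega)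
    norm_num at h
    exact h
  have hy3 : ∀ τ ∈ T, 2 ≤ τ j → 1 ≤ τ k → f (mk3 i j k 0 2 0) = -2 * f (mk3 i j k 2 0 0) := by
    intro τ hτ h1 h2
    have h := D τ hτ 0 2 1 (by omega) h1 h2
    norm_num at h
    linear_combination h - e3 + e1 + e2
  have hz1 : ∀ τ ∈ T, 2 ≤ τ k → 1 ≤ τ i → f (mk3 i j k 0 0 2) = f (mk3 i j k 2 0 0) := by
    intro τ hτ h1 h2
    have h := D τ hτ 1 0 2 h2 (by omega) h1
    norm_num at h
    linear_combination h - e2
  have hz2 : ∀ τ ∈ T, 3 ≤ τ k → f (mk3 i j k 0 0 2) = 0 := by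
    intro τ hτ h1
    have h := D τ hτ 0 0 3 (by omega) (by omega) h1
    norm_num at h
    exact h
  have hz3 : ∀ τ ∈ T, 2 ≤ τ k → 1 ≤ τ j → f (mk3 i j k 0 0 2) = -2 * f (mk3 i j k 2 0 0) := by
    intro τ hτ h1 h2
    have h := D τ hτ 0 1 2 (by omega) h2 h1
    norm_num at h
    linear_combination h - e3 + e1 + e2
  have ha : ∀ τ ∈ T, τ i ≤ 2 := by
    intro τ hτ
    by_contra hcon
    have h := D τ hτ 3 0 0 (by omega) (by omega) (by omega)
    norm_num at h
    exact hc h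
  -- incompatibilities
  have i12 : ∀ y : K, y = f (mk3 i j k 2 0 0) → y = 0 → False := by
    intro y h1 h2
    exact hc (by rw [← h1, h2])
  have i13 : ∀ y : K, y = f (mk3 i j k 2 0 0) → y = -2 * f (mk3 i j k 2 0 0) → False := by
    intro y h1 h2
    have : (3 : K) * f (mk3 i j k 2 0 0) = 0 := by linear_combination h2 - h1
    exact hc ((mul_eq_zero.mp this).resolve_left three_ne_zero)
  have i23 : ∀ y : K, y = 0 → y = -2 * f (mk3 i j k 2 0 0) → False := by
    intro y h1 h2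
    have : (2 : K) * f (mk3 i j k 2 0 0) = 0 := by linear_combination h2 - h1
    exact hc ((mul_eq_zero.mp this).resolve_left two_ne_zero)
  have hX : ∀ τ ∈ T, 2 ≤ τ j →
      (τ i = 2 ∧ τ j = 2 ∧ τ k = 0 ∧ f (mk3 i j k 0 2 0) = f (mk3 i j k 2 0 0)) ∨
      (τ i = 0 ∧ τ j = 4 ∧ τ k = 0 ∧ f (mk3 i j k 0 2 0) = 0) ∨
      (τ i = 0 ∧ τ j = 2 ∧ τ k = 2 ∧ f (mk3 i j k 0 2 0) = -2 * f (mk3 i j k 2 0 0)) := by
    intro τ hτ h1
    have hdeg := hT τ hτ
    rw [deg_labels hij hik hjk] at hdeg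
    have h2 := ha τ hτ
    by_cases h3 : 1 ≤ τ i
    · have v1 := hy1 τ hτ h1 h3
      by_cases h4 : 3 ≤ τ j
      · exact (i12 _ v1 (hy2 τ hτ h4)).elim
      · by_cases h5 : 1 ≤ τ k
        · exact (i13 _ v1 (hy3 τ hτ h1 h5)).elim
        · left
          exact ⟨by omega, by omega, by omega, v1⟩
    · by_cases h5 : 1 ≤ τ k
      · have v3 := hy3 τ hτ h1 h5
        by_cases h4 : 3 ≤ τ j
        · exact (i23 _ (hy2 τ hτ h4) v3).elim
        · right; right
          exact ⟨by omega, by omega, by omega, v3⟩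
      · right; left
        exact ⟨by omega, by omega, by omega, hy2 τ hτ (by omega)⟩
  have hY : ∀ τ ∈ T, 2 ≤ τ k → τ j < 2 →
      (τ i = 2 ∧ τ j = 0 ∧ τ k = 2 ∧ f (mk3 i j k 0 0 2) = f (mk3 i j k 2 0 0)) ∨
      (τ i = 0 ∧ τ j = 0 ∧ τ k = 4 ∧ f (mk3 i j k 0 0 2) = 0) := by
    intro τ hτ h1 h1'
    have hdeg := hT τ hτ
    rw [deg_labels hij hik hjk] at hdeg
    have h2 := ha τ hτ
    by_cases h3 : 1 ≤ τ i
    · have v1 := hz1 τ hτ h1 h3
      by_cases h4 : 3 ≤ τ k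
      · exact (i12 _ v1 (hz2 τ hτ h4)).elim
      · by_cases h5 : 1 ≤ τ j
        · exact (i13 _ v1 (hz3 τ hτ h1 h5)).elim
        · left
          exact ⟨by omega, by omega, by omega, v1⟩
    · by_cases h5 : 1 ≤ τ j
      · have v3 := hz3 τ hτ h1 h5
        have h4 : 3 ≤ τ k := by omega
        exact (i23 _ (hz2 τ hτ h4) v3).elim
      · right
        exact ⟨by omega, by omega, by omega, hz2 τ hτ (by omega)⟩
  have cX : (T.filter (fun τ => 2 ≤ τ j)).card ≤ 1 := by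
    rw [Finset.card_le_one]
    intro τ hτ τ' hτ'
    rw [Finset.mem_filter] at hτ hτ'
    rcases hX τ hτ.1 hτ.2 with ⟨a1, a2, a3, a4⟩ | ⟨a1, a2, a3, a4⟩ | ⟨a1, a2, a3, a4⟩ <;>
    rcases hX τ' hτ'.1 hτ'.2 with ⟨b1, b2, b3, b4⟩ | ⟨b1, b2, b3, b4⟩ | ⟨b1, b2, b3, b4⟩
    · exact ext_labels hij hik hjk (by omega) (by omega) (by omega)
    · exact (i12 _ a4 b4).elim
    · exact (i13 _ a4 b4).elim
    · exact (i12 _ b4 a4).elim
    · exact ext_labels hij hik hjk (by omega) (by omega) (by omega)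
    · exact (i23 _ a4 b4).elim
    · exact (i13 _ b4 a4).elim
    · exact (i23 _ b4 a4).elim
    · exact ext_labels hij hik hjk (by omega) (by omega) (by omega)
  have cY : (T.filter (fun τ => 2 ≤ τ k ∧ τ j < 2)).card ≤ 1 := by
    rw [Finset.card_le_one]
    intro τ hτ τ' hτ'
    rw [Finset.mem_filter] at hτ hτ'
    rcases hY τ hτ.1 hτ.2.1 hτ.2.2 with ⟨a1, a2, a3, a4⟩ | ⟨a1, a2, a3, a4⟩ <;>
    rcases hY τ' hτ'.1 hτ'.2.1 hτ'.2.2 with ⟨b1, b2, b3, b4⟩ | ⟨b1, b2, b3, b4⟩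
    · exact ext_labels hij hik hjk (by omega) (by omega) (by omega)
    · exact (i12 _ a4 b4).elim
    · exact (i12 _ b4 a4).elim
    · exact ext_labels hij hik hjk (by omega) (by omega) (by omega)
  have hsub : T ⊆ insert τ0 (T.filter (fun τ => 2 ≤ τ j) ∪
      T.filter (fun τ => 2 ≤ τ k ∧ τ j < 2)) := by
    intro τ hτ
    simp only [Finset.mem_insert, Finset.mem_union, Finset.mem_filter]
    have hdeg := hT τ hτ
    rw [deg_labels hij hik hjk] at hdeg
    have h2 := ha τ hτ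
    by_cases h3 : 2 ≤ τ j
    · exact Or.inr (Or.inl ⟨hτ, h3⟩)
    · by_cases h4 : 2 ≤ τ k
      · exact Or.inr (Or.inr ⟨hτ, h4, by omega⟩)
      · left
        exact ext_labels hij hik hjk (by omega) (by omega) (by omega)
  have h1 := Finset.card_le_card hsub
  have h2 := Finset.card_insert_le τ0 (T.filter (fun τ => 2 ≤ τ j) ∪
      T.filter (fun τ => 2 ≤ τ k ∧ τ j < 2))
  have h3 := Finset.card_union_le (T.filter (fun τ => 2 ≤ τ j))
      (T.filter (fun τ => 2 ≤ τ k ∧ τ j < 2))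
  omega

theorem caseB [CharZero K] (hT : ∀ τ ∈ T, deg τ = 4) (hcard : T.card = 4)
    (hd : ∀ m, Std T m → down univ f m = 0)
    {τ0 : Fin 3 →₀ ℕ} (hτ0 : τ0 ∈ T) (h0i : τ0 i = 2) (h0j : τ0 j = 2)
    (hno : ∀ τ ∈ T, ¬ (1 ≤ τ i ∧ 1 ≤ τ j ∧ 1 ≤ τ k))
    (hc : f (mk3 i j k 2 0 0) ≠ 0) : SurjAt K T 2 := by
  classical
  have D : ∀ (τ : Fin 3 →₀ ℕ), τ ∈ T → ∀ (a b c : ℕ), a ≤ τ i → b ≤ τ j → c ≤ τ k →
    (if a = 0 then 0 else f (mk3 i j k (a - 1) b c)) +
    (if b = 0 then 0 else f (mk3 i j k a (b - 1) c)) +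
    (if c = 0 then 0 else f (mk3 i j k a b (c - 1))) = 0 := by
    intro τ hτ a b c ha hb hc
    rw [← down_mk3 hij hik hjk f a b c]
    exact hd _ (std_mk3 hij hik hjk hτ ha hb hc)
  have e1 := D τ0 hτ0 2 1 0 (by omega) (by omega) (by omega)
  have e2 := D τ0 hτ0 1 2 0 (by omega) (by omega) (by omega)
  norm_num at e1 e2
  have hy : f (mk3 i j k 0 2 0) = f (mk3 i j k 2 0 0) := by linear_combination e2 - e1
  have ha : ∀ τ ∈ T, τ i ≤ 2 := by
    intro τ hτ
    by_contra hcon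
    have h := D τ hτ 3 0 0 (by omega) (by omega) (by omega)
    norm_num at h
    exact hc h
  have hb : ∀ τ ∈ T, τ j ≤ 2 := by
    intro τ hτ
    by_contra hcon
    have h := D τ hτ 0 3 0 (by omega) (by omega) (by omega)
    norm_num at h
    exact hc (by rw [← hy]; exact h)
  -- value at the third square
  have hz0 : ∀ τ ∈ T, 3 ≤ τ k → f (mk3 i j k 0 0 2) = 0 := by
    intro τ hτ h1
    have h := D τ hτ 0 0 3 (by omega) (by omega) h1
    norm_num at h
    exact h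
  have hz1 : ∀ τ ∈ T, τ k = 2 → f (mk3 i j k 0 0 2) = f (mk3 i j k 2 0 0) := by
    intro τ hτ h1
    have hdeg := hT τ hτ
    rw [deg_labels hij hik hjk] at hdeg
    have h2 := hno τ hτ
    have h3 : τ i = 2 ∨ τ j = 2 := by omega
    rcases h3 with h3 | h3
    · have v1 := D τ hτ 2 0 1 (by omega) (by omega) (by omega)
      have v2 := D τ hτ 1 0 2 (by omega) (by omega) (by omega)
      norm_num at v1 v2
      linear_combination v2 - v1
    · have v1 := D τ hτ 0 2 1 (by omega) (by omega) (by omega)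
      have v2 := D τ hτ 0 1 2 (by omega) (by omega) (by omega)
      norm_num at v1 v2
      linear_combination v2 - v1 + hy
  have hk1 : ∀ τ ∈ T, τ k ≠ 1 := by
    intro τ hτ h1
    have hdeg := hT τ hτ
    rw [deg_labels hij hik hjk] at hdeg
    have h2 := hno τ hτ
    have h3 := ha τ hτ
    have h4 := hb τ hτ
    omega
  have hz : f (mk3 i j k 0 0 2) = 0 := by
    by_contra hz
    have h3 : ∀ τ ∈ T, τ k < 3 := by
      intro τ hτ
      by_contra hcon
      exact hz (hz0 τ hτ (by omega))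
    have hsub : T ⊆ {mk3 i j k 2 2 0, mk3 i j k 2 0 2, mk3 i j k 0 2 2} := by
      intro τ hτ
      simp only [Finset.mem_insert, Finset.mem_singleton]
      have hdeg := hT τ hτ
      rw [deg_labels hij hik hjk] at hdeg
      have h4 := hno τ hτ
      have h5 := h3 τ hτ
      have h6 := hk1 τ hτ
      have h7 := ha τ hτ
      have h8 := hb τ hτ
      have h9 : (τ i = 2 ∧ τ j = 2 ∧ τ k = 0) ∨ (τ i = 2 ∧ τ j = 0 ∧ τ k = 2) ∨
        (τ i = 0 ∧ τ j = 2 ∧ τ k = 2) := by omega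
      rw [eq_mk3 hij hik hjk τ]
      rcases h9 with ⟨g1, g2, g3⟩ | ⟨g1, g2, g3⟩ | ⟨g1, g2, g3⟩ <;> rw [g1, g2, g3]
      · left; rfl
      · right; left; rfl
      · right; right; rfl
    have h4 := Finset.card_le_card hsub
    have h5 := Finset.card_le_three (a := mk3 i j k 2 2 0) (b := mk3 i j k 2 0 2)
      (c := mk3 i j k 0 2 2)
    omega
  have hk2 : ∀ τ ∈ T, τ k ≠ 2 := by
    intro τ hτ h1
    exact hc (by rw [← hz1 τ hτ h1, hz])
  -- shapes
  have hshape : ∀ τ ∈ T, (τ i = 2 ∧ τ j = 2 ∧ τ k = 0) ∨ (τ i = 0 ∧ τ j = 0 ∧ τ k = 4) ∨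
      (τ i = 1 ∧ τ j = 0 ∧ τ k = 3) ∨ (τ i = 0 ∧ τ j = 1 ∧ τ k = 3) := by
    intro τ hτ
    have hdeg := hT τ hτ
    rw [deg_labels hij hik hjk] at hdeg
    have h4 := hno τ hτ
    have h5 := hk1 τ hτ
    have h6 := hk2 τ hτ
    have h7 := ha τ hτ
    have h8 := hb τ hτ
    omega
  intro F hF hu
  have hzero : ∀ a b c : ℕ, (∀ τ ∈ T, ¬ (a ≤ τ i ∧ b ≤ τ j ∧ c ≤ τ k)) →
      F (mk3 i j k a b c) = 0 := by
    intro a b c h
    by_contra hcon
    obtain ⟨⟨τ, hτ, hle⟩, _⟩ := hF _ hcon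
    have q1 := hle i
    have q2 := hle j
    have q3 := hle k
    rw [mk3_i hij hik hjk] at q1
    rw [mk3_j hij hik hjk] at q2
    rw [mk3_k hij hik hjk] at q3
    exact h τ hτ ⟨q1, q2, q3⟩
  have U : ∀ a b c : ℕ, F (mk3 i j k (a + 1) b c) + F (mk3 i j k a (b + 1) c) +
      F (mk3 i j k a b (c + 1)) = 0 := by
    intro a b c
    rw [← up_mk3 hij hik hjk]
    exact hu _
  have z300 : F (mk3 i j k 3 0 0) = 0 := hzero _ _ _ (by
    intro τ hτ; have := hshape τ hτ; omega)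
  have z030 : F (mk3 i j k 0 3 0) = 0 := hzero _ _ _ (by
    intro τ hτ; have := hshape τ hτ; omega)
  have z201 : F (mk3 i j k 2 0 1) = 0 := hzero _ _ _ (by
    intro τ hτ; have := hshape τ hτ; omega)
  have z021 : F (mk3 i j k 0 2 1) = 0 := hzero _ _ _ (by
    intro τ hτ; have := hshape τ hτ; omega)
  have z111 : F (mk3 i j k 1 1 1) = 0 := hzero _ _ _ (by
    intro τ hτ; have := hshape τ hτ; omega)
  have z210 : F (mk3 i j k 2 1 0) = 0 := by
    have := U 2 0 0
    norm_num at this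
    rw [z300, z201] at this
    simpa using this
  have z120 : F (mk3 i j k 1 2 0) = 0 := by
    have := U 0 2 0
    norm_num at this
    rw [z030, z021] at this
    simpa using this
  have z102 : F (mk3 i j k 1 0 2) = 0 := by
    have := U 1 0 1
    norm_num at this
    rw [z201, z111] at this
    simpa using this
  have z012 : F (mk3 i j k 0 1 2) = 0 := by
    have := U 0 1 1
    norm_num at this
    rw [z111, z021] at this
    simpa using this
  have z003 : F (mk3 i j k 0 0 3) = 0 := by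
    have := U 0 0 2
    norm_num at this
    rw [z102, z012] at this
    simpa using this
  funext m
  by_contra hm
  obtain ⟨⟨τ, hτ, hle⟩, hdm⟩ := hF m hm
  rw [deg_labels hij hik hjk] at hdm
  have q1 := hle i
  have q2 := hle j
  have q3 := hle k
  have hsh := hshape τ hτ
  have hm' : F m ≠ 0 := hm
  rw [eq_mk3 hij hik hjk m] at hm'
  have hcs : (m i = 2 ∧ m j = 1 ∧ m k = 0) ∨ (m i = 1 ∧ m j = 2 ∧ m k = 0) ∨
      (m i = 0 ∧ m j = 0 ∧ m k = 3) ∨ (m i = 1 ∧ m j = 0 ∧ m k = 2) ∨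
      (m i = 0 ∧ m j = 1 ∧ m k = 2) := by omega
  rcases hcs with ⟨g1, g2, g3⟩ | ⟨g1, g2, g3⟩ | ⟨g1, g2, g3⟩ | ⟨g1, g2, g3⟩ | ⟨g1, g2, g3⟩ <;>
    rw [g1, g2, g3] at hm'
  · exact hm' z210
  · exact hm' z120
  · exact hm' z003
  · exact hm' z102
  · exact hm' z012

end labels

theorem exists_labels (i : Fin 3) : ∃ j k : Fin 3, i ≠ j ∧ i ≠ k ∧ j ≠ k := by
  fin_cases i
  · exact ⟨1, 2, by decide, by decide, by decide⟩
  · exact ⟨0, 2, by decide, by decide, by decide⟩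
  · exact ⟨0, 1, by decide, by decide, by decide⟩

theorem inj_or_surj_34_four [CharZero K] {T : Finset (Fin 3 →₀ ℕ)}
    (hT : ∀ τ ∈ T, deg τ = 4) (hc : T.card = 4) : InjAt K T 2 ∨ SurjAt K T 2 := by
  classical
  by_cases hs : InjAt K T 2
  · exact Or.inl hs
  right
  unfold InjAt at hs
  push Not at hs
  obtain ⟨f, hf, hd, hf0⟩ := hs
  obtain ⟨u, hu⟩ := Function.ne_iff.mp hf0
  have hu' : f u ≠ 0 := hu
  obtain ⟨⟨τ, hτ, hle⟩, hdu⟩ := hf u hu
  have Dgen : ∀ {i j k : Fin 3}, i ≠ j → i ≠ k → j ≠ k →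
      ∀ (τ : Fin 3 →₀ ℕ), τ ∈ T → ∀ (a b c : ℕ), a ≤ τ i → b ≤ τ j → c ≤ τ k →
      (if a = 0 then 0 else f (mk3 i j k (a - 1) b c)) +
      (if b = 0 then 0 else f (mk3 i j k a (b - 1) c)) +
      (if c = 0 then 0 else f (mk3 i j k a b (c - 1))) = 0 := by
    intro i j k hij hik hjk τ hτ a b c ha hb hc
    rw [← down_mk3 hij hik hjk f a b c]
    exact hd _ (std_mk3 hij hik hjk hτ ha hb hc)
  -- all exponents of τ are at most two
  have hle2 : ∀ i, τ i ≤ 2 := by
    intro i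
    by_contra hcon
    obtain ⟨j, k, hij, hik, hjk⟩ := exists_labels i
    have hdeg := hT τ hτ
    rw [deg_labels hij hik hjk] at hdeg hdu
    have D := Dgen hij hik hjk τ hτ
    have v0 := D 3 0 0 (by omega) (by omega) (by omega)
    norm_num at v0
    have q1 := hle i
    have q2 := hle j
    have q3 := hle k
    rw [eq_mk3 hij hik hjk u] at hu'
    have hcs : (u i = 2 ∧ u j = 0 ∧ u k = 0) ∨ (u i = 1 ∧ u j = 1 ∧ u k = 0) ∨
      (u i = 1 ∧ u j = 0 ∧ u k = 1) := by omega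
    rcases hcs with ⟨g1, g2, g3⟩ | ⟨g1, g2, g3⟩ | ⟨g1, g2, g3⟩
    · rw [g1, g2, g3] at hu'
      exact hu' v0
    · have v1 := D 2 1 0 (by omega) (by omega) (by omega)
      norm_num at v1
      rw [v0, add_zero] at v1
      rw [g1, g2, g3] at hu'
      exact hu' v1
    · have v1 := D 2 0 1 (by omega) (by omega) (by omega)
      norm_num at v1
      rw [v0, add_zero] at v1
      rw [g1, g2, g3] at hu'
      exact hu' v1
  -- labels with τ i = 2 and τ j ≥ τ k
  obtain ⟨i, j, k, hij, hik, hjk, h2, hjk'⟩ : ∃ i j k : Fin 3, i ≠ j ∧ i ≠ k ∧ j ≠ k ∧ τ i = 2 ∧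
      ((τ j = 2 ∧ τ k = 0) ∨ (τ j = 1 ∧ τ k = 1)) := by
    have hdeg := hT τ hτ
    rw [deg_fin3] at hdeg
    have t0 := hle2 0
    have t1 := hle2 1
    have t2 := hle2 2
    have hcs : (τ 0 = 2 ∧ τ 1 = 2 ∧ τ 2 = 0) ∨ (τ 0 = 2 ∧ τ 1 = 0 ∧ τ 2 = 2) ∨
      (τ 0 = 0 ∧ τ 1 = 2 ∧ τ 2 = 2) ∨ (τ 0 = 2 ∧ τ 1 = 1 ∧ τ 2 = 1) ∨
      (τ 0 = 1 ∧ τ 1 = 2 ∧ τ 2 = 1) ∨ (τ 0 = 1 ∧ τ 1 = 1 ∧ τ 2 = 2) := by omega
    rcases hcs with ⟨g1, g2, g3⟩ | ⟨g1, g2, g3⟩ | ⟨g1, g2, g3⟩ | ⟨g1, g2, g3⟩ | ⟨g1, g2, g3⟩ |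
      ⟨g1, g2, g3⟩
    · exact ⟨0, 1, 2, by decide, by decide, by decide, g1, Or.inl ⟨g2, g3⟩⟩
    · exact ⟨0, 2, 1, by decide, by decide, by decide, g1, Or.inl ⟨g3, g2⟩⟩
    · exact ⟨1, 2, 0, by decide, by decide, by decide, g2, Or.inl ⟨g3, g1⟩⟩
    · exact ⟨0, 1, 2, by decide, by decide, by decide, g1, Or.inr ⟨g2, g3⟩⟩
    · exact ⟨1, 0, 2, by decide, by decide, by decide, g2, Or.inr ⟨g1, g3⟩⟩
    · exact ⟨2, 0, 1, by decide, by decide, by decide, g3, Or.inr ⟨g1, g2⟩⟩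
  have D := Dgen hij hik hjk τ hτ
  have q1 := hle i
  have q2 := hle j
  have q3 := hle k
  rw [deg_labels hij hik hjk] at hdu
  have hu2 := hu'
  rw [eq_mk3 hij hik hjk u] at hu2
  -- no element of T with all exponents positive
  have hno : (f (mk3 i j k 1 1 0) ≠ 0) → ∀ {i' j' k' : Fin 3}, i' ≠ j' → i' ≠ k' → j' ≠ k' →
      ∀ τ' ∈ T, τ' i' = 2 → τ' j' = 1 → τ' k' = 1 → False := by
    intro hmix i' j' k' hij' hik' hjk' τ' hτ' g1 g2 g3
    by_cases hc0 : f (mk3 i' j' k' 2 0 0) = 0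
    · have D' := Dgen hij' hik' hjk' τ' hτ'
      have w1 := D' 2 1 0 (by omega) (by omega) (by omega)
      have w2 := D' 2 0 1 (by omega) (by omega) (by omega)
      have w3 := D' 1 1 1 (by omega) (by omega) (by omega)
      norm_num at w1 w2 w3
      rw [hc0, add_zero] at w1 w2
      rw [w1, w2, add_zero, add_zero] at w3
      -- the mixed quadratic `e_i + e_j`
      have hval : mk3 i j k 1 1 0 = mk3 i' j' k' 1 1 0 ∨ mk3 i j k 1 1 0 = mk3 i' j' k' 1 0 1 ∨
          mk3 i j k 1 1 0 = mk3 i' j' k' 0 1 1 := by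
        have hq := eq_mk3 hij' hik' hjk' (mk3 i j k 1 1 0)
        have hdq := deg_labels hij' hik' hjk' (mk3 i j k 1 1 0)
        rw [deg_labels hij hik hjk, mk3_i hij hik hjk, mk3_j hij hik hjk, mk3_k hij hik hjk] at hdq
        have hb : ∀ l, mk3 i j k 1 1 0 l ≤ 1 := by
          intro l
          have hl : l ∈ ({i, j, k} : Finset (Fin 3)) := by
            rw [← univ_labels hij hik hjk]; exact Finset.mem_univ l
          simp only [Finset.mem_insert, Finset.mem_singleton] at hl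
          rcases hl with rfl | rfl | rfl
          · rw [mk3_i hij hik hjk]
          · rw [mk3_j hij hik hjk]
          · rw [mk3_k hij hik hjk]; omega
        have b1 := hb i'
        have b2 := hb j'
        have b3 := hb k'
        have hcs : (mk3 i j k 1 1 0 i' = 1 ∧ mk3 i j k 1 1 0 j' = 1 ∧ mk3 i j k 1 1 0 k' = 0) ∨
          (mk3 i j k 1 1 0 i' = 1 ∧ mk3 i j k 1 1 0 j' = 0 ∧ mk3 i j k 1 1 0 k' = 1) ∨
          (mk3 i j k 1 1 0 i' = 0 ∧ mk3 i j k 1 1 0 j' = 1 ∧ mk3 i j k 1 1 0 k' = 1) := by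
          omega
        rcases hcs with ⟨p1, p2, p3⟩ | ⟨p1, p2, p3⟩ | ⟨p1, p2, p3⟩
        · rw [p1, p2, p3] at hq; exact Or.inl hq
        · rw [p1, p2, p3] at hq; exact Or.inr (Or.inl hq)
        · rw [p1, p2, p3] at hq; exact Or.inr (Or.inr hq)
      rcases hval with h | h | h
      · rw [h] at hmix; exact hmix w1
      · rw [h] at hmix; exact hmix w2
      · rw [h] at hmix; exact hmix w3
    · have := caseA hij' hik' hjk' hT hd hτ' g1 g2 g3 hc0
      omega
  rcases hjk' with ⟨hj, hk⟩ | ⟨hj, hk⟩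
  · -- shape (2,2,0)
    have v1 := D 2 1 0 (by omega) (by omega) (by omega)
    have v2 := D 1 2 0 (by omega) (by omega) (by omega)
    norm_num at v1 v2
    have hc0 : f (mk3 i j k 2 0 0) ≠ 0 := by
      intro h0
      rw [h0, add_zero] at v1
      rw [v1, add_zero] at v2
      have hcs : (u i = 2 ∧ u j = 0 ∧ u k = 0) ∨ (u i = 1 ∧ u j = 1 ∧ u k = 0) ∨
        (u i = 0 ∧ u j = 2 ∧ u k = 0) := by omega
      rcases hcs with ⟨g1, g2, g3⟩ | ⟨g1, g2, g3⟩ | ⟨g1, g2, g3⟩ <;> rw [g1, g2, g3] at hu2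
      · exact hu2 h0
      · exact hu2 v1
      · exact hu2 v2
    have hmix : f (mk3 i j k 1 1 0) ≠ 0 := by
      intro h0
      rw [h0, zero_add] at v1
      exact hc0 v1
    refine caseB hij hik hjk hT hc hd hτ h2 hj ?_ hc0
    intro τ' hτ' hpos
    have hdeg := hT τ' hτ'
    rw [deg_labels hij hik hjk] at hdeg
    have hcs : (τ' i = 2 ∧ τ' j = 1 ∧ τ' k = 1) ∨ (τ' i = 1 ∧ τ' j = 2 ∧ τ' k = 1) ∨
      (τ' i = 1 ∧ τ' j = 1 ∧ τ' k = 2) := by omega
    rcases hcs with ⟨g1, g2, g3⟩ | ⟨g1, g2, g3⟩ | ⟨g1, g2, g3⟩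
    · exact hno hmix hij hik hjk τ' hτ' g1 g2 g3
    · exact hno hmix hij.symm hjk hik τ' hτ' g2 g1 g3
    · exact hno hmix hik.symm hjk.symm hij τ' hτ' g3 g1 g2
  · -- shape (2,1,1)
    exfalso
    have v1 := D 2 1 0 (by omega) (by omega) (by omega)
    have v2 := D 2 0 1 (by omega) (by omega) (by omega)
    have v3 := D 1 1 1 (by omega) (by omega) (by omega)
    norm_num at v1 v2 v3
    have hc0 : f (mk3 i j k 2 0 0) ≠ 0 := by
      intro h0
      rw [h0, add_zero] at v1 v2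
      rw [v1, v2, add_zero, add_zero] at v3
      have hcs : (u i = 2 ∧ u j = 0 ∧ u k = 0) ∨ (u i = 1 ∧ u j = 1 ∧ u k = 0) ∨
        (u i = 1 ∧ u j = 0 ∧ u k = 1) ∨ (u i = 0 ∧ u j = 1 ∧ u k = 1) := by omega
      rcases hcs with ⟨g1, g2, g3⟩ | ⟨g1, g2, g3⟩ | ⟨g1, g2, g3⟩ | ⟨g1, g2, g3⟩ <;>
        rw [g1, g2, g3] at hu2
      · exact hu2 h0
      · exact hu2 v1
      · exact hu2 v2
      · exact hu2 v3
    have := caseA hij hik hjk hT hd hτ h2 hj hk hc0
    omega

theorem hasWLP_34_three [CharZero K] {I : Ideal (MvPolynomial (Fin 3) K)}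
    {T : Finset (Fin 3 →₀ ℕ)} (h : LevelData I 3 T) (hc : T.card = 4) : HasWLP I := by
  apply hasWLP_of h
  intro j
  rcases Nat.lt_or_ge j 3 with hj | hj
  · interval_cases j
    · exact Or.inl (injAt_low h.degT (by norm_num))
    · exact Or.inl (injAt_low h.degT (by norm_num))
    · exact inj_or_surj_34_three h.degT hc
  · exact Or.inr (surjAt_high h.degT hj)

theorem hasWLP_34_four [CharZero K] {I : Ideal (MvPolynomial (Fin 3) K)}
    {T : Finset (Fin 3 →₀ ℕ)} (h : LevelData I 4 T) (hc : T.card = 4) : HasWLP I := by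
  apply hasWLP_of h
  intro j
  rcases Nat.lt_or_ge j 4 with hj | hj
  · interval_cases j
    · exact Or.inl (injAt_low h.degT (by norm_num))
    · exact Or.inl (injAt_low h.degT (by norm_num))
    · exact inj_or_surj_34_four h.degT hc
    · exact Or.inr (surjAt_top h.degT (by omega))
  · exact Or.inr (surjAt_high h.degT hj)

end Pool.Agent.MP_a773c0_ag
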